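import Pool.Agent.TSpan33.Defs

/-!
# Codes of graphs and of 3-CNF formulas
-/

set_option autoImplicit false

namespace Pool.Agent.TSP94

open Classical in
/-- The code of a graph with vertices `0, ..., N - 1`: the number of vertices in unary, followed by
the adjacency matrix, row by row. -/
noncomputable def encodeGraph {N : ℕ} (G : SimpleGraph (Fin N)) : List Bool :=
  List.replicate N true ++ false ::
    (List.finRange N).flatMap fun i => (List.finRange N).map fun j => decide (G.Adj i j)

/-- The code of a 3-CNF formula with `n` variables and `m` clauses, given as
`φ : Fin m → Fin 3 → Fin n × Bool` (the literal `(v, c)` holds iff the variable `v` has the value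
`c`): `n` and `m` in unary, followed by the bits `φ j k = (v, c)`, for all clauses `j`, places
`k < 3`, variables `v` and values `c = true, false`, in this order. -/
def encodeCNF {n m : ℕ} (φ : Fin m → Fin 3 → Fin n × Bool) : List Bool :=
  List.replicate n true ++ false :: (List.replicate m true ++ false ::
    (List.finRange m).flatMap fun j => (List.finRange 3).flatMap fun k =>
      (List.finRange n).flatMap fun v => [true, false].map fun c => decide (φ j k = (v, c)))

end Pool.Agent.TSP94
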