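import Pool.Agent.PTL.Table
import Pool.Agent.TSP94.Defs

/-!
# The state of the algorithm, its two steps and the final test, as relations of bit strings

The state is a table with the entries `(r, a, b, c, d, e)`, `r < 4` and `a, ..., e < N`:
`(0, a, b)`: adjacency; `(1, a, b)`: `a` was eliminated before `b`, `(1, a, a)`: `a` was eliminated;
`(2, j, x, y, a, b)`: the atom `imp`; `(3, j, c)`: the atom `bad`.
-/

set_option autoImplicit false

namespace Pool.Agent.TSP94

open Pool.Agent.PTL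

/-- The bounds of the table. -/
def bds (N : ℕ) : List ℕ := [4, N, N, N, N, N]

/-- An entry of the table. -/
def lk (N : ℕ) (w : List Bool) (r a b c d e : ℕ) : Prop :=
  w.getD (idx (bds N) [r, a, b, c, d, e]) false = true

/-- adjacency -/
def rA (N : ℕ) (w : List Bool) (a b : ℕ) : Prop := lk N w 0 a b 0 0 0

/-- eliminated before -/
def rB (N : ℕ) (w : List Bool) (a b : ℕ) : Prop := lk N w 1 a b 0 0 0

/-- `bad` -/
def rD (N : ℕ) (w : List Bool) (j c : ℕ) : Prop := lk N w 3 j c 0 0 0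

/-- simplicial among the vertices that are not eliminated -/
def rSim (N : ℕ) (w : List Bool) (v : ℕ) : Prop :=
  ∀ a < N, ∀ b < N, ¬ rB N w a a → ¬ rB N w b b → rA N w v a → rA N w v b → a ≠ b → rA N w a b

/-- candidate for the elimination -/
def rCand (N : ℕ) (w : List Bool) (v : ℕ) : Prop := ¬ rB N w v v ∧ rSim N w v

/-- the vertex to be eliminated -/
def rPick (N : ℕ) (w : List Bool) (v : ℕ) : Prop := rCand N w v ∧ ∀ u < v, ¬ rCand N w u

/-- The elimination step. -/
def step1 (N : ℕ) (w : List Bool) (r a b c d e : ℕ) : Prop :=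
  lk N w r a b c d e ∨ (r = 1 ∧ rPick N w a ∧ (b = a ∨ ¬ rB N w b b))

/-- later neighbour -/
def rL (N : ℕ) (w : List Bool) (j a : ℕ) : Prop := rA N w j a ∧ rB N w j a

/-- first later neighbour -/
def rPar (N : ℕ) (w : List Bool) (l j : ℕ) : Prop :=
  rL N w l j ∧ ∀ a < N, rL N w l a → a = j ∨ rB N w j a

/-- child -/
def rChild (N : ℕ) (w : List Bool) (l j : ℕ) : Prop :=
  rPar N w l j ∧ ∃ a < N, rL N w l a ∧ a ≠ j

/-- choices -/
def rChoice (N : ℕ) (w : List Bool) (j c x y : ℕ) : Prop :=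
  rA N w x y ∧ (x = c ∨ (rL N w j c ∧ rA N w c x ∧ y ≠ c ∧ ∀ a < N, rL N w j a → a = c ∨ a = x))

/-- rules for `imp` -/
def rImp (N : ℕ) (w : List Bool) (j x y a b : ℕ) : Prop :=
  a = b ∨ b = y ∨ (∃ c < N, lk N w 2 j x y a c ∧ lk N w 2 j x y c b) ∨ lk N w 2 j y x b a ∨
  (a = y ∧ (b = j ∨ rL N w j b) ∧ b ≠ x ∧ b ≠ y ∧ ¬ rA N w b x) ∨
  (∃ l < N, rChild N w l j ∧ rL N w l a ∧ rL N w l b ∧ a ≠ x ∧ a ≠ y ∧ b ≠ x ∧ b ≠ y ∧
    lk N w 2 l x y a b) ∨
  (a = y ∧ ∃ l < N, rChild N w l j ∧ rL N w l b ∧ b ≠ x ∧ b ≠ y ∧ rD N w l x ∧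
    lk N w 2 l x y y b) ∨
  (a = y ∧ b = x ∧ ∃ l < N, rChild N w l j ∧ (∀ c < N, rL N w l c → c = x ∨ c = y) ∧ rD N w l x)

/-- the rule for `bad` -/
def rBad (N : ℕ) (w : List Bool) (j c : ℕ) : Prop :=
  ∀ x < N, ∀ y < N, rChoice N w j c x y →
    ∃ s < N, ((rL N w j s ∧ s ≠ y) ∨ s = x) ∧ lk N w 2 j x y y s

/-- The second step. -/
def step2 (N : ℕ) (w : List Bool) (r a b c d e : ℕ) : Prop :=
  lk N w r a b c d e ∨ (r = 2 ∧ rImp N w a b c d e) ∨ (r = 3 ∧ rBad N w a b)

/-- The final test. -/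
def accept (N : ℕ) (w : List Bool) : Prop :=
  ∀ l < N, ∀ s < N, rL N w l s → (∀ a < N, rL N w l a → a = s) → ¬ rD N w l s

section tests

variable {k : ℕ} {N r a b c d e : (ℕ → ℕ) → ℕ}

theorem isT_lk (hN : IsE k N) (hr : IsE k r) (ha : IsE k a) (hb : IsE k b) (hc : IsE k c)
    (hd : IsE k d) (he : IsE k e) :
    IsT k (fun w env => lk (N env) w (r env) (a env) (b env) (c env) (d env) (e env)) := by
  refine (IsT.bit (f := fun env => r env * (N env * (N env * (N env * (N env * (N env * 1))))) +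
    (a env * (N env * (N env * (N env * (N env * 1)))) + (b env * (N env * (N env * (N env * 1))) +
      (c env * (N env * (N env * 1)) + (d env * (N env * 1) + (e env * 1 + 0)))))) ?_).congr
    fun w env => by simp [lk, idx, bds]
  repeat' first
    | exact IsE.const _
    | assumption
    | apply IsE.add
    | apply IsE.mul

theorem isT_rA (hN : IsE k N) (ha : IsE k a) (hb : IsE k b) :
    IsT k (fun w env => rA (N env) w (a env) (b env)) :=
  isT_lk hN (IsE.const 0) ha hb (IsE.const 0) (IsE.const 0) (IsE.const 0)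

theorem isT_rB (hN : IsE k N) (ha : IsE k a) (hb : IsE k b) :
    IsT k (fun w env => rB (N env) w (a env) (b env)) :=
  isT_lk hN (IsE.const 1) ha hb (IsE.const 0) (IsE.const 0) (IsE.const 0)

theorem isT_rD (hN : IsE k N) (ha : IsE k a) (hb : IsE k b) :
    IsT k (fun w env => rD (N env) w (a env) (b env)) :=
  isT_lk hN (IsE.const 3) ha hb (IsE.const 0) (IsE.const 0) (IsE.const 0)

theorem isT_rSim (hN : IsE k N) (ha : IsE k a) :
    IsT k (fun w env => rSim (N env) w (a env)) := by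
  unfold rSim
  refine IsT.all hN fun k₁ h₁ y₁ g₁ => IsT.all (hN.mono h₁) fun k₂ h₂ y₂ g₂ => ?_
  have hN' := hN.mono (h₁.trans h₂)
  have ha' := ha.mono (h₁.trans h₂)
  have g₁' := g₁.mono h₂
  exact (isT_rB hN' g₁' g₁').not.imp ((isT_rB hN' g₂ g₂).not.imp ((isT_rA hN' ha' g₁').imp
    ((isT_rA hN' ha' g₂).imp ((IsT.ne g₁' g₂).imp (isT_rA hN' g₁' g₂)))))

theorem isT_rCand (hN : IsE k N) (ha : IsE k a) :
    IsT k (fun w env => rCand (N env) w (a env)) :=
  (isT_rB hN ha ha).not.and (isT_rSim hN ha)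

theorem isT_rPick (hN : IsE k N) (ha : IsE k a) :
    IsT k (fun w env => rPick (N env) w (a env)) :=
  (isT_rCand hN ha).and (IsT.all ha fun k' h y hy => (isT_rCand (hN.mono h) hy).not)

theorem isT_step1 (hN : IsE k N) (hr : IsE k r) (ha : IsE k a) (hb : IsE k b) (hc : IsE k c)
    (hd : IsE k d) (he : IsE k e) :
    IsT k (fun w env => step1 (N env) w (r env) (a env) (b env) (c env) (d env) (e env)) :=
  (isT_lk hN hr ha hb hc hd he).or ((IsT.eq hr (IsE.const 1)).and ((isT_rPick hN ha).and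
    ((IsT.eq hb ha).or (isT_rB hN hb hb).not)))

theorem isT_rL (hN : IsE k N) (ha : IsE k a) (hb : IsE k b) :
    IsT k (fun w env => rL (N env) w (a env) (b env)) :=
  (isT_rA hN ha hb).and (isT_rB hN ha hb)

theorem isT_rPar (hN : IsE k N) (ha : IsE k a) (hb : IsE k b) :
    IsT k (fun w env => rPar (N env) w (a env) (b env)) :=
  (isT_rL hN ha hb).and (IsT.all hN fun k' h y hy => (isT_rL (hN.mono h) (ha.mono h) hy).imp
    ((IsT.eq hy (hb.mono h)).or (isT_rB (hN.mono h) (hb.mono h) hy)))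

theorem isT_rChild (hN : IsE k N) (ha : IsE k a) (hb : IsE k b) :
    IsT k (fun w env => rChild (N env) w (a env) (b env)) :=
  (isT_rPar hN ha hb).and (IsT.ex hN fun k' h y hy => (isT_rL (hN.mono h) (ha.mono h) hy).and
    (IsT.ne hy (hb.mono h)))

theorem isT_rChoice (hN : IsE k N) (ha : IsE k a) (hb : IsE k b) (hc : IsE k c)
    (hd : IsE k d) :
    IsT k (fun w env => rChoice (N env) w (a env) (b env) (c env) (d env)) :=
  (isT_rA hN hc hd).and ((IsT.eq hc hb).or ((isT_rL hN ha hb).and ((isT_rA hN hb hc).and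
    ((IsT.ne hd hb).and (IsT.all hN fun k' h y hy =>
      (isT_rL (hN.mono h) (ha.mono h) hy).imp ((IsT.eq hy (hb.mono h)).or
        (IsT.eq hy (hc.mono h))))))))

theorem isT_rImp (hN : IsE k N) (ha : IsE k a) (hb : IsE k b) (hc : IsE k c)
    (hd : IsE k d) (he : IsE k e) :
    IsT k (fun w env => rImp (N env) w (a env) (b env) (c env) (d env) (e env)) := by
  refine (IsT.eq hd he).or ((IsT.eq he hc).or ((IsT.ex hN fun k' h y hy => ?_).or
    ((isT_lk hN (IsE.const 2) ha hc hb he hd).or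
      (((IsT.eq hd hc).and (((IsT.eq he ha).or (isT_rL hN ha he)).and ((IsT.ne he hb).and
        ((IsT.ne he hc).and (isT_rA hN he hb).not)))).or ((IsT.ex hN fun k' h y hy => ?_).or
          (((IsT.eq hd hc).and (IsT.ex hN fun k' h y hy => ?_)).or
            ((IsT.eq hd hc).and ((IsT.eq he hb).and (IsT.ex hN fun k' h y hy => ?_)))))))))
  · exact (isT_lk (hN.mono h) (IsE.const 2) (ha.mono h) (hb.mono h) (hc.mono h) (hd.mono h) hy).and
      (isT_lk (hN.mono h) (IsE.const 2) (ha.mono h) (hb.mono h) (hc.mono h) hy (he.mono h))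
  · have hN := hN.mono h
    have ha := ha.mono h
    have hb := hb.mono h
    have hc := hc.mono h
    have hd := hd.mono h
    have he := he.mono h
    exact (isT_rChild hN hy ha).and ((isT_rL hN hy hd).and ((isT_rL hN hy he).and
      ((IsT.ne hd hb).and ((IsT.ne hd hc).and ((IsT.ne he hb).and ((IsT.ne he hc).and
        (isT_lk hN (IsE.const 2) hy hb hc hd he)))))))
  · have hN := hN.mono h
    have ha := ha.mono h
    have hb := hb.mono h
    have hc := hc.mono h
    have he := he.mono h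
    exact (isT_rChild hN hy ha).and ((isT_rL hN hy he).and
      ((IsT.ne he hb).and ((IsT.ne he hc).and ((isT_rD hN hy hb).and
        (isT_lk hN (IsE.const 2) hy hb hc hc he)))))
  · have hN := hN.mono h
    have ha := ha.mono h
    have hb := hb.mono h
    have hc := hc.mono h
    exact (isT_rChild hN hy ha).and ((IsT.all hN fun k'' h' z hz =>
      (isT_rL (hN.mono h') (hy.mono h') hz).imp ((IsT.eq hz (hb.mono h')).or
        (IsT.eq hz (hc.mono h')))).and (isT_rD hN hy hb))

theorem isT_rBad (hN : IsE k N) (ha : IsE k a) (hb : IsE k b) :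
    IsT k (fun w env => rBad (N env) w (a env) (b env)) := by
  refine IsT.all hN fun k₁ h₁ x hx => IsT.all (hN.mono h₁) fun k₂ h₂ y hy => ?_
  have hN := hN.mono (h₁.trans h₂)
  have ha := ha.mono (h₁.trans h₂)
  have hb := hb.mono (h₁.trans h₂)
  have hx := hx.mono h₂
  refine (isT_rChoice hN ha hb hx hy).imp (IsT.ex hN fun k₃ h₃ s hs => ?_)
  have hN := hN.mono h₃
  have ha := ha.mono h₃
  have hx := hx.mono h₃
  have hy := hy.mono h₃
  exact (((isT_rL hN ha hs).and (IsT.ne hs hy)).or (IsT.eq hs hx)).and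
    (isT_lk hN (IsE.const 2) ha hx hy hy hs)

theorem isT_step2 (hN : IsE k N) (hr : IsE k r) (ha : IsE k a) (hb : IsE k b) (hc : IsE k c)
    (hd : IsE k d) (he : IsE k e) :
    IsT k (fun w env => step2 (N env) w (r env) (a env) (b env) (c env) (d env) (e env)) :=
  (isT_lk hN hr ha hb hc hd he).or (((IsT.eq hr (IsE.const 2)).and
    (isT_rImp hN ha hb hc hd he)).or ((IsT.eq hr (IsE.const 3)).and (isT_rBad hN ha hb)))

theorem isT_accept (hN : IsE k N) : IsT k (fun w env => accept (N env) w) := by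
  refine IsT.all hN fun k₁ h₁ l hl => IsT.all (hN.mono h₁) fun k₂ h₂ s hs => ?_
  have hN := hN.mono (h₁.trans h₂)
  have hl := hl.mono h₂
  exact (isT_rL hN hl hs).imp ((IsT.all hN fun k' h a ha =>
    (isT_rL (hN.mono h) (hl.mono h) ha).imp (IsT.eq ha (hs.mono h))).imp (isT_rD hN hl hs).not)

end tests

end Pool.Agent.TSP94
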