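import Pool.Agent.TSpan33.Defs

/-!
# P, NP and NP-completeness
-/

set_option autoImplicit false

namespace Pool.Agent.TSP94

/-- The function is computed by a Turing machine (a multi-stack machine in the sense of Mathlib)
in polynomial time. -/
def PolyTime (f : List Bool → List Bool) : Prop :=
  Nonempty (Turing.TM2ComputableInPolyTime (id : List Bool → List Bool)
    (id : List Bool → List Bool) f)

/-- The language is in P. -/
def InP (L : Set (List Bool)) : Prop :=
  ∃ f : List Bool → List Bool, PolyTime f ∧ ∀ w, w ∈ L ↔ f w = [true]

/-- Two words as one word: every letter of `w` is preceded by `true`, and then `false` and the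
word `c` follow. -/
def pair (w c : List Bool) : List Bool :=
  (w.flatMap fun b => [true, b]) ++ false :: c

/-- The language is in NP: there are a polynomial time verifier `f` and a polynomial `p` such that
`w` is in the language iff there is a certificate `c` of length at most `p |w|` for which `f`
accepts the pair `(w, c)`. -/
def InNP (L : Set (List Bool)) : Prop :=
  ∃ (f : List Bool → List Bool) (p : Polynomial ℕ), PolyTime f ∧
    ∀ w, w ∈ L ↔ ∃ c : List Bool, c.length ≤ p.eval w.length ∧ f (pair w c) = [true]

/-- Polynomial time many-one reducibility. -/
def Reduces (L L' : Set (List Bool)) : Prop :=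
  ∃ f : List Bool → List Bool, PolyTime f ∧ ∀ w, w ∈ L ↔ f w ∈ L'

/-- The language is NP-complete. -/
def NPComplete (L : Set (List Bool)) : Prop :=
  InNP L ∧ ∀ L', InNP L' → Reduces L' L

end Pool.Agent.TSP94
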