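import Pool.Agent.TSP94.Enc

/-!
# Writing down a formula
-/

set_option autoImplicit false

namespace Pool.Agent.TSP94

open Pool.Agent.PTL

open Classical in
/-- The word of a formula with the variables `LV` and the clauses `LC`; `lit j k v b` says that the
`k`-th literal of the clause `j` is the variable `v` with the sign `b` (`0` is positive). -/
noncomputable def cnfW {α γ : Type*} (LV : List α) (LC : List γ) (lit : γ → ℕ → α → ℕ → Prop) :
    List Bool :=
  (LV.flatMap fun _ => [true]) ++ false :: ((LC.flatMap fun _ => [true]) ++ false ::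
    LC.flatMap fun j => (List.range 3).flatMap fun k => LV.flatMap fun v =>
      (List.range 2).flatMap fun b => [decide (lit j k v b)])

theorem flatMap_one {α : Type*} (L : List α) :
    (L.flatMap fun _ => [true]) = List.replicate L.length true := by
  induction L with
  | nil => rfl
  | cons a L ih => rw [List.flatMap_cons, ih]; rfl

theorem flatMap_fin {α β : Type*} (L : List α) (g : α → List β) :
    L.flatMap g = (List.finRange L.length).flatMap fun i => g L[i] := by
  conv_lhs => rw [← List.map_getElem_finRange L]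
  rw [List.flatMap_map]
  rfl

theorem flatMap_range_fin {β : Type*} (n : ℕ) (g : ℕ → List β) :
    (List.range n).flatMap g = (List.finRange n).flatMap fun i : Fin n => g (i : ℕ) := by
  rw [← List.map_coe_finRange_eq_range, List.flatMap_map]

variable {α γ : Type*} [DecidableEq α] {LV : List α} {LC : List γ}
  {lit : γ → ℕ → α → ℕ → Prop} (L : γ → Fin 3 → α × Bool)

/-- The formula. -/
def cnfF (hL : ∀ j ∈ LC, ∀ k, (L j k).1 ∈ LV) : Fin LC.length → Fin 3 → Fin LV.length × Bool :=
  fun j k => (⟨LV.idxOf (L LC[j] k).1,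
    List.idxOf_lt_length_iff.2 (hL _ (List.getElem_mem _) k)⟩, (L LC[j] k).2)

theorem cnfW_eq (hL : ∀ j ∈ LC, ∀ k, (L j k).1 ∈ LV) (hV : LV.Nodup)
    (hlit : ∀ j ∈ LC, ∀ (k : Fin 3), ∀ v ∈ LV, ∀ b : ℕ, b < 2 →
      (lit j k v b ↔ v = (L j k).1 ∧ b = if (L j k).2 then 0 else 1)) :
    cnfW LV LC lit = encodeCNF (cnfF L hL) := by
  classical
  unfold cnfW encodeCNF
  rw [flatMap_one, flatMap_one, flatMap_fin LC]
  congr 4
  apply List.flatMap_congr
  intro j _
  rw [flatMap_range_fin]
  apply List.flatMap_congr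
  intro k _
  rw [flatMap_fin LV]
  apply List.flatMap_congr
  intro v _
  have key : ∀ (c : Bool), (lit LC[j] k LV[v] (if c then 0 else 1) ↔
      cnfF L hL j k = (v, c)) := by
    intro c
    refine (hlit LC[(j : ℕ)] (List.getElem_mem j.2) k LV[(v : ℕ)] (List.getElem_mem v.2)
      (if c then 0 else 1) (by split_ifs <;> omega)).trans ?_
    unfold cnfF
    rw [Prod.ext_iff, Fin.ext_iff]
    refine and_congr ⟨fun h => ?_, fun h => ?_⟩ ?_
    · show LV.idxOf (L LC[(j : ℕ)] k).1 = (v : ℕ)
      rw [← h]
      exact hV.idxOf_getElem v v.2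
    · have h' : LV.idxOf (L LC[j] k).1 = (v : ℕ) := h
      have h2 : LV.idxOf (L LC[j] k).1 < LV.length :=
        List.idxOf_lt_length_iff.2 (hL _ (List.getElem_mem _) k)
      have h3 := List.getElem_idxOf h2
      simp only [h'] at h3
      exact h3
    · show _ ↔ (L LC[j] k).2 = c
      cases c <;> cases (L LC[j] k).2 <;> simp
  have e0 := key true
  have e1 := key false
  simp only [Bool.false_eq_true, if_false, if_true] at e0 e1
  show ((List.range 2).flatMap fun b => [decide (lit LC[j] k LV[v] b)]) = _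
  have : List.range 2 = [0, 1] := rfl
  rw [this]
  simp only [List.flatMap_cons, List.flatMap_nil, List.map_cons, List.map_nil, e0, e1]
  rfl

theorem cnfF_sat (hL : ∀ j ∈ LC, ∀ k, (L j k).1 ∈ LV) (hV : LV.Nodup) :
    (∃ τ : Fin LV.length → Bool, ∀ j, ∃ k, τ (cnfF L hL j k).1 = (cnfF L hL j k).2) ↔
      ∃ τ : α → Bool, ∀ j ∈ LC, ∃ k, τ (L j k).1 = (L j k).2 := by
  constructor
  · rintro ⟨τ, h⟩
    refine ⟨fun a => if ha : LV.idxOf a < LV.length then τ ⟨_, ha⟩ else true, fun j hj => ?_⟩
    obtain ⟨i, hi, rfl⟩ := List.getElem_of_mem hj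
    obtain ⟨k, hk⟩ := h ⟨i, hi⟩
    refine ⟨k, ?_⟩
    beta_reduce
    rw [dif_pos (List.idxOf_lt_length_iff.2 (hL _ (List.getElem_mem _) k))]
    exact hk
  · rintro ⟨τ, h⟩
    refine ⟨fun i => τ LV[i], fun j => ?_⟩
    obtain ⟨k, hk⟩ := h _ (List.getElem_mem j.2)
    refine ⟨k, ?_⟩
    have : LV[(cnfF L hL j k).1] = (L LC[j] k).1 := List.getElem_idxOf _
    show τ (LV[(cnfF L hL j k).1]) = _
    rw [this]
    exact hk

open Classical in
/-- The word of a formula whose variables and clauses are given by boxes and tests. -/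
theorem IsP.cnf (bv bc : List ((ℕ → ℕ) → ℕ)) (k : ℕ) (hbv : ∀ b ∈ bv, IsE k b)
    (hbc : ∀ b ∈ bc, IsE k b) {φ : List Bool → (ℕ → ℕ) → List ℕ → Prop}
    (hφ : ∀ k', k ≤ k' → ∀ ys : List ((ℕ → ℕ) → ℕ), ys.length = bc.length → (∀ y ∈ ys, IsE k' y) →
      IsT k' (fun w env => φ w env (ys.map (· env))))
    {R : List Bool → (ℕ → ℕ) → List ℕ → ℕ → List ℕ → ℕ → Prop}
    (hR : ∀ k', k ≤ k' → ∀ xs ys : List ((ℕ → ℕ) → ℕ), xs.length = bc.length →
      ys.length = bv.length → (∀ x ∈ xs, IsE k' x) → (∀ y ∈ ys, IsE k' y) →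
      ∀ z, IsE k' z → ∀ b, IsE k' b →
      IsT k' (fun w env => R w env (xs.map (· env)) (z env) (ys.map (· env)) (b env))) :
    IsP k (fun w env => cnfW (box (bv.map (· env)))
      ((box (bc.map (· env))).filter fun l => decide (φ w env l)) (R w env)) := by
  have h1 : IsP k (fun w env => (box (bv.map (· env))).flatMap fun _ => [true]) :=
    IsP.box bv k hbv (G := fun _ _ _ => [true]) fun _ _ _ _ _ => IsP.emit true
  have h2 : IsP k (fun w env => ((box (bc.map (· env))).filter fun l =>
      decide (φ w env l)).flatMap fun _ => [true]) :=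
    IsP.filterBox bc k hbc hφ (G := fun _ _ _ => [true]) fun _ _ _ _ _ => IsP.emit true
  have h3 : IsP k (fun w env => ((box (bc.map (· env))).filter fun l =>
      decide (φ w env l)).flatMap fun j => (List.range 3).flatMap fun k =>
        (box (bv.map (· env))).flatMap fun v => (List.range 2).flatMap fun b =>
          [decide (R w env j k v b)]) := by
    refine IsP.filterBox bc k hbc hφ (G := fun w env j => (List.range 3).flatMap fun k =>
        (box (bv.map (· env))).flatMap fun v => (List.range 2).flatMap fun b =>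
          [decide (R w env j k v b)]) fun k₁ h₁ xs hxs hx => ?_
    refine IsP.loop (f := fun _ => 3) (IsE.const 3) (G := fun w env z =>
        (box (bv.map (· env))).flatMap fun v => (List.range 2).flatMap fun b =>
          [decide (R w env (xs.map (· env)) z v b)]) fun k₂ h₂ z hz => ?_
    refine IsP.box bv k₂ (fun b hb => (hbv b hb).mono (h₁.trans h₂)) (G := fun w env v =>
        (List.range 2).flatMap fun b =>
          [decide (R w env (xs.map (· env)) (z env) v b)]) fun k₃ h₃ ys hys hy => ?_
    refine IsP.loop (f := fun _ => 2) (IsE.const 2) (G := fun w env b =>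
          [decide (R w env (xs.map (· env)) (z env) (ys.map (· env)) b)]) fun k₄ h₄ b hb => ?_
    exact IsP.dec (hR k₄ (((h₁.trans h₂).trans h₃).trans h₄) xs ys hxs hys
      (fun x h => (hx x h).mono ((h₂.trans h₃).trans h₄)) (fun y h => (hy y h).mono h₄) z
      (hz.mono (h₃.trans h₄)) b hb)
  exact h1.append (IsP.cons false (h2.append (IsP.cons false h3)))

theorem isE_poly {k : ℕ} {f : (ℕ → ℕ) → ℕ} (hf : IsE k f) (p : Polynomial ℕ) :
    IsE k (fun env => p.eval (f env)) := by
  induction p using Polynomial.induction_on' with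
  | add p q hp hq => simpa only [Polynomial.eval_add] using hp.add hq
  | monomial n a => simpa only [Polynomial.eval_monomial] using (IsE.const a).mul (hf.pow n)

end Pool.Agent.TSP94
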