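import Pool.Agent.TSP94.TabS
import Pool.Agent.TSP94.CnfEmit

/-!
# The theorem of Cook and Levin, for machines in which every state works on one stack
-/

set_option autoImplicit false

namespace Pool.Agent.TSP94

open Pool.Agent.PTL

section

variable (M : SM) (q₀ : M.Q) (k₀ : M.K) (β : Bool → M.S) (acc : M.Q → Prop)

/-- The `κ`-th literal. -/
def lt3 (s : CF M.Q M.K M.S) (κ : Fin 3) : Lt M.Q M.K M.S :=
  match κ with
  | 0 => (lits M q₀ k₀ β s).1
  | 1 => (lits M q₀ k₀ β s).2.1
  | 2 => (lits M q₀ k₀ β s).2.2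

/-- Numbers of the kinds of variables. -/
noncomputable def eV (v : VF M.Q M.K M.S) : ℕ := Fintype.equivFin _ v

/-- Numbers of the kinds of clauses. -/
noncomputable def eC (s : CF M.Q M.K M.S) : ℕ := Fintype.equivFin _ s

theorem eV_inj {v v' : VF M.Q M.K M.S} (h : eV M v = eV M v') : v = v' :=
  (Fintype.equivFin _).injective (Fin.ext h)

theorem eC_inj {s s' : CF M.Q M.K M.S} (h : eC M s = eC M s') : s = s' :=
  (Fintype.equivFin _).injective (Fin.ext h)

/-- The test for the bits of the input. -/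
def bitT (w : List Bool) (L X₀ y : ℕ) (b : Bool) : Prop :=
  (b = true ↔ (∃ i < L, y + 2 * i = X₀) ∨ (∃ i < L, y + (2 * i + 1) = X₀ ∧ w.getD i false = true))

theorem bitT_iff (w : List Bool) {P y : ℕ} (h1 : P < y) (h2 : y ≤ P + 2 * w.length + 1)
    (b : Bool) : bitT w w.length (P + 2 * w.length + 1) y b ↔
      bitP w (P + 2 * w.length + 1) y b := by
  have key : ((∃ i < w.length, y + 2 * i = P + 2 * w.length + 1) ∨
      (∃ i < w.length, y + (2 * i + 1) = P + 2 * w.length + 1 ∧ w.getD i false = true)) ↔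
      (pair w []).getD (P + 2 * w.length + 1 - y) false = true := by
    constructor
    · rintro (⟨i, hi, h⟩ | ⟨i, hi, h, h'⟩)
      · rw [show P + 2 * w.length + 1 - y = 2 * i by omega]
        exact pair_even w [] hi
      · rw [show P + 2 * w.length + 1 - y = 2 * i + 1 by omega, pair_odd w [] hi]
        exact h'
    · intro h
      obtain ⟨j, hj⟩ : ∃ j, P + 2 * w.length + 1 - y = j := ⟨_, rfl⟩
      rw [hj] at h
      rcases Nat.even_or_odd' j with ⟨i, rfl | rfl⟩
      · by_cases hi : i < w.length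
        · exact Or.inl ⟨i, hi, by omega⟩
        · have : i = w.length := by omega
          rw [this] at h
          exact absurd h (pair_mid w [])
      · have hi : i < w.length := by omega
        rw [pair_odd w [] hi] at h
        exact Or.inr ⟨i, hi, by omega, h⟩
  unfold bitT bitP
  rw [key]
  cases b <;> simp

theorem valid_congr {P X₀ T : ℕ} {bit bit' : ℕ → Bool → Prop} {i x y : ℕ}
    (h : P < y → y ≤ X₀ → ∀ b, (bit y b ↔ bit' y b)) (s : CF M.Q M.K M.S) :
    valid M k₀ acc P X₀ T bit i x y s ↔ valid M k₀ acc P X₀ T bit' i x y s := by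
  cases s <;> simp only [valid]
  refine and_congr_right fun h1 => and_congr_right fun h2 => h h1 h2 _

theorem isT_valid {k : ℕ} {P X₀ T i x y : (ℕ → ℕ) → ℕ}
    {bit : List Bool → (ℕ → ℕ) → ℕ → Bool → Prop} (hP : IsE k P) (hX : IsE k X₀) (hT : IsE k T)
    (hi : IsE k i) (hx : IsE k x) (hy : IsE k y)
    (hbit : ∀ b, IsT k (fun w env => bit w env (y env) b)) (s : CF M.Q M.K M.S) :
    IsT k (fun w env => valid M k₀ acc (P env) (X₀ env) (T env) (bit w env) (i env) (x env)
      (y env) s) := by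
  cases s with
  | initCtl => exact IsT.const True
  | initBelow k' => exact (IsT.const (k' ≠ k₀)).and (IsT.le hy hX)
  | initAbove k' => exact IsT.lt hX hy
  | initIn b => exact (IsT.lt hP hy).and ((IsT.le hy hX).and (hbit b))
  | initBot => exact IsT.const True
  | choice => exact (IsT.lt (IsE.const 0) hy).and (IsT.le hy hP)
  | prop => exact (IsT.lt (IsE.const 0) hy).and (IsT.lt hy hP)
  | hdc k' o => exact IsT.lt (hx.add (IsE.const 1)) ((hX.add hT).add (IsE.const 2))
  | phc q o => exact IsT.const True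
  | nxt q o => exact IsT.lt hi hT
  | oth q k' a => exact (IsT.const (k' ≠ M.on q)).and (IsT.lt hi hT)
  | same q o a =>
    exact (IsT.lt hi hT).and (((IsT.const ((M.δ q o).2 = some none ∧ o ≠ none)).imp
      (IsT.ne hy hx)).and ((IsT.const (∃ c, (M.δ q o).2 = some (some c))).imp
      (IsT.ne hy (hx.add (IsE.const 1)))))
  | chg q o =>
    exact (IsT.lt hi hT).and (IsT.const (((M.δ q o).2 = some none ∧ o ≠ none) ∨
      (∃ c, (M.δ q o).2 = some (some c))))
  | fin q => exact IsT.const (¬ acc q)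

theorem isE_pi {k : ℕ} {T i : (ℕ → ℕ) → ℕ} (hT : IsE k T) (hi : IsE k i) (p : PI) :
    IsE k (fun env => p.ev (T env) (i env)) := by
  cases p with
  | z => exact IsE.const 0
  | i => exact hi
  | i1 => exact hi.add (IsE.const 1)
  | t => exact hT

theorem isE_py {k : ℕ} {x y : (ℕ → ℕ) → ℕ} (hx : IsE k x) (hy : IsE k y) (p : PY) :
    IsE k (fun env => p.ev (x env) (y env)) := by
  cases p with
  | z => exact IsE.const 0
  | x => exact hx
  | x1 => exact hx.add (IsE.const 1)
  | y => exact hy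
  | y1 => exact hy.add (IsE.const 1)

theorem pi_le {T i : ℕ} (hi : i ≤ T) (p : PI) : p.ev T i ≤ T + 1 := by
  cases p <;> simp only [PI.ev] <;> omega

theorem py_le {X x y : ℕ} (hx : x < X) (hy : y < X) (p : PY) : p.ev x y ≤ X := by
  cases p <;> simp only [PY.ev] <;> omega

/-- The clauses that are present, as codes. -/
def valC (w : List Bool) (L P X₀ T : ℕ) : List ℕ → Prop
  | [e, i, x, y] => ∃ s : CF M.Q M.K M.S, e = eC M s ∧
      valid M k₀ acc P X₀ T (bitT w L X₀) i x y s
  | _ => False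

/-- The literals, as codes. -/
def litC (T : ℕ) : List ℕ → ℕ → List ℕ → ℕ → Prop
  | [e, i, x, y], z, [e', i', y'], b => ∃ s : CF M.Q M.K M.S, e = eC M s ∧ ∃ κ : Fin 3,
      z = κ ∧ e' = eV M (lt3 M q₀ k₀ β s κ).v ∧ i' = (lt3 M q₀ k₀ β s κ).pi.ev T i ∧
      y' = (lt3 M q₀ k₀ β s κ).py.ev x y ∧ b = if (lt3 M q₀ k₀ β s κ).s then 0 else 1
  | _, _, _, _ => False

open Classical in
/-- The literals as a function. -/
noncomputable def litL (T : ℕ) (l : List ℕ) (κ : Fin 3) : List ℕ × Bool :=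
  match l with
  | [e, i, x, y] => if h : ∃ s : CF M.Q M.K M.S, e = eC M s then
      ([eV M (lt3 M q₀ k₀ β h.choose κ).v, (lt3 M q₀ k₀ β h.choose κ).pi.ev T i,
        (lt3 M q₀ k₀ β h.choose κ).py.ev x y], (lt3 M q₀ k₀ β h.choose κ).s)
      else ([], true)
  | _ => ([], true)

theorem litL_eq (T : ℕ) (s : CF M.Q M.K M.S) (i x y : ℕ) (κ : Fin 3) :
    litL M q₀ k₀ β T [eC M s, i, x, y] κ =
      ([eV M (lt3 M q₀ k₀ β s κ).v, (lt3 M q₀ k₀ β s κ).pi.ev T i,
        (lt3 M q₀ k₀ β s κ).py.ev x y], (lt3 M q₀ k₀ β s κ).s) := by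
  have h : ∃ s' : CF M.Q M.K M.S, eC M s = eC M s' := ⟨s, rfl⟩
  have h' : h.choose = s := (eC_inj M h.choose_spec).symm
  unfold litL
  simp only
  rw [dif_pos h, h']

open Classical in
/-- The formula. -/
noncomputable def cookW (w : List Bool) (L P X₀ T : ℕ) : List Bool :=
  cnfW (box [Fintype.card (VF M.Q M.K M.S), T + 2, X₀ + T + 3])
    ((box [Fintype.card (CF M.Q M.K M.S), T + 1, X₀ + T + 2, X₀ + T + 2]).filter
      fun l => decide (valC M k₀ acc w L P X₀ T l)) (litC M q₀ k₀ β T)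

theorem isP_cookW {k : ℕ} {L P X₀ T : (ℕ → ℕ) → ℕ} (hL : IsE k L) (hP : IsE k P)
    (hX : IsE k X₀) (hT : IsE k T) :
    IsP k (fun w env => cookW M q₀ k₀ β acc w (L env) (P env) (X₀ env) (T env)) := by
  refine IsP.cnf [fun _ => Fintype.card (VF M.Q M.K M.S), fun env => T env + 2,
    fun env => X₀ env + T env + 3] [fun _ => Fintype.card (CF M.Q M.K M.S),
    fun env => T env + 1, fun env => X₀ env + T env + 2, fun env => X₀ env + T env + 2] k ?_ ?_
    (φ := fun w env l => valC M k₀ acc w (L env) (P env) (X₀ env) (T env) l)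
    (R := fun w env => litC M q₀ k₀ β (T env)) ?_ ?_
  · intro b hb
    simp only [List.mem_cons, List.not_mem_nil, or_false] at hb
    rcases hb with rfl | rfl | rfl
    · exact IsE.const _
    · exact hT.add (IsE.const 2)
    · exact (hX.add hT).add (IsE.const 3)
  · intro b hb
    simp only [List.mem_cons, List.not_mem_nil, or_false] at hb
    rcases hb with rfl | rfl | rfl | rfl
    · exact IsE.const _
    · exact hT.add (IsE.const 1)
    · exact (hX.add hT).add (IsE.const 2)
    · exact (hX.add hT).add (IsE.const 2)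
  · intro k' hk ys hys hy
    match ys, hys with
    | [e, i, x, y], _ =>
      have he := hy e (by simp)
      have hi := hy i (by simp)
      have hx := hy x (by simp)
      have hyy := hy y (by simp)
      refine IsT.exists fun s => (IsT.eq he (IsE.const _)).and ?_
      refine isT_valid M k₀ acc (bit := fun w env => bitT w (L env) (X₀ env)) (hP.mono hk)
        (hX.mono hk) (hT.mono hk) hi hx hyy (fun b => ?_) s
      refine (IsT.const (b = true)).iff (IsT.or ?_ ?_)
      · exact IsT.ex (hL.mono hk) fun k'' hk' j hj =>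
          IsT.eq ((hyy.mono hk').add ((IsE.const 2).mul hj)) ((hX.mono hk).mono hk')
      · exact IsT.ex (hL.mono hk) fun k'' hk' j hj =>
          (IsT.eq ((hyy.mono hk').add (((IsE.const 2).mul hj).add (IsE.const 1)))
            ((hX.mono hk).mono hk')).and (IsT.bit hj)
  · intro k' hk xs ys hxs hys hx hy z hz b hb
    match xs, hxs, ys, hys with
    | [e, i, x, y], _, [e', i', y'], _ =>
      have he := hx e (by simp)
      have hi := hx i (by simp)
      have hxx := hx x (by simp)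
      have hxy := hx y (by simp)
      have he' := hy e' (by simp)
      have hi' := hy i' (by simp)
      have hy' := hy y' (by simp)
      refine IsT.exists fun s => (IsT.eq he (IsE.const _)).and (IsT.exists fun κ =>
        (IsT.eq hz (IsE.const _)).and ((IsT.eq he' (IsE.const _)).and
        ((IsT.eq hi' (isE_pi (hT.mono hk) hi _)).and ((IsT.eq hy' (isE_py hxx hxy _)).and
          (IsT.eq hb (IsE.const _))))))

theorem holds3 {τ : VF M.Q M.K M.S → ℕ → ℕ → Prop} {T i x y : ℕ} (s : CF M.Q M.K M.S) :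
    ((lits M q₀ k₀ β s).1.Holds τ T i x y ∨ (lits M q₀ k₀ β s).2.1.Holds τ T i x y ∨
        (lits M q₀ k₀ β s).2.2.Holds τ T i x y) ↔
      ∃ κ, (lt3 M q₀ k₀ β s κ).Holds τ T i x y := by
  constructor
  · rintro (h | h | h)
    · exact ⟨0, h⟩
    · exact ⟨1, h⟩
    · exact ⟨2, h⟩
  · rintro ⟨κ, h⟩
    fin_cases κ
    · exact Or.inl h
    · exact Or.inr (Or.inl h)
    · exact Or.inr (Or.inr h)

open Classical in
theorem cookW_spec (w : List Bool) (P T : ℕ) :
    ∃ (n m : ℕ) (φ : Fin m → Fin 3 → Fin n × Bool),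
      cookW M q₀ k₀ β acc w w.length P (P + 2 * w.length + 1) T = encodeCNF φ ∧
      ((∃ τ : Fin n → Bool, ∀ j, ∃ k, τ (φ j k).1 = (φ j k).2) ↔
        ∃ τ, Sat M q₀ k₀ β acc P (P + 2 * w.length + 1) T
          (bitP w (P + 2 * w.length + 1)) τ) := by
  set X₀ := P + 2 * w.length + 1 with hX₀
  set LV := box [Fintype.card (VF M.Q M.K M.S), T + 2, X₀ + T + 3] with hLV
  set LC := (box [Fintype.card (CF M.Q M.K M.S), T + 1, X₀ + T + 2, X₀ + T + 2]).filter
      (fun l => decide (valC M k₀ acc w w.length P X₀ T l)) with hLC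
  -- the clauses
  have hmem : ∀ j, j ∈ LC ↔ ∃ (s : CF M.Q M.K M.S) (i x y : ℕ), j = [eC M s, i, x, y] ∧ i ≤ T ∧
      x < X₀ + T + 2 ∧ y < X₀ + T + 2 ∧ valid M k₀ acc P X₀ T (bitP w X₀) i x y s := by
    intro j
    rw [hLC, List.mem_filter, mem_box, decide_eq_true_eq]
    constructor
    · rintro ⟨h1, h2⟩
      match j, h1 with
      | [e, i, x, y], ⟨g1, g2, g3, g4, _⟩ =>
        obtain ⟨s, rfl, hs⟩ := h2
        refine ⟨s, i, x, y, rfl, by omega, g3, g4, ?_⟩
        exact (valid_congr M k₀ acc (fun h3 h4 b => bitT_iff w h3 h4 b) s).1 hs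
    · rintro ⟨s, i, x, y, rfl, h1, h2, h3, h4⟩
      refine ⟨⟨(Fintype.equivFin _ s).2, by omega, h2, h3, trivial⟩, s, rfl, ?_⟩
      exact (valid_congr M k₀ acc (fun h3 h4 b => bitT_iff w h3 h4 b) s).2 h4
  have hvar : ∀ (v : VF M.Q M.K M.S) (i y : ℕ), i ≤ T + 1 → y ≤ X₀ + T + 2 →
      [eV M v, i, y] ∈ LV := by
    intro v i y hi hy
    rw [hLV, mem_box]
    exact ⟨(Fintype.equivFin _ v).2, by omega, by omega, trivial⟩
  have hL : ∀ j ∈ LC, ∀ κ, (litL M q₀ k₀ β T j κ).1 ∈ LV := by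
    intro j hj κ
    obtain ⟨s, i, x, y, rfl, h1, h2, h3, -⟩ := (hmem j).1 hj
    rw [litL_eq]
    exact hvar _ _ _ (pi_le h1 _) (py_le h2 h3 _)
  have hlit : ∀ j ∈ LC, ∀ (κ : Fin 3), ∀ v ∈ LV, ∀ b : ℕ, b < 2 →
      (litC M q₀ k₀ β T j κ v b ↔ v = (litL M q₀ k₀ β T j κ).1 ∧
        b = if (litL M q₀ k₀ β T j κ).2 then 0 else 1) := by
    intro j hj κ v hv b hb
    obtain ⟨s, i, x, y, rfl, h1, h2, h3, -⟩ := (hmem j).1 hj
    rw [litL_eq]
    rw [hLV, mem_box] at hv
    match v, hv with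
    | [e', i', y'], _ =>
      simp only [litC, List.cons.injEq, and_true]
      constructor
      · rintro ⟨s', hs', κ', hκ', h4, h5, h6, h7⟩
        obtain rfl := eC_inj M hs'
        obtain rfl := Fin.ext hκ'
        exact ⟨⟨h4, h5, h6⟩, h7⟩
      · rintro ⟨⟨h4, h5, h6⟩, h7⟩
        exact ⟨s, rfl, κ, rfl, h4, h5, h6, h7⟩
  have hV : LV.Nodup := nodup_box _
  refine ⟨LV.length, LC.length, cnfF (litL M q₀ k₀ β T) hL, ?_, ?_⟩
  · exact cnfW_eq (litL M q₀ k₀ β T) hL hV hlit
  · rw [cnfF_sat (litL M q₀ k₀ β T) hL hV]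
    constructor
    · rintro ⟨τ, h⟩
      refine ⟨fun v i y => τ [eV M v, i, y] = true, fun s i x y hi hx hy hs => ?_⟩
      rw [holds3]
      obtain ⟨κ, hκ⟩ := h [eC M s, i, x, y] ((hmem _).2 ⟨s, i, x, y, rfl, hi, hx, hy, hs⟩)
      rw [litL_eq] at hκ
      refine ⟨κ, ?_⟩
      unfold Lt.Holds
      simp only at hκ ⊢
      rw [hκ]
    · rintro ⟨τ, h⟩
      let τ' : List ℕ → Bool := fun l => match l with
        | [e, i, y] => decide (∃ v : VF M.Q M.K M.S, e = eV M v ∧ τ v i y)
        | _ => true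
      have hτ' : ∀ v i y, (τ' [eV M v, i, y] = true ↔ τ v i y) := by
        intro v i y
        simp only [τ', decide_eq_true_eq]
        constructor
        · rintro ⟨v', hv', h⟩
          rw [eV_inj M hv']
          exact h
        · exact fun h => ⟨v, rfl, h⟩
      refine ⟨τ', fun j hj => ?_⟩
      obtain ⟨s, i, x, y, rfl, h1, h2, h3, h4⟩ := (hmem j).1 hj
      obtain ⟨κ, hκ⟩ := (holds3 M q₀ k₀ β s).1 (h s i x y h1 h2 h3 h4)
      refine ⟨κ, ?_⟩
      rw [litL_eq]
      unfold Lt.Holds at hκ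
      rw [← hτ'] at hκ
      exact Bool.eq_iff_iff.2 hκ

end

/-- The theorem of Cook and Levin, for a machine that decides the verifier. -/
theorem cook_levin_of {L : Set (List Bool)} {M : SM} {q₀ : M.Q} {k₀ : M.K} {β : Bool → M.S}
    {acc : M.Q → Prop} {T p : Polynomial ℕ} {f : List Bool → List Bool}
    (hM : M.Decides q₀ k₀ β acc T f)
    (hf : ∀ w, w ∈ L ↔ ∃ c : List Bool, c.length ≤ p.eval w.length ∧ f (pair w c) = [true]) :
    ∃ g : List Bool → List Bool, PTC g ∧ ∀ w, ∃ (n m : ℕ) (φ : Fin m → Fin 3 → Fin n × Bool),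
      g w = encodeCNF φ ∧ (w ∈ L ↔ ∃ τ : Fin n → Bool, ∀ j, ∃ k, τ (φ j k).1 = (φ j k).2) := by
  have hP : ∀ (k : ℕ) (L : (ℕ → ℕ) → ℕ), IsE k L → IsP k (fun w env => cookW M q₀ k₀ β acc w
      (L env) (p.eval (L env)) (p.eval (L env) + 2 * L env + 1)
      (T.eval (2 * L env + 1 + p.eval (L env)))) := by
    intro k L hL
    have e1 : IsE k (fun env => p.eval (L env)) := isE_poly hL p
    have e2 : IsE k (fun env => p.eval (L env) + 2 * L env + 1) :=
      (e1.add ((IsE.const 2).mul hL)).add (IsE.const 1)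
    have e3 : IsE k (fun env => 2 * L env + 1 + p.eval (L env)) :=
      (((IsE.const 2).mul hL).add (IsE.const 1)).add e1
    have e4 : IsE k (fun env => T.eval (2 * L env + 1 + p.eval (L env))) := isE_poly e3 T
    exact isP_cookW M q₀ k₀ β acc (L := L) (P := fun env => p.eval (L env))
      (X₀ := fun env => p.eval (L env) + 2 * L env + 1)
      (T := fun env => T.eval (2 * L env + 1 + p.eval (L env))) hL e1 e2 e4
  refine ⟨_, PTC.of (F := fun w L => cookW M q₀ k₀ β acc w L (p.eval L) (p.eval L + 2 * L + 1)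
    (T.eval (2 * L + 1 + p.eval L))) hP, fun w => ?_⟩
  obtain ⟨n, m, φ, h1, h2⟩ := cookW_spec M q₀ k₀ β acc w (p.eval w.length)
    (T.eval (2 * w.length + 1 + p.eval w.length))
  refine ⟨n, m, φ, h1, ?_⟩
  rw [h2, sat_iff, hf]
  refine exists_congr fun c => and_congr_right fun hc => ?_
  refine (hM (pair w c) _ ?_).symm
  refine eval_mono T ?_
  rw [pair_length]
  omega

end Pool.Agent.TSP94
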