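import Pool.Agent.TSP94.Enc

/-!
# The core graphs are computed in polynomial time
-/

set_option autoImplicit false

namespace Pool.Agent.TSP94

open Pool.Agent.PTL
open Pool.Agent.TSpan33

/-- The bit of a truth value. -/
def bb (c : Bool) : ℕ := if c then 0 else 1

theorem bb_inj {c c' : Bool} : bb c = bb c' ↔ c = c' := by
  cases c <;> cases c' <;> simp [bb]

theorem bb_lt (c : Bool) : bb c < 2 := by
  cases c <;> simp [bb]

variable {n m : ℕ}

/-- The kind, the variable or clause, and the bit of a constraint. -/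
def tgA : JA n m → ℕ
  | .inl _ => 0
  | .inr _ => 1

/-- see `tgA` -/
def vvA : JA n m → ℕ
  | .inl j => j
  | .inr p => p.1

/-- see `tgA` -/
def bbA : JA n m → ℕ
  | .inl _ => 0
  | .inr p => bb p.2

/-- The kind, the variable or clause, and the bit of a constraint for odd `t`. -/
def tgB : JB n m → ℕ
  | .inl j => tgA j
  | .inr p => 2 + bb p.2

/-- see `tgB` -/
def vvB : JB n m → ℕ
  | .inl j => vvA j
  | .inr p => p.1.1

/-- see `tgB` -/
def bbB : JB n m → ℕ
  | .inl j => bbA j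
  | .inr p => bb p.1.2

theorem JA_ext (j j' : JA n m) : j = j' ↔ tgA j = tgA j' ∧ vvA j = vvA j' ∧ bbA j = bbA j' := by
  constructor
  · rintro rfl
    simp
  · rintro ⟨h1, h2, h3⟩
    rcases j with j | ⟨v, c⟩ <;> rcases j' with j' | ⟨v', c'⟩
    · simp only [vvA] at h2
      rw [Fin.ext h2]
    · simp [tgA] at h1
    · simp [tgA] at h1
    · simp only [vvA] at h2
      simp only [bbA, bb_inj] at h3
      rw [Fin.ext h2, h3]

theorem JB_ext (j j' : JB n m) : j = j' ↔ tgB j = tgB j' ∧ vvB j = vvB j' ∧ bbB j = bbB j' := by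
  constructor
  · rintro rfl
    simp
  · rintro ⟨h1, h2, h3⟩
    have hlt : ∀ j : JA n m, tgA j < 2 := by
      rintro (j | j) <;> simp [tgA]
    rcases j with j | ⟨⟨v, c⟩, d⟩ <;> rcases j' with j' | ⟨⟨v', c'⟩, d'⟩
    · rw [(JA_ext j j').2 ⟨h1, h2, h3⟩]
    · simp only [tgB] at h1
      have := hlt j
      omega
    · simp only [tgB] at h1
      have := hlt j'
      omega
    · simp only [tgB] at h1
      have h1' : bb d = bb d' := by omega
      rw [bb_inj] at h1'
      simp only [vvB] at h2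
      simp only [bbB, bb_inj] at h3
      rw [Fin.ext h2, h3, h1']

/-- The literal `(v', b')` is in the scope of the constraint `(τ, v, b)`. -/
def SC (n m : ℕ) (w : List Bool) (τ v b v' b' : ℕ) : Prop :=
  (τ = 0 ∧ ∃ k < 3, w.getD (n + 1 + (m + 1 + (((v * 3 + k) * n + v') * 2 + b'))) false = true) ∨
    (τ = 1 ∧ v' = v) ∨ (2 ≤ τ ∧ v' = v ∧ b' = b)

theorem mem_scA (φ : Fin m → Fin 3 → Fin n × Bool) (j : JA n m) (i : Fin n × Bool) :
    SC n m (encodeCNF φ) (tgA j) (vvA j) (bbA j) i.1 (bb i.2) ↔ i ∈ scA φ j := by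
  rcases j with j | ⟨v, c⟩
  · simp only [SC, tgA, vvA, scA, Finset.mem_insert, Finset.mem_singleton, true_and]
    constructor
    · rintro (⟨k, hk, h⟩ | ⟨h, _⟩ | ⟨h, _⟩)
      · have := (encodeCNF_bit φ j ⟨k, hk⟩ i).1 h
        interval_cases k
        · exact Or.inl this.symm
        · exact Or.inr (Or.inl this.symm)
        · exact Or.inr (Or.inr this.symm)
      · omega
      · omega
    · rintro (h | h | h)
      · exact Or.inl ⟨0, by norm_num, (encodeCNF_bit φ j 0 i).2 h.symm⟩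
      · exact Or.inl ⟨1, by norm_num, (encodeCNF_bit φ j 1 i).2 h.symm⟩
      · exact Or.inl ⟨2, by norm_num, (encodeCNF_bit φ j 2 i).2 h.symm⟩
  · obtain ⟨v', c'⟩ := i
    simp only [SC, tgA, vvA, scA, Finset.mem_insert, Finset.mem_singleton, one_ne_zero, false_and,
      false_or, true_and, Prod.mk.injEq, Nat.not_ofNat_le_one, or_false, Fin.val_inj]
    cases c' <;> simp

theorem mem_scB (φ : Fin m → Fin 3 → Fin n × Bool) (j : JB n m) (i : Fin n × Bool) :
    SC n m (encodeCNF φ) (tgB j) (vvB j) (bbB j) i.1 (bb i.2) ↔ i ∈ scB φ j := by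
  rcases j with j | ⟨⟨v, c⟩, d⟩
  · exact mem_scA φ j i
  · obtain ⟨v', c'⟩ := i
    simp only [SC, tgB, vvB, bbB, scB, Finset.mem_singleton, Prod.mk.injEq]
    have h0 : ¬ (2 + bb d = 0) := by omega
    have h1 : ¬ (2 + bb d = 1) := by omega
    have h2 : 2 ≤ 2 + bb d := by omega
    simp only [h0, h1, h2, false_and, false_or, true_and, Fin.val_inj, bb_inj]

/-- Root of the avoided value for even `t`. -/
def RTA (τ b k : ℕ) : Prop := (k = 1 ∧ τ = 1 ∧ b = 0) ∨ (k = 0 ∧ ¬ (τ = 1 ∧ b = 0))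

theorem rtA_iff (j : JA n m) (k : Fin 3) : RTA (tgA j) (bbA j) k ↔ k = rtA (colA j) := by
  rcases j with j | ⟨v, c⟩
  · simp only [RTA, tgA, colA, rtA, Fin.ext_iff]
    simp
  · cases c
    · simp only [RTA, tgA, bbA, bb, colA, rtA, Fin.ext_iff]
      simp
    · simp only [RTA, tgA, bbA, bb, colA, rtA, Fin.ext_iff]
      simp

/-- The avoided value plus one, for odd `t`. -/
def EB (τ b e : ℕ) : Prop :=
  (τ = 0 ∧ e = 2) ∨ (τ = 1 ∧ e = b + 1) ∨ (τ = 2 ∧ e = 3) ∨ (τ = 3 ∧ e = 4)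

/-- Root of the avoided value for odd `t`. -/
def RTB (c τ b k : ℕ) : Prop := ∃ e < 5, EB τ b e ∧ (k = c + e ∨ k + 5 = c + e)

theorem EB_iff (j : JB n m) (e : ℕ) : EB (tgB j) (bbB j) e ↔ e = (colB j : ℕ) + 1 := by
  rcases j with (j | ⟨v, c⟩) | ⟨p, d⟩
  · simp [EB, tgB, tgA, bbB, colB, colA]
  · cases c
    · simp [EB, tgB, tgA, bbB, bbA, colB, colA, bb]
    · simp [EB, tgB, tgA, bbB, bbA, colB, colA, bb]
  · cases d
    · simp [EB, tgB, colB, bb]
    · simp [EB, tgB, colB, bb]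

theorem rtB_iff (c : Fin 5) (j : JB n m) (k : Fin 5) :
    RTB c (tgB j) (bbB j) k ↔ k = rtB c (colB j) := by
  unfold RTB rtB
  simp only [EB_iff]
  generalize colB j = d
  have hd := d.2
  rw [Fin.ext_iff, Fin.val_add, Fin.val_succ]
  have hc := c.2
  have hk := k.2
  constructor
  · rintro ⟨e, he, rfl, h⟩
    omega
  · intro h
    exact ⟨_, by omega, rfl, by omega⟩

/-- The codes of the vertices for even `t`. -/
def codeA : VA (Fin n × Bool) (JA n m) → List ℕ
  | .x k => [0, k, 0, 0, 0]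
  | .w i => [1, 0, 0, i.1, bb i.2]
  | .a j => [2, 0, tgA j, vvA j, bbA j]
  | .b j => [3, 0, tgA j, vvA j, bbA j]
  | .g j => [4, 0, tgA j, vvA j, bbA j]

/-- The codes of the vertices for odd `t`. -/
def codeB : VB (Fin n × Bool) (JB n m) → List ℕ
  | .x k => [0, k, 0, 0, 0]
  | .w c i => [1, c, 0, i.1, bb i.2]
  | .a c j => [2, c, tgB j, vvB j, bbB j]
  | .b c j => [3, c, tgB j, vvB j, bbB j]
  | .g c j => [4, c, tgB j, vvB j, bbB j]

theorem lit_ext (i i' : Fin n × Bool) : i = i' ↔ (i.1 : ℕ) = i'.1 ∧ bb i.2 = bb i'.2 := by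
  rw [bb_inj, Fin.val_inj, Prod.ext_iff]

theorem codeA_inj : Function.Injective (codeA (n := n) (m := m)) := by
  intro u v h
  cases u <;> cases v <;> simp only [codeA, List.cons.injEq, and_true, true_and] at h <;>
    first
    | (exfalso; omega)
    | (rw [Fin.ext h])
    | (rw [(lit_ext _ _).2 h])
    | (rw [(JA_ext _ _).2 h])

theorem codeB_inj : Function.Injective (codeB (n := n) (m := m)) := by
  intro u v h
  cases u <;> cases v <;> simp only [codeB, List.cons.injEq, and_true, true_and] at h <;>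
    first
    | (exfalso; omega)
    | (rw [Fin.ext h])
    | (rw [Fin.ext h.1, (lit_ext _ _).2 h.2])
    | (rw [Fin.ext h.1, (JB_ext _ _).2 h.2])

/-- The codes that are used, for even `t`. -/
def valA (n m : ℕ) : List ℕ → Prop
  | [κ, c, τ, v, b] =>
    (κ = 0 ∧ c < 3 ∧ τ = 0 ∧ v = 0 ∧ b = 0) ∨ (κ = 1 ∧ c = 0 ∧ τ = 0 ∧ v < n) ∨
      (2 ≤ κ ∧ c = 0 ∧ ((τ = 0 ∧ v < m ∧ b = 0) ∨ (τ = 1 ∧ v < n)))
  | _ => False

/-- The codes that are used, for odd `t`. -/
def valB (n m : ℕ) : List ℕ → Prop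
  | [κ, _, τ, v, b] =>
    (κ = 0 ∧ τ = 0 ∧ v = 0 ∧ b = 0) ∨ (κ = 1 ∧ τ = 0 ∧ v < n) ∨
      (2 ≤ κ ∧ ((τ = 0 ∧ v < m ∧ b = 0) ∨ (1 ≤ τ ∧ v < n)))
  | _ => False

/-- The bounds of the codes. -/
def cbd (n m : ℕ) : List ℕ := [5, 5, 4, n + m + 1, 2]

theorem tgA_val (j : JA n m) : (tgA j = 0 ∧ vvA j < m ∧ bbA j = 0) ∨
    (tgA j = 1 ∧ vvA j < n) := by
  rcases j with j | ⟨v, c⟩
  · exact Or.inl ⟨rfl, j.2, rfl⟩
  · exact Or.inr ⟨rfl, v.2⟩

theorem bbA_lt (j : JA n m) : bbA j < 2 := by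
  rcases j with j | ⟨v, c⟩
  · exact Nat.zero_lt_two
  · exact bb_lt c

theorem tgB_val (j : JB n m) : (tgB j = 0 ∧ vvB j < m ∧ bbB j = 0) ∨
    (1 ≤ tgB j ∧ tgB j < 4 ∧ vvB j < n) := by
  rcases j with j | ⟨⟨v, c⟩, d⟩
  · rcases tgA_val j with h | h
    · exact Or.inl h
    · exact Or.inr ⟨h.1.ge, by have := h.1; simp only [tgB]; omega, h.2⟩
  · refine Or.inr ⟨?_, ?_, v.2⟩
    · simp only [tgB]
      omega
    · have := bb_lt d
      simp only [tgB]
      omega

theorem bbB_lt (j : JB n m) : bbB j < 2 := by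
  rcases j with j | ⟨⟨v, c⟩, d⟩
  · exact bbA_lt j
  · exact bb_lt c

theorem exists_bb {b : ℕ} (hb : b < 2) : ∃ c, bb c = b := by
  interval_cases b
  · exact ⟨true, rfl⟩
  · exact ⟨false, rfl⟩

theorem exists_JA {τ v b : ℕ} (hb : b < 2) (h : (τ = 0 ∧ v < m ∧ b = 0) ∨ (τ = 1 ∧ v < n)) :
    ∃ j : JA n m, tgA j = τ ∧ vvA j = v ∧ bbA j = b := by
  rcases h with ⟨rfl, hv, rfl⟩ | ⟨rfl, hv⟩
  · exact ⟨.inl ⟨v, hv⟩, rfl, rfl, rfl⟩
  · obtain ⟨c, rfl⟩ := exists_bb hb
    exact ⟨.inr (⟨v, hv⟩, c), rfl, rfl, rfl⟩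

theorem exists_JB {τ v b : ℕ} (hb : b < 2) (hτ : τ < 4)
    (h : (τ = 0 ∧ v < m ∧ b = 0) ∨ (1 ≤ τ ∧ v < n)) :
    ∃ j : JB n m, tgB j = τ ∧ vvB j = v ∧ bbB j = b := by
  by_cases h2 : τ < 2
  · obtain ⟨j, hj⟩ := exists_JA (n := n) (m := m) (τ := τ) (v := v) hb (by omega)
    exact ⟨.inl j, hj⟩
  · obtain ⟨c, rfl⟩ := exists_bb hb
    obtain ⟨d, hd⟩ := exists_bb (b := τ - 2) (by omega)
    refine ⟨.inr ((⟨v, by omega⟩, c), d), ?_, rfl, rfl⟩
    simp only [tgB]
    omega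

theorem codeA_mem (v : VA (Fin n × Bool) (JA n m)) :
    Below (cbd n m) (codeA v) ∧ valA n m (codeA v) := by
  cases v with
  | x k =>
    have := k.2
    simp only [cbd, codeA, Below, valA, and_true, true_and, true_or, and_self, false_and, false_or]
    omega
  | w i =>
    have := i.1.2
    have := bb_lt i.2
    simp only [cbd, codeA, Below, valA, and_true, true_and, true_or, and_self, false_and, false_or]
    omega
  | a j =>
    have := tgA_val j
    have := bbA_lt j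
    simp only [cbd, codeA, Below, valA, and_true, true_and, true_or, and_self, false_and, false_or]
    omega
  | b j =>
    have := tgA_val j
    have := bbA_lt j
    simp only [cbd, codeA, Below, valA, and_true, true_and, true_or, and_self, false_and, false_or]
    omega
  | g j =>
    have := tgA_val j
    have := bbA_lt j
    simp only [cbd, codeA, Below, valA, and_true, true_and, true_or, and_self, false_and, false_or]
    omega

theorem codeB_mem (v : VB (Fin n × Bool) (JB n m)) :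
    Below (cbd n m) (codeB v) ∧ valB n m (codeB v) := by
  cases v with
  | x k =>
    have := k.2
    simp only [cbd, codeB, Below, valB, and_true, true_and, true_or, and_self, false_and, false_or]
    omega
  | w c i =>
    have := c.2
    have := i.1.2
    have := bb_lt i.2
    simp only [cbd, codeB, Below, valB, and_true, true_and, true_or, and_self, false_and, false_or]
    omega
  | a c j =>
    have := c.2
    have := tgB_val j
    have := bbB_lt j
    simp only [cbd, codeB, Below, valB, and_true, true_and, true_or, and_self, false_and, false_or]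
    omega
  | b c j =>
    have := c.2
    have := tgB_val j
    have := bbB_lt j
    simp only [cbd, codeB, Below, valB, and_true, true_and, true_or, and_self, false_and, false_or]
    omega
  | g c j =>
    have := c.2
    have := tgB_val j
    have := bbB_lt j
    simp only [cbd, codeB, Below, valB, and_true, true_and, true_or, and_self, false_and, false_or]
    omega

theorem codeA_surj {l : List ℕ} (hl : Below (cbd n m) l) (hv : valA n m l) :
    ∃ v : VA (Fin n × Bool) (JA n m), codeA v = l := by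
  match l, hl with
  | [κ, c, τ, v, b], ⟨h1, h2, h3, h4, h5, _⟩ =>
    rcases hv with ⟨rfl, hc, rfl, rfl, rfl⟩ | ⟨rfl, rfl, rfl, hv⟩ | ⟨hκ, rfl, h⟩
    · exact ⟨.x ⟨c, hc⟩, rfl⟩
    · obtain ⟨c, rfl⟩ := exists_bb h5
      exact ⟨.w (⟨v, hv⟩, c), rfl⟩
    · obtain ⟨j, rfl, rfl, rfl⟩ := exists_JA h5 h
      interval_cases κ
      · exact ⟨.a j, rfl⟩
      · exact ⟨.b j, rfl⟩
      · exact ⟨.g j, rfl⟩

theorem codeB_surj {l : List ℕ} (hl : Below (cbd n m) l) (hv : valB n m l) :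
    ∃ v : VB (Fin n × Bool) (JB n m), codeB v = l := by
  match l, hl with
  | [κ, c, τ, v, b], ⟨h1, h2, h3, h4, h5, _⟩ =>
    rcases hv with ⟨rfl, rfl, rfl, rfl⟩ | ⟨rfl, rfl, hv⟩ | ⟨hκ, h⟩
    · exact ⟨.x ⟨c, h2⟩, rfl⟩
    · obtain ⟨d, rfl⟩ := exists_bb h5
      exact ⟨.w ⟨c, h2⟩ (⟨v, hv⟩, d), rfl⟩
    · obtain ⟨j, rfl, rfl, rfl⟩ := exists_JB h5 h3 h
      interval_cases κ
      · exact ⟨.a ⟨c, h2⟩ j, rfl⟩
      · exact ⟨.b ⟨c, h2⟩ j, rfl⟩
      · exact ⟨.g ⟨c, h2⟩ j, rfl⟩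

end Pool.Agent.TSP94
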