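import Pool.Agent.TSP94.CoreF

/-!
# The core graphs are computed in polynomial time, continued
-/

set_option autoImplicit false

namespace Pool.Agent.TSP94

open Pool.Agent.PTL
open Pool.Agent.TSpan33

variable {n m : ℕ}

/-- `bdA = r` on the codes. -/
def BDA (n m : ℕ) (w : List Bool) (r : ℕ) : List ℕ → List ℕ → Prop
  | [κ, c, τ, v, b], [κ', c', τ', v', b'] =>
    (r = 1 ∧ κ = 0 ∧ κ' = 0 ∧ c = 0 ∧ c' = 1) ∨
    (r = 2 ∧ κ = 1 ∧ κ' = 0 ∧ c' ≠ 2) ∨
    (r = 2 ∧ κ = 2 ∧ κ' = 0 ∧ c' ≠ 2 ∧ ¬ RTA τ b c') ∨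
    (r = 3 ∧ κ = 3 ∧ κ' = 2 ∧ τ = τ' ∧ v = v' ∧ b = b') ∨
    (r = 4 ∧ ((κ = 0 ∧ κ' = 0 ∧ c < c' ∧ ¬ (c = 0 ∧ c' = 1)) ∨
      (κ = 1 ∧ κ' = 0 ∧ c' = 2) ∨ (κ = 1 ∧ κ' = 1 ∧ ¬ (v = v' ∧ b = b')) ∨
      (κ = 2 ∧ κ' = 0 ∧ c' = 2) ∨ (2 ≤ κ ∧ κ' = 1 ∧ SC n m w τ v b v' b') ∨
      (κ = 4 ∧ κ' = 3 ∧ τ = τ' ∧ v = v' ∧ b = b')))
  | _, _ => False

/-- `bdB = r` on the codes. -/
def BDB (n m : ℕ) (w : List Bool) (r : ℕ) : List ℕ → List ℕ → Prop
  | [κ, c, τ, v, b], [κ', c', τ', v', b'] =>
    (r = 3 ∧ κ = 0 ∧ κ' = 0 ∧ c < c') ∨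
    (r = 3 ∧ κ = 1 ∧ κ' = 0 ∧ c' ≠ c) ∨
    (r = 3 ∧ κ = 2 ∧ κ' = 0 ∧ c' ≠ c ∧ ¬ RTB c τ b c') ∨
    (r = 4 ∧ κ = 3 ∧ κ' = 2 ∧ c = c' ∧ τ = τ' ∧ v = v' ∧ b = b') ∨
    (r = 5 ∧ ((κ = 1 ∧ κ' = 1 ∧ c = c' ∧ ¬ (v = v' ∧ b = b')) ∨
      (2 ≤ κ ∧ κ' = 1 ∧ c = c' ∧ SC n m w τ v b v' b') ∨
      (κ = 4 ∧ κ' = 3 ∧ c = c' ∧ τ = τ' ∧ v = v' ∧ b = b')))
  | _, _ => False

theorem bdA_iff (φ : Fin m → Fin 3 → Fin n × Bool) (u v : VA (Fin n × Bool) (JA n m)) {r : ℕ}
    (hr : 0 < r) :
    BDA n m (encodeCNF φ) r (codeA u) (codeA v) ↔ bdA colA (scA φ) u v = r := by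
  have h0 : ∀ r : ℕ, 0 < r → ((0 : ℕ) = r ↔ False) := fun r hr => by
    simp only [iff_false]
    omega
  cases u with
  | x k =>
    cases v with
    | x l =>
      simp only [codeA, BDA, bdA, Fin.ext_iff, Fin.lt_def]
      norm_num
      split_ifs <;> omega
    | w i => simp [codeA, BDA, bdA, h0 r hr]
    | a j => simp [codeA, BDA, bdA, h0 r hr]
    | b j => simp [codeA, BDA, bdA, h0 r hr]
    | g j => simp [codeA, BDA, bdA, h0 r hr]
  | w i =>
    cases v with
    | x l =>
      simp only [codeA, BDA, bdA, Fin.ext_iff, Fin.lt_def]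
      norm_num
      split_ifs <;> omega
    | w i' =>
      simp only [codeA, BDA, bdA, lit_ext]
      norm_num
      split_ifs with h
      · rw [h0 r hr]
        tauto
      · constructor
        · exact fun e => e.1.symm
        · exact fun e => ⟨e.symm, by tauto⟩
    | a j => simp [codeA, BDA, bdA, h0 r hr]
    | b j => simp [codeA, BDA, bdA, h0 r hr]
    | g j => simp [codeA, BDA, bdA, h0 r hr]
  | a j =>
    cases v with
    | x l =>
      have h1 := rtA_iff j l
      simp only [codeA, BDA, bdA, h1]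
      norm_num
      by_cases h2 : l = 2
      · have h2' : (l : ℕ) = 2 := by rw [h2]; rfl
        rw [if_pos h2]
        constructor
        · rintro (⟨_, h3, _⟩ | ⟨h3, _⟩)
          · exact absurd h2' h3
          · exact h3.symm
        · exact fun e => Or.inr ⟨e.symm, h2'⟩
      · have h2' : ¬ (l : ℕ) = 2 := fun e => h2 (Fin.ext e)
        simp only [h2, h2', if_false, and_false, or_false, not_false_eq_true, true_and]
        split_ifs with h3
        · rw [h0 r hr]
          tauto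
        · constructor
          · exact fun e => e.1.symm
          · exact fun e => ⟨e.symm, h3⟩
    | w i' =>
      have h1 := mem_scA φ j i'
      simp only [codeA, BDA, bdA, h1]
      norm_num
      split_ifs with h
      · constructor
        · exact fun e => e.1.symm
        · exact fun e => ⟨e.symm, h⟩
      · rw [h0 r hr]
        tauto
    | a j => simp [codeA, BDA, bdA, h0 r hr]
    | b j => simp [codeA, BDA, bdA, h0 r hr]
    | g j => simp [codeA, BDA, bdA, h0 r hr]
  | b j =>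
    cases v with
    | x l => simp [codeA, BDA, bdA, h0 r hr]
    | w i' =>
      have h1 := mem_scA φ j i'
      simp only [codeA, BDA, bdA, h1]
      norm_num
      split_ifs with h
      · constructor
        · exact fun e => e.1.symm
        · exact fun e => ⟨e.symm, h⟩
      · rw [h0 r hr]
        tauto
    | a j' =>
      simp only [codeA, BDA, bdA, JA_ext]
      norm_num
      split_ifs with h
      · constructor
        · exact fun e => e.1.symm
        · exact fun e => ⟨e.symm, h⟩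
      · rw [h0 r hr]
        tauto
    | b j => simp [codeA, BDA, bdA, h0 r hr]
    | g j => simp [codeA, BDA, bdA, h0 r hr]
  | g j =>
    cases v with
    | x l => simp [codeA, BDA, bdA, h0 r hr]
    | w i' =>
      have h1 := mem_scA φ j i'
      simp only [codeA, BDA, bdA, h1]
      norm_num
      split_ifs with h
      · constructor
        · exact fun e => e.1.symm
        · exact fun e => ⟨e.symm, h⟩
      · rw [h0 r hr]
        tauto
    | a j => simp [codeA, BDA, bdA, h0 r hr]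
    | b j' =>
      simp only [codeA, BDA, bdA, JA_ext]
      norm_num
      split_ifs with h
      · constructor
        · exact fun e => e.1.symm
        · exact fun e => ⟨e.symm, h⟩
      · rw [h0 r hr]
        tauto
    | g j => simp [codeA, BDA, bdA, h0 r hr]

theorem bdB_iff (φ : Fin m → Fin 3 → Fin n × Bool) (u v : VB (Fin n × Bool) (JB n m)) {r : ℕ}
    (hr : 0 < r) :
    BDB n m (encodeCNF φ) r (codeB u) (codeB v) ↔ bdB colB (scB φ) u v = r := by
  have h0 : ∀ r : ℕ, 0 < r → ((0 : ℕ) = r ↔ False) := fun r hr => by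
    simp only [iff_false]
    omega
  have key : ∀ (P : Prop) [Decidable P] (x : ℕ), (r = x ∧ P ↔ (if P then x else 0) = r) := by
    intro P _ x
    split_ifs with h
    · constructor
      · exact fun e => e.1.symm
      · exact fun e => ⟨e.symm, h⟩
    · rw [h0 r hr]
      tauto
  have key' : ∀ (P : Prop) [Decidable P] (x : ℕ), (r = x ∧ ¬ P ↔ (if P then 0 else x) = r) := by
    intro P _ x
    split_ifs with h
    · rw [h0 r hr]
      tauto
    · constructor
      · exact fun e => e.1.symm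
      · exact fun e => ⟨e.symm, h⟩
  cases u with
  | x k =>
    cases v with
    | x l =>
      simp only [codeB, BDB, bdB, Fin.lt_def]
      norm_num
      exact key _ _
    | w c i => simp [codeB, BDB, bdB, h0 r hr]
    | a c j => simp [codeB, BDB, bdB, h0 r hr]
    | b c j => simp [codeB, BDB, bdB, h0 r hr]
    | g c j => simp [codeB, BDB, bdB, h0 r hr]
  | w c i =>
    cases v with
    | x l =>
      simp only [codeB, BDB, bdB, Fin.ext_iff]
      norm_num
      exact key' _ _
    | w c' i' =>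
      simp only [codeB, BDB, bdB, Fin.ext_iff, ne_eq, lit_ext]
      norm_num
      exact (and_congr_right fun _ => and_congr_right fun _ => by tauto).trans (key _ _)
    | a c j => simp [codeB, BDB, bdB, h0 r hr]
    | b c j => simp [codeB, BDB, bdB, h0 r hr]
    | g c j => simp [codeB, BDB, bdB, h0 r hr]
  | a c j =>
    cases v with
    | x l =>
      have h1 := rtB_iff c j l
      have h2 : (l : ℕ) = c ↔ l = c := Fin.val_inj
      simp only [codeB, BDB, bdB, h1, ne_eq, h2]
      norm_num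
      exact (and_congr_right fun _ => by tauto).trans (key' (l = c ∨ l = rtB c (colB j)) 3)
    | w c' i' =>
      have h1 := mem_scB φ j i'
      simp only [codeB, BDB, bdB, h1, Fin.ext_iff]
      norm_num
      exact key _ _
    | a c j => simp [codeB, BDB, bdB, h0 r hr]
    | b c j => simp [codeB, BDB, bdB, h0 r hr]
    | g c j => simp [codeB, BDB, bdB, h0 r hr]
  | b c j =>
    cases v with
    | x l => simp [codeB, BDB, bdB, h0 r hr]
    | w c' i' =>
      have h1 := mem_scB φ j i'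
      simp only [codeB, BDB, bdB, h1, Fin.ext_iff]
      norm_num
      exact key _ _
    | a c' j' =>
      simp only [codeB, BDB, bdB, JB_ext, Fin.ext_iff]
      norm_num
      exact key _ _
    | b c j => simp [codeB, BDB, bdB, h0 r hr]
    | g c j => simp [codeB, BDB, bdB, h0 r hr]
  | g c j =>
    cases v with
    | x l => simp [codeB, BDB, bdB, h0 r hr]
    | w c' i' =>
      have h1 := mem_scB φ j i'
      simp only [codeB, BDB, bdB, h1, Fin.ext_iff]
      norm_num
      exact key _ _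
    | a c j => simp [codeB, BDB, bdB, h0 r hr]
    | b c' j' =>
      simp only [codeB, BDB, bdB, JB_ext, Fin.ext_iff]
      norm_num
      exact key _ _
    | g c j => simp [codeB, BDB, bdB, h0 r hr]

theorem bdA_lt (φ : Fin m → Fin 3 → Fin n × Bool) (u v : VA (Fin n × Bool) (JA n m)) :
    bdA colA (scA φ) u v < 6 := by
  cases u <;> cases v <;> simp only [bdA] <;> (try split_ifs) <;> norm_num

theorem bdB_lt (φ : Fin m → Fin 3 → Fin n × Bool) (u v : VB (Fin n × Bool) (JB n m)) :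
    bdB colB (scB φ) u v < 6 := by
  cases u <;> cases v <;> simp only [bdB] <;> (try split_ifs) <;> norm_num

/-- Different codes. -/
def NE : List ℕ → List ℕ → Prop
  | [κ, c, τ, v, b], [κ', c', τ', v', b'] => ¬ (κ = κ' ∧ c = c' ∧ τ = τ' ∧ v = v' ∧ b = b')
  | _, _ => False

/-- The relations of the core graph on the codes. -/
def RR (BD : ℕ → List ℕ → List ℕ → Prop) (t : ℕ) (p q : List ℕ) (s : ℕ) : Prop :=
  (s = 0 ∧ NE p q ∧ ∃ r < 6, 0 < r ∧ (BD r p q ∨ BD r q p)) ∨
    (0 < s ∧ ∃ r < 6, 0 < r ∧ BD r p q ∧ s + r ≤ t)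

theorem rel_ok {V : Type} [Fintype V] [DecidableEq V] (bd : V → V → ℕ) (code : V → List ℕ)
    (BD : ℕ → List ℕ → List ℕ → Prop)
    (hBD : ∀ u v r, 0 < r → (BD r (code u) (code v) ↔ bd u v = r)) (h6 : ∀ u v, bd u v < 6)
    (hne : ∀ u v, NE (code u) (code v) ↔ u ≠ v) (t : ℕ) (u v : V) (s : ℕ) :
    RR BD t (code u) (code v) s ↔ lgRel (LG.ofBounds t V bd) u v s := by
  show RR BD t (code u) (code v) s ↔ (s = 0 ∧ u ≠ v ∧ (bd u v ≠ 0 ∨ bd v u ≠ 0)) ∨
    (0 < s ∧ s ≤ if bd u v = 0 then 0 else t - bd u v)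
  unfold RR
  refine or_congr (and_congr_right fun _ => and_congr (hne u v) ?_) (and_congr_right fun hs => ?_)
  · constructor
    · rintro ⟨r, -, hr, h | h⟩
      · rw [hBD _ _ _ hr] at h
        exact Or.inl (by omega)
      · rw [hBD _ _ _ hr] at h
        exact Or.inr (by omega)
    · rintro (h | h)
      · exact ⟨_, h6 u v, Nat.pos_of_ne_zero h, Or.inl ((hBD _ _ _ (Nat.pos_of_ne_zero h)).2 rfl)⟩
      · exact ⟨_, h6 v u, Nat.pos_of_ne_zero h, Or.inr ((hBD _ _ _ (Nat.pos_of_ne_zero h)).2 rfl)⟩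
  · constructor
    · rintro ⟨r, -, hr, h, h'⟩
      rw [hBD _ _ _ hr] at h
      rw [if_neg (by omega)]
      omega
    · intro h
      split_ifs at h with h1
      · omega
      · exact ⟨_, h6 u v, Nat.pos_of_ne_zero h1, (hBD _ _ _ (Nat.pos_of_ne_zero h1)).2 rfl,
          by omega⟩

theorem neA (u v : VA (Fin n × Bool) (JA n m)) : NE (codeA u) (codeA v) ↔ u ≠ v := by
  rw [ne_eq, ← codeA_inj.eq_iff]
  cases u <;> cases v <;> simp [codeA, NE]

theorem neB (u v : VB (Fin n × Bool) (JB n m)) : NE (codeB u) (codeB v) ↔ u ≠ v := by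
  rw [ne_eq, ← codeB_inj.eq_iff]
  cases u <;> cases v <;> simp [codeB, NE]

end Pool.Agent.TSP94
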