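import Pool.Agent.TSP94.CoreG

/-!
# The core graphs are computed in polynomial time: the tests
-/

set_option autoImplicit false

namespace Pool.Agent.TSP94

open Pool.Agent.PTL
open Pool.Agent.TSpan33

section tests

variable {k : ℕ} {n m r κ c τ v b κ' c' τ' v' b' s : (ℕ → ℕ) → ℕ}

theorem isT_SC (hn : IsE k n) (hm : IsE k m) (hτ : IsE k τ) (hv : IsE k v) (hb : IsE k b)
    (hv' : IsE k v') (hb' : IsE k b') :
    IsT k (fun w env => SC (n env) (m env) w (τ env) (v env) (b env) (v' env) (b' env)) := by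
  refine ((IsT.eq hτ (IsE.const 0)).and ?_).or (((IsT.eq hτ (IsE.const 1)).and
    (IsT.eq hv' hv)).or ((IsT.le (IsE.const 2) hτ).and ((IsT.eq hv' hv).and (IsT.eq hb' hb))))
  refine IsT.ex (IsE.const 3) fun k' h y hy => IsT.bit ?_
  exact ((hn.mono h).add (IsE.const 1)).add (((hm.mono h).add (IsE.const 1)).add
    (((((((hv.mono h).mul (IsE.const 3)).add hy).mul (hn.mono h)).add (hv'.mono h)).mul
      (IsE.const 2)).add (hb'.mono h)))

theorem isT_RTA (hτ : IsE k τ) (hb : IsE k b) (hc : IsE k c) :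
    IsT k (fun _ env => RTA (τ env) (b env) (c env)) :=
  ((IsT.eq hc (IsE.const 1)).and ((IsT.eq hτ (IsE.const 1)).and (IsT.eq hb (IsE.const 0)))).or
    ((IsT.eq hc (IsE.const 0)).and ((IsT.eq hτ (IsE.const 1)).and (IsT.eq hb (IsE.const 0))).not)

theorem isT_RTB (hc : IsE k c) (hτ : IsE k τ) (hb : IsE k b) (hc' : IsE k c') :
    IsT k (fun _ env => RTB (c env) (τ env) (b env) (c' env)) := by
  refine IsT.ex (IsE.const 5) fun k' h e he => IsT.and ?_ ?_
  · exact ((IsT.eq (hτ.mono h) (IsE.const 0)).and (IsT.eq he (IsE.const 2))).or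
      (((IsT.eq (hτ.mono h) (IsE.const 1)).and (IsT.eq he ((hb.mono h).add (IsE.const 1)))).or
      (((IsT.eq (hτ.mono h) (IsE.const 2)).and (IsT.eq he (IsE.const 3))).or
      ((IsT.eq (hτ.mono h) (IsE.const 3)).and (IsT.eq he (IsE.const 4)))))
  · exact (IsT.eq (hc'.mono h) ((hc.mono h).add he)).or
      (IsT.eq ((hc'.mono h).add (IsE.const 5)) ((hc.mono h).add he))

theorem isT_BDA (hn : IsE k n) (hm : IsE k m) (hr : IsE k r) (hκ : IsE k κ) (hc : IsE k c)
    (hτ : IsE k τ) (hv : IsE k v) (hb : IsE k b) (hκ' : IsE k κ') (hc' : IsE k c')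
    (hτ' : IsE k τ') (hv' : IsE k v') (hb' : IsE k b') :
    IsT k (fun w env => BDA (n env) (m env) w (r env) [κ env, c env, τ env, v env, b env]
      [κ' env, c' env, τ' env, v' env, b' env]) := by
  have e : ∀ {f : (ℕ → ℕ) → ℕ} (hf : IsE k f) (x : ℕ), IsT k (fun _ env => f env = x) :=
    fun hf x => IsT.eq hf (IsE.const x)
  have hj : IsT k (fun _ env => τ env = τ' env ∧ v env = v' env ∧ b env = b' env) :=
    (IsT.eq hτ hτ').and ((IsT.eq hv hv').and (IsT.eq hb hb'))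
  refine ((e hr 1).and ((e hκ 0).and ((e hκ' 0).and ((e hc 0).and (e hc' 1))))).or
    (((e hr 2).and ((e hκ 1).and ((e hκ' 0).and (e hc' 2).not))).or
    (((e hr 2).and ((e hκ 2).and ((e hκ' 0).and ((e hc' 2).not.and (isT_RTA hτ hb hc').not)))).or
    (((e hr 3).and ((e hκ 3).and ((e hκ' 2).and hj))).or ((e hr 4).and ?_))))
  exact ((e hκ 0).and ((e hκ' 0).and ((IsT.lt hc hc').and ((e hc 0).and (e hc' 1)).not))).or
    (((e hκ 1).and ((e hκ' 0).and (e hc' 2))).or (((e hκ 1).and ((e hκ' 1).and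
      ((IsT.eq hv hv').and (IsT.eq hb hb')).not)).or
    (((e hκ 2).and ((e hκ' 0).and (e hc' 2))).or (((IsT.le (IsE.const 2) hκ).and ((e hκ' 1).and
      (isT_SC hn hm hτ hv hb hv' hb'))).or
    ((e hκ 4).and ((e hκ' 3).and hj))))))

theorem isT_BDB (hn : IsE k n) (hm : IsE k m) (hr : IsE k r) (hκ : IsE k κ) (hc : IsE k c)
    (hτ : IsE k τ) (hv : IsE k v) (hb : IsE k b) (hκ' : IsE k κ') (hc' : IsE k c')
    (hτ' : IsE k τ') (hv' : IsE k v') (hb' : IsE k b') :
    IsT k (fun w env => BDB (n env) (m env) w (r env) [κ env, c env, τ env, v env, b env]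
      [κ' env, c' env, τ' env, v' env, b' env]) := by
  have e : ∀ {f : (ℕ → ℕ) → ℕ} (hf : IsE k f) (x : ℕ), IsT k (fun _ env => f env = x) :=
    fun hf x => IsT.eq hf (IsE.const x)
  have hj : IsT k (fun _ env => c env = c' env ∧ τ env = τ' env ∧ v env = v' env ∧
      b env = b' env) :=
    (IsT.eq hc hc').and ((IsT.eq hτ hτ').and ((IsT.eq hv hv').and (IsT.eq hb hb')))
  refine ((e hr 3).and ((e hκ 0).and ((e hκ' 0).and (IsT.lt hc hc')))).or
    (((e hr 3).and ((e hκ 1).and ((e hκ' 0).and (IsT.eq hc' hc).not))).or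
    (((e hr 3).and ((e hκ 2).and ((e hκ' 0).and ((IsT.eq hc' hc).not.and
      (isT_RTB hc hτ hb hc').not)))).or
    (((e hr 4).and ((e hκ 3).and ((e hκ' 2).and hj))).or ((e hr 5).and ?_))))
  exact ((e hκ 1).and ((e hκ' 1).and ((IsT.eq hc hc').and
      ((IsT.eq hv hv').and (IsT.eq hb hb')).not))).or
    (((IsT.le (IsE.const 2) hκ).and ((e hκ' 1).and ((IsT.eq hc hc').and
      (isT_SC hn hm hτ hv hb hv' hb')))).or
    ((e hκ 4).and ((e hκ' 3).and hj)))

theorem isT_RR {BD : (ℕ → ℕ) → List Bool → ℕ → List ℕ → List ℕ → Prop}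
    (hBD : ∀ k', k ≤ k' → ∀ (r κ c τ v b κ' c' τ' v' b' : (ℕ → ℕ) → ℕ), IsE k' r → IsE k' κ →
      IsE k' c → IsE k' τ → IsE k' v → IsE k' b → IsE k' κ' → IsE k' c' → IsE k' τ' → IsE k' v' →
      IsE k' b' → IsT k' (fun w env => BD env w (r env) [κ env, c env, τ env, v env, b env]
      [κ' env, c' env, τ' env, v' env, b' env])) (t : ℕ)
    (hκ : IsE k κ) (hc : IsE k c)
    (hτ : IsE k τ) (hv : IsE k v) (hb : IsE k b) (hκ' : IsE k κ') (hc' : IsE k c')
    (hτ' : IsE k τ') (hv' : IsE k v') (hb' : IsE k b') (hs : IsE k s) :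
    IsT k (fun w env => RR (BD env w) t [κ env, c env, τ env, v env, b env]
      [κ' env, c' env, τ' env, v' env, b' env] (s env)) := by
  refine IsT.or ((IsT.eq hs (IsE.const 0)).and (IsT.and ?_ ?_)) ((IsT.lt (IsE.const 0) hs).and ?_)
  · exact ((IsT.eq hκ hκ').and ((IsT.eq hc hc').and ((IsT.eq hτ hτ').and ((IsT.eq hv hv').and
      (IsT.eq hb hb'))))).not
  · refine IsT.ex (IsE.const 6) fun k' h r hr => (IsT.lt (IsE.const 0) hr).and ?_
    exact (hBD k' h r κ c τ v b κ' c' τ' v' b' hr (hκ.mono h) (hc.mono h) (hτ.mono h) (hv.mono h)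
      (hb.mono h) (hκ'.mono h) (hc'.mono h) (hτ'.mono h) (hv'.mono h) (hb'.mono h)).or
      (hBD k' h r κ' c' τ' v' b' κ c τ v b hr (hκ'.mono h) (hc'.mono h) (hτ'.mono h) (hv'.mono h)
      (hb'.mono h) (hκ.mono h) (hc.mono h) (hτ.mono h) (hv.mono h) (hb.mono h))
  · refine IsT.ex (IsE.const 6) fun k' h r hr => (IsT.lt (IsE.const 0) hr).and (IsT.and ?_ ?_)
    · exact hBD k' h r κ c τ v b κ' c' τ' v' b' hr (hκ.mono h) (hc.mono h) (hτ.mono h) (hv.mono h)
        (hb.mono h) (hκ'.mono h) (hc'.mono h) (hτ'.mono h) (hv'.mono h) (hb'.mono h)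
    · exact IsT.le ((hs.mono h).add hr) (IsE.const t)

theorem isT_valA (hn : IsE k n) (hm : IsE k m) (hκ : IsE k κ) (hc : IsE k c)
    (hτ : IsE k τ) (hv : IsE k v) (hb : IsE k b) :
    IsT k (fun _ env => valA (n env) (m env) [κ env, c env, τ env, v env, b env]) := by
  have e : ∀ {f : (ℕ → ℕ) → ℕ} (hf : IsE k f) (x : ℕ), IsT k (fun _ env => f env = x) :=
    fun hf x => IsT.eq hf (IsE.const x)
  exact ((e hκ 0).and ((IsT.lt hc (IsE.const 3)).and ((e hτ 0).and ((e hv 0).and (e hb 0))))).or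
    (((e hκ 1).and ((e hc 0).and ((e hτ 0).and (IsT.lt hv hn)))).or
    ((IsT.le (IsE.const 2) hκ).and ((e hc 0).and (((e hτ 0).and ((IsT.lt hv hm).and (e hb 0))).or
      ((e hτ 1).and (IsT.lt hv hn))))))

theorem isT_valB (hn : IsE k n) (hm : IsE k m) (hκ : IsE k κ)
    (hτ : IsE k τ) (hv : IsE k v) (hb : IsE k b) :
    IsT k (fun _ env => valB (n env) (m env) [κ env, c env, τ env, v env, b env]) := by
  have e : ∀ {f : (ℕ → ℕ) → ℕ} (hf : IsE k f) (x : ℕ), IsT k (fun _ env => f env = x) :=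
    fun hf x => IsT.eq hf (IsE.const x)
  exact ((e hκ 0).and ((e hτ 0).and ((e hv 0).and (e hb 0)))).or
    (((e hκ 1).and ((e hτ 0).and (IsT.lt hv hn))).or
    ((IsT.le (IsE.const 2) hκ).and (((e hτ 0).and ((IsT.lt hv hm).and (e hb 0))).or
      ((IsT.le (IsE.const 1) hτ).and (IsT.lt hv hn)))))

end tests

/-- A general core. -/
theorem exists_core (t : ℕ) (val : ℕ → ℕ → List ℕ → Prop)
    (BD : ℕ → ℕ → List Bool → ℕ → List ℕ → List ℕ → Prop)
    (hval : ∀ k (n m κ c τ v b : (ℕ → ℕ) → ℕ), IsE k n → IsE k m → IsE k κ → IsE k c →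
      IsE k τ → IsE k v → IsE k b →
      IsT k (fun _ env => val (n env) (m env) [κ env, c env, τ env, v env, b env]))
    (hBD : ∀ k (n m r κ c τ v b κ' c' τ' v' b' : (ℕ → ℕ) → ℕ), IsE k n → IsE k m → IsE k r →
      IsE k κ → IsE k c → IsE k τ → IsE k v → IsE k b → IsE k κ' → IsE k c' → IsE k τ' →
      IsE k v' → IsE k b' → IsT k (fun w env => BD (n env) (m env) w (r env)
        [κ env, c env, τ env, v env, b env] [κ' env, c' env, τ' env, v' env, b' env]))
    (A : ∀ {n m : ℕ}, (Fin m → Fin 3 → Fin n × Bool) → LG)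
    (code : ∀ {n m : ℕ} (φ : Fin m → Fin 3 → Fin n × Bool), (A φ).V → List ℕ)
    (hinj : ∀ {n m : ℕ} (φ : Fin m → Fin 3 → Fin n × Bool), Function.Injective (code φ))
    (hmem : ∀ {n m : ℕ} (φ : Fin m → Fin 3 → Fin n × Bool) (u : (A φ).V),
      Below (cbd n m) (code φ u) ∧ val n m (code φ u))
    (hsurj : ∀ {n m : ℕ} (φ : Fin m → Fin 3 → Fin n × Bool) (l : List ℕ), Below (cbd n m) l →
      val n m l → ∃ u, code φ u = l)
    (hR : ∀ {n m : ℕ} (φ : Fin m → Fin 3 → Fin n × Bool) (u v : (A φ).V) (s : ℕ),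
      RR (BD n m (encodeCNF φ)) t (code φ u) (code φ v) s ↔ lgRel (A φ) u v s) :
    ∃ f, PTC f ∧ ∀ (n m : ℕ) (φ : Fin m → Fin 3 → Fin n × Bool),
      Rep t (f (encodeCNF φ)) (A φ) := by
  classical
  obtain ⟨f, hf, h⟩ := PTC.ofUnary (F := fun w n m => enc t
    ((box (cbd n m)).filter fun l => decide (val n m l)) (RR (BD n m w) t)) fun k n m hn hm => by
      refine IsP.enc t [fun _ => 5, fun _ => 5, fun _ => 4, fun env => n env + m env + 1,
        fun _ => 2] k ?_ (φ := fun w env l => val (n env) (m env) l)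
        (R := fun w env => RR (BD (n env) (m env) w) t) ?_ ?_
      · intro b hb
        simp only [List.mem_cons, List.not_mem_nil, or_false] at hb
        rcases hb with rfl | rfl | rfl | rfl | rfl
        · exact IsE.const 5
        · exact IsE.const 5
        · exact IsE.const 4
        · exact (hn.add hm).add (IsE.const 1)
        · exact IsE.const 2
      · intro k' hk ys hys hy
        match ys, hys with
        | [y1, y2, y3, y4, y5], _ =>
          exact hval k' n m y1 y2 y3 y4 y5 (hn.mono hk) (hm.mono hk) (hy _ (by simp))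
            (hy _ (by simp)) (hy _ (by simp)) (hy _ (by simp)) (hy _ (by simp))
      · intro k' hk xs ys hxs hys hx hy z hz
        match xs, hxs, ys, hys with
        | [x1, x2, x3, x4, x5], _, [y1, y2, y3, y4, y5], _ =>
          exact isT_RR (BD := fun env w => BD (n env) (m env) w)
            (fun k'' hk' r κ c τ v b κ' c' τ' v' b' => hBD k'' n m r κ c τ v b κ' c' τ' v' b'
              (hn.mono (hk.trans hk')) (hm.mono (hk.trans hk'))) t
            (hx _ (by simp)) (hx _ (by simp)) (hx _ (by simp)) (hx _ (by simp)) (hx _ (by simp))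
            (hy _ (by simp)) (hy _ (by simp)) (hy _ (by simp)) (hy _ (by simp)) (hy _ (by simp)) hz
  refine ⟨f, hf, fun n m φ => ?_⟩
  obtain ⟨r, hr⟩ := encodeCNF_eq φ
  rw [h n m r _ hr]
  refine rep_of_code (code φ) (hinj φ) ((nodup_box _).filter _) (fun v => ?_) (fun l hl => ?_)
    (fun u v s _ => hR φ u v s)
  · rw [List.mem_filter]
    exact ⟨mem_box.2 (hmem φ v).1, decide_eq_true (hmem φ v).2⟩
  · rw [List.mem_filter] at hl
    exact hsurj φ l (mem_box.1 hl.1) (of_decide_eq_true hl.2)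

theorem exists_coreA (t : ℕ) : ∃ f, PTC f ∧ ∀ (n m : ℕ) (φ : Fin m → Fin 3 → Fin n × Bool),
    Rep t (f (encodeCNF φ)) (coreA t colA (scA φ)) :=
  exists_core t valA BDA
    (fun _ _ _ _ _ _ _ _ hn hm h1 h2 h3 h4 h5 => isT_valA hn hm h1 h2 h3 h4 h5)
    (fun _ _ _ _ _ _ _ _ _ _ _ _ _ _ hn hm hr h1 h2 h3 h4 h5 h1' h2' h3' h4' h5' =>
      isT_BDA hn hm hr h1 h2 h3 h4 h5 h1' h2' h3' h4' h5')
    (fun {n m} φ => coreA t colA (scA φ)) (fun {n m} φ => codeA (n := n) (m := m))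
    (fun {n m} φ => codeA_inj) (fun {n m} φ u => codeA_mem u)
    (fun {n m} φ l hl hv => codeA_surj hl hv)
    (fun {n m} φ u v s => rel_ok (bdA colA (scA φ)) codeA (BDA n m (encodeCNF φ))
      (fun u v _ hr => bdA_iff φ u v hr) (bdA_lt φ) neA t u v s)

theorem exists_coreB (t : ℕ) : ∃ f, PTC f ∧ ∀ (n m : ℕ) (φ : Fin m → Fin 3 → Fin n × Bool),
    Rep t (f (encodeCNF φ)) (coreB t colB (scB φ)) :=
  exists_core t valB BDB
    (fun _ _ _ _ _ _ _ _ hn hm h1 _ h3 h4 h5 => isT_valB hn hm h1 h3 h4 h5)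
    (fun _ _ _ _ _ _ _ _ _ _ _ _ _ _ hn hm hr h1 h2 h3 h4 h5 h1' h2' h3' h4' h5' =>
      isT_BDB hn hm hr h1 h2 h3 h4 h5 h1' h2' h3' h4' h5')
    (fun {n m} φ => coreB t colB (scB φ)) (fun {n m} φ => codeB (n := n) (m := m))
    (fun {n m} φ => codeB_inj) (fun {n m} φ u => codeB_mem u)
    (fun {n m} φ l hl hv => codeB_surj hl hv)
    (fun {n m} φ u v s => rel_ok (bdB colB (scB φ)) codeB (BDB n m (encodeCNF φ))
      (fun u v _ hr => bdB_iff φ u v hr) (bdB_lt φ) neB t u v s)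

end Pool.Agent.TSP94
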