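import Pool.Agent.TSP94.Langs

/-!
# The language of the chordal graphs of diameter at most `D` with a tree 3-spanner is in P
-/

set_option autoImplicit false

namespace Pool.Agent.TSP94

open SimpleGraph
open Pool.Agent.PTL Pool.Agent.TSpan94
open Pool.Agent.TSpan33 (IsChordal IsTreeSpanner)

theorem mk_zero (ψ : ℕ → ℕ → ℕ → ℕ → ℕ → ℕ → Prop) : mk 0 ψ = [] := by
  rw [← List.length_eq_zero_iff, mk_length, len_eq]
  norm_num

open Classical in
/-- The algorithm with a test before and a test at the end. -/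
theorem exists_alg2 {pre fin : ℕ → List Bool → Prop}
    (hpre : ∀ k (N : (ℕ → ℕ) → ℕ), IsE k N → IsT k (fun w env => pre (N env) w))
    (hfin : ∀ k (N : (ℕ → ℕ) → ℕ), IsE k N → IsT k (fun w env => fin (N env) w)) :
    ∃ f, PTC f ∧ (∀ (N : ℕ) (w : List Bool), w.length = N + 1 + N * N → pre N w →
    ∃ (n m : ℕ) (x y : ℕ → List Bool), x 0 = mk N (init N w) ∧
      (∀ i, x (i + 1) = mk N (step1 N (x i))) ∧ x (n + 1) = x n ∧ y 0 = x n ∧
      (∀ i, y (i + 1) = mk N (step2 N (y i))) ∧ y (m + 1) = y m ∧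
      (f w = [true] ↔ fin N (y m))) ∧
    ∀ w, (∀ N, w.length = N + 1 + N * N → ¬ pre N w) → f w = [true] → fin 0 [] := by
  obtain ⟨f₀, h₀, h₀', h₀''⟩ := PTC.ofLen (len := fun N => N + 1 + N * N)
    (fun k N hN => (hN.add (IsE.const 1)).add (hN.mul hN))
    (fun a b h => by
      show a + 1 + a * a < b + 1 + b * b
      have := Nat.mul_lt_mul'' h h
      omega) (F := fun w N => if pre N w then mk N (init N w) else [])
    fun k N hN => IsP.ite (hpre k N hN) (isP_mk hN isT_init) IsP.nil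
  obtain ⟨H₁, h₁, h₁'⟩ := exists_fix (ψ := step1)
    (fun k N r a b c d e hN hr ha hb hc hd he => isT_step1 hN hr ha hb hc hd he)
    (fun _ _ _ _ _ _ _ _ h => Or.inl h)
  obtain ⟨H₂, h₂, h₂'⟩ := exists_fix (ψ := step2)
    (fun k N r a b c d e hN hr ha hb hc hd he => isT_step2 hN hr ha hb hc hd he)
    (fun _ _ _ _ _ _ _ _ h => Or.inl h)
  obtain ⟨f₃, h₃, h₃', -⟩ := PTC.ofLen isE_len6 len_mono
    (F := fun w N => [decide (fin N w)]) fun k N hN => IsP.dec (hfin k N hN)
  refine ⟨_, h₃.comp (h₂.comp (h₁.comp h₀)), fun N w hw hp => ?_, fun w hw => ?_⟩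
  · obtain ⟨n, x, hx0, hx1, hx2, hx3⟩ := h₁' N (init N w)
    have hform : ∃ ψ, x n = mk N ψ := by
      cases n with
      | zero => exact ⟨_, hx0⟩
      | succ i => exact ⟨_, hx1 i⟩
    obtain ⟨ψ, hψ⟩ := hform
    obtain ⟨m, y, hy0, hy1, hy2, hy3⟩ := h₂' N ψ
    refine ⟨n, m, x, y, hx0, hx1, hx3, hy0.trans hψ.symm, hy1, hy3, ?_⟩
    have hlen : (y m).length = len N := by
      cases m with
      | zero => rw [hy0, mk_length]
      | succ i => rw [hy1, mk_length]
    rw [h₀' w N hw, if_pos hp, hx2, hψ, hy2, h₃' (y m) N hlen]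
    simp
  · have hnil : ∀ {H : List Bool → List Bool} {ψ : ℕ → List Bool → ℕ → ℕ → ℕ → ℕ → ℕ → ℕ → Prop},
        (∀ N ψ₀, ∃ (n : ℕ) (x : ℕ → List Bool), x 0 = mk N ψ₀ ∧
          (∀ i, x (i + 1) = mk N (ψ N (x i))) ∧ H (mk N ψ₀) = x n ∧ x (n + 1) = x n) →
        H [] = [] := by
      intro H ψ hH
      obtain ⟨n, x, hx0, hx1, hx2, -⟩ := hH 0 fun _ _ _ _ _ _ => True
      rw [mk_zero] at hx2 hx0
      rw [hx2]
      cases n with
      | zero => exact hx0
      | succ i => rw [hx1, mk_zero]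
    have h0 : f₀ w = [] := by
      by_cases hN : ∃ N, w.length = N + 1 + N * N
      · obtain ⟨N, hN⟩ := hN
        rw [h₀' w N hN, if_neg (hw N hN)]
      · push Not at hN
        exact h₀'' w hN
    rw [h0, hnil h₁', hnil h₂', h₃' [] 0 (by rw [len_eq]; norm_num)]
    simp

/-- The final test. -/
def finT (D : ℕ∞) (N : ℕ) (w : List Bool) : Prop :=
  (0 < N ∧ ∀ v < N, (∀ a < N, ¬ rL N w v a) → ∀ u < N, u = v ∨ rB N w u v) ∧
    (∀ v < N, rB N w v v) ∧ diamT D N (rA N w) ∧ accept N w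

theorem isT_finT (D : ℕ∞) {k : ℕ} {N : (ℕ → ℕ) → ℕ} (hN : IsE k N) :
    IsT k (fun w env => finT D (N env) w) := by
  refine IsT.and ((IsT.lt (IsE.const 0) hN).and (IsT.all hN fun k₁ h₁ v hv => ?_))
    (IsT.and (IsT.all hN fun k₁ h₁ v hv => isT_rB (hN.mono h₁) hv hv) (IsT.and ?_
      (isT_accept hN)))
  · exact (IsT.all (hN.mono h₁) fun k₂ h₂ a ha => (isT_rL (hN.mono (h₁.trans h₂))
      (hv.mono h₂) ha).not).imp (IsT.all (hN.mono h₁) fun k₂ h₂ u hu =>
        (IsT.eq hu (hv.mono h₂)).or (isT_rB (hN.mono (h₁.trans h₂)) hu (hv.mono h₂)))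
  · exact isT_diamT (A := fun env w => rA (N env) w) hN
      (fun k' hk a b ha hb => isT_rA (hN.mono hk) ha hb) D

theorem rB_step2 {N : ℕ} {w : List Bool} (a b : Fin N) :
    rB N (mk N (step2 N w)) a b ↔ rB N w a b := by
  rw [rB, lk_mk0 (by norm_num), rB]
  simp [step2]

theorem three_inP (D : ℕ∞) : InP (TreeSpannerLang 3 D) := by
  obtain ⟨f, hf, h1, h2⟩ := exists_alg2
    (pre := fun N w => IsCode N (fun i => w.getD i false = true)) (fin := finT D)
    (fun k N hN => isT_isCode (B := fun _ w i => w.getD i false = true) hN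
      fun k' _ a ha => IsT.bit ha) (fun k N hN => isT_finT D hN)
  refine ⟨f, hf.polyTime, fun w => ?_⟩
  -- the case of a code
  have main : ∀ (N : ℕ) (G : SimpleGraph (Fin N)), (f (encodeGraph G) = [true] ↔
      G.Connected ∧ IsChordal G ∧ (∀ u v, (G.dist u v : ℕ∞) ≤ D) ∧
        ∃ T, IsTreeSpanner 3 G T) := by
    intro N G
    obtain ⟨n, m, x, y, hx0, hxs, hxn, hy0, hys, hym, hacc⟩ :=
      h1 N (encodeGraph G) (encodeGraph_length G) (isCode_encodeGraph G)
    obtain ⟨s, π, hinv⟩ := exists_inv1 hx0 hxs n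
    have hB : ∀ i (a b : Fin N), rB N (y i) a b ↔ rB N (x n) a b := by
      intro i a b
      induction i with
      | zero => rw [hy0]
      | succ i ih => rw [hys, rB_step2, ih]
    have hA : ∀ i (a b : Fin N), rA N (y i) a b ↔ G.Adj a b := by
      intro i a b
      induction i with
      | zero => rw [hy0, hinv.adj]
      | succ i ih =>
        rw [← ih, hys, rA, lk_mk0 (by norm_num), rA]
        simp [step2]
    rw [hacc]
    have hinv2 : (∀ v : Fin N, rB N (x n) v v) → Inv2 G π (y m) := by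
      intro hall
      have hgood := hinv.good hall
      have : ∀ i, Inv2 G π (y i) := by
        intro i
        induction i with
        | zero => exact hy0 ▸ hgood.inv2
        | succ i ih =>
          rw [hys]
          exact ih.next
      exact this m
    have key : (∀ v : Fin N, rB N (x n) v v) → G.Connected →
        (accept N (y m) ↔ ∃ T, IsTreeSpanner 3 G T) := by
      intro hall hconn
      rw [(hinv2 hall).accept_iff (by rw [← hys, hym]), exists_iff hconn (hinv2 hall).peo]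
    constructor
    · rintro ⟨⟨hN, h3⟩, h4, h5, h6⟩
      have hall : ∀ v : Fin N, rB N (x n) v v := fun v => (hB m v v).1 (h4 v v.2)
      have hi := hinv2 hall
      have : Nonempty (Fin N) := ⟨⟨0, hN⟩⟩
      have hconn : G.Connected := by
        refine connected_of_last hi.peo.1 fun r hr w => ?_
        have := h3 r r.2 (fun a ha hl => hr ⟨a, ha⟩ ((hi.rL_iff r ⟨a, ha⟩).1 hl)) w w.2
        by_cases hwr : w = r
        · rw [hwr]
        · rcases this with h | h
          · exact absurd (Fin.ext h) hwr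
          · exact ((hi.lt w r hwr).1 h).le
      exact ⟨hconn, isChordal_of_peo hi.peo, (diamT_iff (hA m) hconn D).1 h5, (key hall hconn).1 h6⟩
    · rintro ⟨h3, h4, h5, h6⟩
      have hall := all_elim h4 hinv (by rw [← hxs, hxn])
      have hi := hinv2 hall
      obtain ⟨v₀⟩ := h3.nonempty
      refine ⟨⟨v₀.pos, fun v hv hl u hu => ?_⟩, fun v hv => (hB m ⟨v, hv⟩ ⟨v, hv⟩).2
        (hall ⟨v, hv⟩), (diamT_iff (hA m) h3 D).2 h5, (key hall h3).2 h6⟩
      have hle := last_of_peo hi.peo h3 (r := ⟨v, hv⟩)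
        (fun a ha => hl a a.2 ((hi.rL_iff ⟨v, hv⟩ a).2 ha)) ⟨u, hu⟩
      by_cases huv : u = v
      · exact Or.inl huv
      · refine Or.inr ((hi.lt ⟨u, hu⟩ ⟨v, hv⟩ fun e => huv (Fin.mk.inj e)).2
          (lt_of_le_of_ne hle fun e => huv (Fin.mk.inj (hi.peo.1 e))))
  constructor
  · rintro ⟨N, G, rfl, h⟩
    exact (main N G).2 h
  · intro h
    by_cases hN : ∃ N, w.length = N + 1 + N * N ∧ IsCode N (fun i => w.getD i false = true)
    · obtain ⟨N, hl, hcode⟩ := hN
      obtain ⟨G, rfl⟩ := exists_graph hl hcode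
      exact ⟨N, G, rfl, (main N G).1 h⟩
    · push Not at hN
      exact absurd (h2 w hN h).1.1 (lt_irrefl 0)

end Pool.Agent.TSP94
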