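import Pool.Agent.PTL.Box
import Pool.Agent.TSP94.Defs
import Pool.Agent.TSpan33.Main

/-!
# Codes of levelled graphs
-/

set_option autoImplicit false

namespace Pool.Agent.TSP94

open Pool.Agent.PTL
open Pool.Agent.TSpan33 (LG)

/-- The relations that are written down: `s = 0` adjacency, `0 < s`: the level is at least `s`. -/
def lgRel (A : LG) (u v : A.V) (s : ℕ) : Prop :=
  (s = 0 ∧ A.G.Adj u v) ∨ (0 < s ∧ s ≤ A.lev u v)

/-- `w` is the code of the levelled graph `A` (for some order of its vertices). -/
def Rep (t : ℕ) (w : List Bool) (A : LG) : Prop :=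
  ∃ L : List A.V, L.Nodup ∧ (∀ v, v ∈ L) ∧ w = enc t L (lgRel A)

theorem encodeGraph_eq {N : ℕ} (G : SimpleGraph (Fin N)) :
    encodeGraph G = enc 1 (List.finRange N) fun i j _ => G.Adj i j := by
  classical
  have h : (List.finRange N).map (fun _ => true) = List.replicate N true := by simp
  unfold encodeGraph enc
  rw [h]
  congr 2
  apply List.flatMap_congr
  intro i _
  rw [List.map_eq_flatMap]
  apply List.flatMap_congr
  intro j _
  simp

/-- Codes of the vertices. -/
theorem rep_of_code {t : ℕ} {A : LG} (code : A.V → List ℕ) (hinj : Function.Injective code)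
    {B : List (List ℕ)} (hB : B.Nodup) (h1 : ∀ v, code v ∈ B) (h2 : ∀ l ∈ B, ∃ v, code v = l)
    {R : List ℕ → List ℕ → ℕ → Prop}
    (hR : ∀ u v s, s < t → (R (code u) (code v) s ↔ lgRel A u v s)) : Rep t (enc t B R) A := by
  obtain ⟨L, rfl⟩ : ∃ L : List A.V, L.map code = B := by
    have : B ∈ Set.range (List.map code) := by
      rw [Set.range_list_map]
      exact h2
    exact this
  refine ⟨L, List.Nodup.of_map _ hB, fun v => ?_, ?_⟩
  · obtain ⟨v', hv', e⟩ := List.mem_map.1 (h1 v)
    rwa [← hinj e]
  · rw [enc_map]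
    exact enc_congr fun u _ v _ s hs => hR u v s hs

/-- The bits of the code of a formula. -/
theorem encodeCNF_bit {n m : ℕ} (φ : Fin m → Fin 3 → Fin n × Bool) (j : Fin m) (k : Fin 3)
    (i : Fin n × Bool) :
    (encodeCNF φ).getD (n + 1 + (m + 1 + ((((j : ℕ) * 3 + k) * n + i.1) * 2 +
      (if i.2 then 0 else 1)))) false = true ↔ φ j k = i := by
  classical
  obtain ⟨v, c⟩ := i
  set b : ℕ := if c then 0 else 1 with hb
  have hb2 : b < 2 := by
    rw [hb]
    split_ifs <;> omega
  have h1 : (v : ℕ) * 2 + b < n * 2 := by omega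
  have h2 : (k : ℕ) * (n * 2) + (v * 2 + b) < 3 * (n * 2) := by
    have := Nat.mul_le_mul_right (n * 2) (show (k : ℕ) + 1 ≤ 3 from k.2)
    rw [add_mul, one_mul] at this
    omega
  unfold encodeCNF
  rw [List.getD_append_right _ _ _ _ (by simp; omega), List.length_replicate,
    show n + 1 + (m + 1 + ((((j : ℕ) * 3 + k) * n + v) * 2 + b)) - n =
      (m + 1 + ((((j : ℕ) * 3 + k) * n + v) * 2 + b)) + 1 by omega, List.getD_cons_succ,
    List.getD_append_right _ _ _ _ (by simp; omega), List.length_replicate,
    show m + 1 + ((((j : ℕ) * 3 + k) * n + v) * 2 + b) - m =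
      ((((j : ℕ) * 3 + k) * n + v) * 2 + b) + 1 by omega, List.getD_cons_succ,
    show (((j : ℕ) * 3 + k) * n + v) * 2 + b =
      j * (3 * (n * 2)) + (k * (n * 2) + (v * 2 + b)) by ring,
    list_flatMap_getD (3 * (n * 2)) _ (fun v => by
      simp only [List.length_flatMap, List.length_map, List.length_cons, List.length_nil,
        List.map_const', List.length_finRange, List.sum_replicate, smul_eq_mul])
      (List.finRange m) j _ (by simp) h2,
    list_flatMap_getD (n * 2) _ (fun v => by simp [List.length_flatMap])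
      (List.finRange 3) k _ (by simp) h1,
    list_flatMap_getD 2 _ (fun v => by simp) (List.finRange n) v _ (by simp) hb2]
  cases c
  · simp [hb]
    exact Iff.rfl
  · simp [hb]
    exact Iff.rfl

theorem encodeCNF_eq {n m : ℕ} (φ : Fin m → Fin 3 → Fin n × Bool) :
    ∃ r, encodeCNF φ = List.replicate n true ++ false :: (List.replicate m true ++ false :: r) :=
  ⟨_, rfl⟩

end Pool.Agent.TSP94
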