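import Pool.Agent.TSP94.Prog
import Pool.Agent.TSP94.Enc
import Pool.Agent.TSpan94.Horn

/-!
# The first phase computes a perfect elimination order
-/

set_option autoImplicit false

namespace Pool.Agent.TSP94

open Pool.Agent.PTL Pool.Agent.TSpan94
open Pool.Agent.TSpan33 (IsChordal IsTreeSpanner)

variable {N : ℕ} {G : SimpleGraph (Fin N)}

theorem encodeGraph_length (G : SimpleGraph (Fin N)) :
    (encodeGraph G).length = N + 1 + N * N := by
  rw [encodeGraph_eq, enc_length]
  simp

theorem encodeGraph_bit (G : SimpleGraph (Fin N)) (a b : Fin N) :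
    (encodeGraph G).getD (N + 1 + ((a : ℕ) * N + b)) false = true ↔ G.Adj a b := by
  rw [encodeGraph_eq]
  have := enc_getD 1 (List.finRange N) (fun i j _ => G.Adj i j) (a := a) (b := b) (s := 0)
    (by simp) (by simp) (by norm_num)
  simpa using this

/-- The state of the first phase. -/
structure Inv1 (G : SimpleGraph (Fin N)) (w : List Bool) (s : ℕ) (π : Fin N → ℕ) : Prop where
  le : ∀ v, π v ≤ s
  inj : ∀ u v, u ≠ v → π u = π v → π u = s
  self : ∀ v : Fin N, rB N w v v ↔ π v < s
  lt : ∀ u v : Fin N, u ≠ v → (rB N w u v ↔ π u < π v)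
  adj : ∀ u v : Fin N, rA N w u v ↔ G.Adj u v
  clique : ∀ j a b, π j < s → Later G π j a → Later G π j b → a ≠ b → G.Adj a b
  imp : ∀ j x y a b : Fin N, ¬ lk N w 2 j x y a b
  bad : ∀ j c : Fin N, ¬ rD N w j c

theorem lk_mk' {ψ : ℕ → ℕ → ℕ → ℕ → ℕ → ℕ → Prop} {r : ℕ} (hr : r < 4) (a b c d e : Fin N) :
    lk N (mk N ψ) r a b c d e ↔ ψ r a b c d e :=
  lk_mk hr a.2 b.2 c.2 d.2 e.2

theorem lk_mk0 {ψ : ℕ → ℕ → ℕ → ℕ → ℕ → ℕ → Prop} {r : ℕ} (hr : r < 4) (a b : Fin N) :
    lk N (mk N ψ) r a b 0 0 0 ↔ ψ r a b 0 0 0 :=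
  lk_mk hr a.2 b.2 a.pos a.pos a.pos

theorem inv1_zero (G : SimpleGraph (Fin N)) :
    Inv1 G (mk N (init N (encodeGraph G))) 0 fun _ => 0 where
  le _ := le_rfl
  inj _ _ _ _ := rfl
  self v := by
    rw [rB, lk_mk0 (by norm_num)]
    simp [init]
  lt u v _ := by
    rw [rB, lk_mk0 (by norm_num)]
    simp [init]
  adj u v := by
    rw [rA, lk_mk0 (by norm_num)]
    simp only [init, true_and]
    exact encodeGraph_bit G u v
  clique _ _ _ h := absurd h (lt_irrefl _)
  imp j x y a b := by
    rw [lk_mk' (by norm_num)]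
    simp [init]
  bad j c := by
    rw [rD, lk_mk0 (by norm_num)]
    simp [init]

theorem pick_unique {w : List Bool} {u v : ℕ} (hu : rPick N w u) (hv : rPick N w v) : u = v := by
  rcases lt_trichotomy u v with h | h | h
  · exact absurd hu.1 (hv.2 u h)
  · exact h
  · exact absurd hv.1 (hu.2 v h)

theorem inv1_step {w : List Bool} {s : ℕ} {π : Fin N → ℕ} (h : Inv1 G w s π) :
    ∃ s' π', Inv1 G (mk N (step1 N w)) s' π' := by
  classical
  have h0 : ∀ {r : ℕ}, r < 4 → r ≠ 1 → ∀ a b c d e : Fin N,
      (lk N (mk N (step1 N w)) r a b c d e ↔ lk N w r a b c d e) := by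
    intro r hr hr1 a b c d e
    rw [lk_mk' hr]
    simp [step1, hr1]
  have hA : ∀ u v : Fin N, rA N (mk N (step1 N w)) u v ↔ G.Adj u v := by
    intro u v
    rw [← h.adj, rA, rA, lk_mk0 (by norm_num)]
    simp [step1]
  have hI : ∀ j x y a b : Fin N, ¬ lk N (mk N (step1 N w)) 2 j x y a b := by
    intro j x y a b
    rw [lk_mk' (by norm_num)]
    simpa [step1] using h.imp j x y a b
  have hD : ∀ j c : Fin N, ¬ rD N (mk N (step1 N w)) j c := by
    intro j c
    rw [rD, lk_mk0 (by norm_num)]
    simpa [step1, rD] using h.bad j c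
  have hB : ∀ a b : Fin N, rB N (mk N (step1 N w)) a b ↔
      rB N w a b ∨ (rPick N w a ∧ (b = a ∨ ¬ rB N w b b)) := by
    intro a b
    rw [rB, lk_mk0 (by norm_num), rB, rB]
    simp only [step1, true_and, Fin.ext_iff, rB]
  by_cases hp : ∃ v0 : Fin N, rPick N w v0
  · obtain ⟨v0, hv0⟩ := hp
    have hpick : ∀ a : Fin N, rPick N w a ↔ a = v0 := fun a =>
      ⟨fun ha => Fin.ext (pick_unique ha hv0), fun ha => ha ▸ hv0⟩
    have hs0 : π v0 = s := by
      have h1 := hv0.1.1
      rw [h.self] at h1
      have := h.le v0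
      omega
    refine ⟨s + 1, fun v => if v = v0 then s else if π v = s then s + 1 else π v, ?_⟩
    have hlater : ∀ j a, π j < s →
        (Later G (fun v => if v = v0 then s else if π v = s then s + 1 else π v) j a ↔
          Later G π j a) := by
      intro j a hj
      have hjv : j ≠ v0 := by
        rintro rfl
        omega
      simp only [Later, if_neg hjv, if_neg hj.ne]
      have := h.le a
      by_cases ha : a = v0
      · subst ha
        simp [hs0, hj]
      · rw [if_neg ha]
        split_ifs with h1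
        · rw [h1]
          constructor
          · rintro ⟨h2, _⟩
            exact ⟨h2, hj⟩
          · rintro ⟨h2, _⟩
            exact ⟨h2, by omega⟩
        · exact Iff.rfl
    refine ⟨?_, ?_, ?_, ?_, hA, ?_, hI, hD⟩
    · intro v
      have := h.le v
      beta_reduce
      split_ifs <;> omega
    · intro u v huv
      have h1 := h.le u
      have h2 := h.le v
      have h3 := h.inj u v huv
      beta_reduce
      by_cases hu : u = v0 <;> by_cases hv : v = v0
      · exact absurd (hu.trans hv.symm) huv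
      · rw [if_pos hu, if_neg hv]
        split_ifs <;> omega
      · rw [if_neg hu, if_pos hv]
        split_ifs <;> omega
      · rw [if_neg hu, if_neg hv]
        split_ifs <;> omega
    · intro v
      rw [hB, hpick, h.self]
      have := h.le v
      beta_reduce
      by_cases hv : v = v0
      · subst hv
        simp
      · rw [if_neg hv]
        split_ifs with h1
        · simp [hv, h1]
        · simp only [hv, false_and, or_false]
          omega
    · intro u v huv
      rw [hB, hpick, h.lt u v huv, h.self]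
      have h1 := h.le u
      have h2 := h.le v
      beta_reduce
      by_cases hu : u = v0
      · have hv : v ≠ v0 := fun e => huv (hu.trans e.symm)
        subst hu
        rw [if_pos rfl, if_neg hv]
        simp only [hv, false_or, true_and]
        split_ifs <;> omega
      · by_cases hv : v = v0
        · subst hv
          rw [if_neg hu, if_pos rfl]
          simp only [hu, false_and, or_false]
          split_ifs <;> omega
        · rw [if_neg hu, if_neg hv]
          simp only [hu, false_and, or_false]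
          have h3 := h.inj u v huv
          split_ifs <;> omega
    · intro j a b hj ha hb hab
      beta_reduce at hj
      by_cases hjv : j = v0
      · subst hjv
        have hsim := hv0.1.2
        have key : ∀ a, Later G (fun v => if v = j then s else if π v = s then s + 1 else π v) j a →
            G.Adj j a ∧ ¬ rB N w a a := by
          intro a ha
          have haj : a ≠ j := ha.1.ne'
          refine ⟨ha.1, ?_⟩
          have h1 := ha.2
          simp only [if_true, if_neg haj] at h1
          rw [h.self]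
          have := h.le a
          split_ifs at h1 <;> omega
        obtain ⟨h1, h2⟩ := key a ha
        obtain ⟨h3, h4⟩ := key b hb
        rw [← h.adj]
        exact hsim a a.2 b b.2 h2 h4 ((h.adj _ _).2 h1) ((h.adj _ _).2 h3)
          (fun e => hab (Fin.ext e))
      · rw [if_neg hjv] at hj
        have hj' : π j < s := by
          have := h.le j
          split_ifs at hj <;> omega
        exact h.clique j a b hj' ((hlater j a hj').1 ha) ((hlater j b hj').1 hb) hab
  · refine ⟨s, π, h.le, h.inj, ?_, ?_, hA, h.clique, hI, hD⟩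
    · intro v
      rw [hB, ← h.self]
      have : ¬ rPick N w v := fun e => hp ⟨v, e⟩
      simp [this]
    · intro u v huv
      rw [hB, ← h.lt u v huv]
      have : ¬ rPick N w u := fun e => hp ⟨u, e⟩
      simp [this]

/-- The outcome of the first phase. -/
structure Good (G : SimpleGraph (Fin N)) (w : List Bool) (π : Fin N → ℕ) : Prop where
  peo : IsPEO G π
  lt : ∀ u v : Fin N, u ≠ v → (rB N w u v ↔ π u < π v)
  adj : ∀ u v : Fin N, rA N w u v ↔ G.Adj u v
  imp : ∀ j x y a b : Fin N, ¬ lk N w 2 j x y a b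
  bad : ∀ j c : Fin N, ¬ rD N w j c

theorem Inv1.good {w : List Bool} {s : ℕ} {π : Fin N → ℕ} (h : Inv1 G w s π)
    (hall : ∀ v : Fin N, rB N w v v) : Good G w π := by
  have hlt : ∀ v, π v < s := fun v => (h.self v).1 (hall v)
  refine ⟨⟨?_, fun j a b => h.clique j a b (hlt j)⟩, h.lt, h.adj, h.imp, h.bad⟩
  intro u v huv
  by_contra hne
  have := h.inj u v hne huv
  have := hlt u
  omega

theorem exists_inv1 {x : ℕ → List Bool} (h0 : x 0 = mk N (init N (encodeGraph G)))
    (hs : ∀ i, x (i + 1) = mk N (step1 N (x i))) : ∀ i, ∃ s π, Inv1 G (x i) s π := by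
  intro i
  induction i with
  | zero => exact ⟨0, _, h0 ▸ inv1_zero G⟩
  | succ i ih =>
    obtain ⟨s, π, h⟩ := ih
    rw [hs]
    exact inv1_step h

theorem all_elim (hc : IsChordal G) {w : List Bool} {s : ℕ} {π : Fin N → ℕ} (h : Inv1 G w s π)
    (hn : mk N (step1 N w) = w) : ∀ v : Fin N, rB N w v v := by
  classical
  by_contra hne
  push Not at hne
  obtain ⟨v, hv⟩ := hne
  obtain ⟨z, hz, hz'⟩ := exists_simp hc _
    (Finset.univ.filter fun v : Fin N => ¬ rB N w v v) le_rfl ⟨v, by simp [hv]⟩
  have hz0 : rCand N w z := by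
    refine ⟨by simpa using hz, ?_⟩
    intro a ha b hb h1 h2 h3 h4 hab
    have := hz' ⟨a, ha⟩ (by simpa using h1) ⟨b, hb⟩ (by simpa using h2)
      ((h.adj z ⟨a, ha⟩).1 h3) ((h.adj z ⟨b, hb⟩).1 h4) (fun e => hab (Fin.mk.inj e))
    exact (h.adj ⟨a, ha⟩ ⟨b, hb⟩).2 this
  have hcand : ∃ u, rCand N w u := ⟨z, hz0⟩
  have hlt : Nat.find hcand < N := lt_of_le_of_lt (Nat.find_min' hcand hz0) z.2
  have hpick : rPick N w (Nat.find hcand) :=
    ⟨Nat.find_spec hcand, fun u hu => Nat.find_min hcand hu⟩
  refine hpick.1.1 ?_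
  generalize Nat.find hcand = u at hlt hpick
  rw [← hn, rB]
  exact (lk_mk0 (N := N) (ψ := step1 N w) (r := 1) (by norm_num) ⟨u, hlt⟩ ⟨u, hlt⟩).2
    (Or.inr ⟨rfl, hpick, Or.inl rfl⟩)

theorem exists_good (hc : IsChordal G) {n : ℕ} {x : ℕ → List Bool}
    (h0 : x 0 = mk N (init N (encodeGraph G))) (hs : ∀ i, x (i + 1) = mk N (step1 N (x i)))
    (hn : x (n + 1) = x n) : ∃ π, Good G (x n) π := by
  obtain ⟨s, π, h⟩ := exists_inv1 h0 hs n
  exact ⟨π, h.good (all_elim hc h (by rw [← hs, hn]))⟩

end Pool.Agent.TSP94
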