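import Pool.Agent.TSP94.SM

/-!
# From Turing machines in the sense of Mathlib to machines in which every state works on one stack
-/

set_option autoImplicit false

namespace Pool.Agent.TSP94

namespace FromTM

open Turing

section gen

/-- A machine with stacks, without finiteness assumptions. -/
structure SM0 (Q K S : Type) where
  /-- the stack of a state -/
  on : Q → K
  /-- the next state and the action -/
  δ : Q → Option S → Q × Option (Option S)

variable {Q K S : Type} [DecidableEq K]

/-- One step. -/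
def SM0.step (M : SM0 Q K S) (c : Q × (K → List S)) : Q × (K → List S) :=
  ((M.δ c.1 (c.2 (M.on c.1)).head?).1, Function.update c.2 (M.on c.1)
    (SM.act (M.δ c.1 (c.2 (M.on c.1)).head?).2 (c.2 (M.on c.1))))

open Classical in
/-- The projection to a nonempty subset. -/
noncomputable def proj {A : Type} (A' : Set A) (a₀ : A') (a : A) : A' :=
  if h : a ∈ A' then ⟨a, h⟩ else a₀

lemma proj_val {A : Type} {A' : Set A} {a₀ : A'} {a : A} (h : a ∈ A') :
    (proj A' a₀ a).1 = a := by
  unfold proj
  rw [dif_pos h]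

/-- The restriction to subsets of the states and the symbols. -/
noncomputable def rest0 (M : SM0 Q K S) (Q' : Set Q) (q₀ : Q') (S' : Set S) (s₀ : S') :
    SM0 Q' K S' where
  on q := M.on q.1
  δ q s := (proj Q' q₀ (M.δ q.1 (s.map Subtype.val)).1,
    (M.δ q.1 (s.map Subtype.val)).2.map (Option.map (proj S' s₀)))

/-- The restriction to finitely many states and symbols. -/
noncomputable def restr (M : SM0 Q K S) [Fintype K] (Q' : Set Q) (hQ : Q'.Finite) (q₀ : Q')
    (S' : Set S) (hS : S'.Finite) (s₀ : S') : SM where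
  Q := Q'
  K := K
  S := S'
  fQ := hQ.fintype
  fS := hS.fintype
  dQ := Classical.decEq _
  dS := Classical.decEq _
  on := (rest0 M Q' q₀ S' s₀).on
  δ := (rest0 M Q' q₀ S' s₀).δ

lemma restr_eq (M : SM0 Q K S) [Fintype K] (Q' : Set Q) (hQ : Q'.Finite) (q₀ : Q')
    (S' : Set S) (hS : S'.Finite) (s₀ : S') :
    (restr M Q' hQ q₀ S' hS s₀).step = (rest0 M Q' q₀ S' s₀).step := rfl

/-- The states and the symbols are closed. -/
def Closed (M : SM0 Q K S) (Q' : Set Q) (S' : Set S) : Prop :=
  ∀ q ∈ Q', ∀ s : Option S, (∀ x ∈ s, x ∈ S') →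
    (M.δ q s).1 ∈ Q' ∧ ∀ x, (M.δ q s).2 = some (some x) → x ∈ S'

lemma act_map {S : Type} {S' : Set S} {s₀ : S'} (a : Option (Option S)) (l : List S')
    (h : ∀ x, a = some (some x) → x ∈ S') :
    (SM.act (a.map (Option.map (proj S' s₀))) l).map Subtype.val
      = SM.act a (l.map Subtype.val) := by
  rcases a with _ | _ | x
  · rfl
  · simp [SM.act]
  · simp only [Option.map_some, SM.act, List.map_cons]
    rw [proj_val (h x rfl)]

lemma rest0_step (M : SM0 Q K S) {Q' : Set Q} {q₀ : Q'} {S' : Set S} {s₀ : S'}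
    (hc : Closed M Q' S') (c : Q' × (K → List S')) :
    ((((rest0 M Q' q₀ S' s₀).step c).1.1,
      fun k => ((((rest0 M Q' q₀ S' s₀).step c).2 k).map Subtype.val)) : Q × (K → List S))
      = M.step (c.1.1, fun k => (c.2 k).map Subtype.val) := by
  obtain ⟨q, st⟩ := c
  have hx : ∀ x ∈ ((st (M.on q.1)).head?.map (Subtype.val : S' → S)), x ∈ S' := by
    intro x hx
    rw [Option.mem_def, Option.map_eq_some_iff] at hx
    obtain ⟨y, _, rfl⟩ := hx
    exact y.2
  obtain ⟨h1, h2⟩ := hc q.1 q.2 _ hx
  have h3 : ((st (M.on q.1)).map (Subtype.val : S' → S)).head?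
      = (st (M.on q.1)).head?.map (Subtype.val : S' → S) := List.head?_map
  simp only [SM0.step, rest0]
  refine Prod.ext ?_ ?_
  · simp only
    rw [proj_val h1, h3]
  · funext k
    simp only
    by_cases hk : k = M.on q.1
    · subst hk
      rw [Function.update_self, Function.update_self, act_map _ _ h2, h3]
    · rw [Function.update_of_ne hk, Function.update_of_ne hk]

lemma rest0_iter (M : SM0 Q K S) {Q' : Set Q} {q₀ : Q'} {S' : Set S} {s₀ : S'}
    (hc : Closed M Q' S') (c : Q' × (K → List S')) (n : ℕ) :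
    (((rest0 M Q' q₀ S' s₀).step^[n] c).1.1 : Q)
      = (M.step^[n] (c.1.1, fun k => (c.2 k).map Subtype.val)).1 := by
  induction n generalizing c with
  | zero => rfl
  | succ n ih =>
    rw [Function.iterate_succ_apply, Function.iterate_succ_apply, ih, rest0_step M hc]

end gen

section tm

variable (tm : FinTM2)

/-- The states of the machine. -/
inductive St where
  /-- the rest of a statement, and the state of the Turing machine -/
  | run (q : TM2.Stmt tm.Γ tm.Λ tm.σ) (v : tm.σ)
  /-- the Turing machine has stopped -/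
  | chk1
  /-- the output starts with `true` -/
  | chk2
  /-- accept -/
  | acc
  /-- reject -/
  | rej

variable {tm}

/-- The symbol, if it belongs to the stack `k`. -/
def dec (k : tm.K) : Option (Σ k, tm.Γ k) → Option (tm.Γ k)
  | none => none
  | some s => if h : s.1 = k then some (h ▸ s.2) else none

open Classical in
/-- The machine; `tr` is the symbol for `true` on the output stack. -/
noncomputable def mach (tr : tm.Γ tm.k₁) : SM0 (St tm) tm.K (Σ k, tm.Γ k) where
  on
    | .run (.push k _ _) _ => k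
    | .run (.peek k _ _) _ => k
    | .run (.pop k _ _) _ => k
    | _ => tm.k₁
  δ
    | .run (.push k f q) v, _ => (.run q v, some (some ⟨k, f v⟩))
    | .run (.peek k f q) v, s => (.run q (f v (dec k s)), none)
    | .run (.pop k f q) v, s => (.run q (f v (dec k s)), some none)
    | .run (.load a q) v, _ => (.run q (a v), none)
    | .run (.branch f q₁ q₂) v, _ => (.run (cond (f v) q₁ q₂) v, none)
    | .run (.goto f) v, _ => (.run (tm.m (f v)) v, none)
    | .run .halt _, _ => (.chk1, none)
    | .chk1, s => if s = some ⟨tm.k₁, tr⟩ then (.chk2, some none) else (.rej, none)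
    | .chk2, none => (.acc, none)
    | .chk2, some _ => (.rej, none)
    | .acc, _ => (.acc, none)
    | .rej, _ => (.rej, none)

/-- The code of the stacks. -/
def enc (S : ∀ k, List (tm.Γ k)) (k : tm.K) : List (Σ k, tm.Γ k) := (S k).map (Sigma.mk k)

lemma dec_enc (S : ∀ k, List (tm.Γ k)) (k : tm.K) : dec k (enc S k).head? = (S k).head? := by
  unfold enc
  cases S k with
  | nil => rfl
  | cons a l => simp [dec]

lemma update_enc (S : ∀ k, List (tm.Γ k)) (k : tm.K) (l : List (tm.Γ k)) :
    Function.update (enc S) k (l.map (Sigma.mk k)) = enc (Function.update S k l) := by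
  funext j
  by_cases h : j = k
  · subst h
    rw [Function.update_self]
    unfold enc
    rw [Function.update_self]
  · rw [Function.update_of_ne h]
    unfold enc
    rw [Function.update_of_ne h]

lemma update_keep (S : ∀ k, List (tm.Γ k)) (k : tm.K) :
    Function.update (enc S) k (enc S k) = enc S := Function.update_eq_self _ _

/-- The state of the machine of a configuration of the Turing machine. -/
def stOf (c : TM2.Cfg tm.Γ tm.Λ tm.σ) : St tm :=
  match c.l with
  | some l => .run (tm.m l) c.var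
  | none => .chk1

/-- The number of steps for a statement. -/
def size : TM2.Stmt tm.Γ tm.Λ tm.σ → ℕ
  | .push _ _ q => size q + 1
  | .peek _ _ q => size q + 1
  | .pop _ _ q => size q + 1
  | .load _ q => size q + 1
  | .branch _ q₁ q₂ => max (size q₁) (size q₂) + 1
  | .goto _ => 1
  | .halt => 1

lemma run_stmt (tr : tm.Γ tm.k₁) (q : TM2.Stmt tm.Γ tm.Λ tm.σ) (v : tm.σ)
    (S : ∀ k, List (tm.Γ k)) :
    ∃ n ≤ size q, (mach tr).step^[n] (.run q v, enc S)
      = (stOf (TM2.stepAux q v S), enc (TM2.stepAux q v S).stk) := by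
  induction q generalizing v S with
  | push k f q ih =>
    obtain ⟨n, hn, h⟩ := ih v (Function.update S k (f v :: S k))
    refine ⟨n + 1, by simpa [size] using hn, ?_⟩
    rw [Function.iterate_succ_apply, TM2.stepAux, ← h, ← update_enc]
    rfl
  | peek k f q ih =>
    obtain ⟨n, hn, h⟩ := ih (f v (S k).head?) S
    refine ⟨n + 1, by simpa [size] using hn, ?_⟩
    rw [Function.iterate_succ_apply, TM2.stepAux, ← h]
    congr 1
    refine Prod.ext ?_ (update_keep S k)
    change St.run q (f v (dec k (enc S k).head?)) = _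
    rw [dec_enc]
  | pop k f q ih =>
    obtain ⟨n, hn, h⟩ := ih (f v (S k).head?) (Function.update S k (S k).tail)
    refine ⟨n + 1, by simpa [size] using hn, ?_⟩
    rw [Function.iterate_succ_apply, TM2.stepAux, ← h, ← update_enc]
    congr 1
    refine Prod.ext ?_ ?_
    · change St.run q (f v (dec k (enc S k).head?)) = _
      rw [dec_enc]
    · change Function.update (enc S) k (enc S k).tail = _
      unfold enc
      rw [List.map_tail]
  | load a q ih =>
    obtain ⟨n, hn, h⟩ := ih (a v) S
    refine ⟨n + 1, by simpa [size] using hn, ?_⟩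
    rw [Function.iterate_succ_apply, TM2.stepAux, ← h]
    congr 1
    exact Prod.ext rfl (update_keep S _)
  | branch f q₁ q₂ ih₁ ih₂ =>
    rw [TM2.stepAux]
    cases hf : f v with
    | true =>
      obtain ⟨n, hn, h⟩ := ih₁ v S
      refine ⟨n + 1, by simp only [size]; omega, ?_⟩
      rw [Function.iterate_succ_apply, cond_true, ← h]
      congr 1
      refine Prod.ext ?_ (update_keep S _)
      change St.run (cond (f v) q₁ q₂) v = _
      rw [hf, cond_true]
    | false =>
      obtain ⟨n, hn, h⟩ := ih₂ v S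
      refine ⟨n + 1, by simp only [size]; omega, ?_⟩
      rw [Function.iterate_succ_apply, cond_false, ← h]
      congr 1
      refine Prod.ext ?_ (update_keep S _)
      change St.run (cond (f v) q₁ q₂) v = _
      rw [hf, cond_false]
  | goto f =>
    refine ⟨1, le_refl _, ?_⟩
    rw [Function.iterate_one, TM2.stepAux]
    exact Prod.ext rfl (update_keep S _)
  | halt =>
    refine ⟨1, le_refl _, ?_⟩
    rw [Function.iterate_one, TM2.stepAux]
    exact Prod.ext rfl (update_keep S _)

/-- Many steps of the Turing machine. -/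
lemma run_steps (tr : tm.Γ tm.k₁) (C : ℕ) (hC : ∀ l, size (tm.m l) ≤ C) (t : ℕ)
    (c c' : tm.Cfg) (h : (flip bind tm.step)^[t] (some c) = some c') :
    ∃ n ≤ C * t, (mach tr).step^[n] (stOf c, enc c.stk) = (stOf c', enc c'.stk) := by
  induction t generalizing c with
  | zero =>
    rw [Function.iterate_zero, id, Option.some.injEq] at h
    subst h
    exact ⟨0, by simp, rfl⟩
  | succ t ih =>
    rw [Function.iterate_succ_apply] at h
    have h1 : flip bind tm.step (some c) = tm.step c := rfl
    rw [h1] at h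
    have hnone : ∀ t : ℕ, (flip bind tm.step)^[t] (none : Option tm.Cfg) = none := by
      intro t
      induction t with
      | zero => rfl
      | succ t ih => rw [Function.iterate_succ_apply]; exact ih
    obtain ⟨l, v, S⟩ := c
    rcases l with _ | l
    · have h2 : tm.step ⟨none, v, S⟩ = none := rfl
      rw [h2, hnone] at h
      exact absurd h (by simp)
    · have h2 : tm.step ⟨some l, v, S⟩ = some (TM2.stepAux (tm.m l) v S) := rfl
      rw [h2] at h
      obtain ⟨n, hn, h3⟩ := ih _ h
      obtain ⟨n', hn', h4⟩ := run_stmt tr (tm.m l) v S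
      refine ⟨n + n', ?_, ?_⟩
      · have := hC l
        rw [Nat.mul_succ]
        omega
      · rw [Function.iterate_add_apply]
        have h5 : (stOf (⟨some l, v, S⟩ : TM2.Cfg tm.Γ tm.Λ tm.σ),
          enc (⟨some l, v, S⟩ : TM2.Cfg tm.Γ tm.Λ tm.σ).stk) = (St.run (tm.m l) v, enc S) := rfl
        exact (congrArg _ (h5 ▸ h4)).trans h3

/-! ### The finite sets of the states and the symbols -/

/-- The statements of the program and their parts. -/
def stmts (tm : FinTM2) : Set (TM2.Stmt tm.Γ tm.Λ tm.σ) :=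
  ⋃ l, (TM2.stmts₁ (tm.m l) : Set (TM2.Stmt tm.Γ tm.Λ tm.σ))

lemma stmts_finite (tm : FinTM2) : (stmts tm).Finite := by
  have := tm.ΛFin
  exact Set.finite_iUnion fun l => Finset.finite_toSet _

lemma main_mem (l : tm.Λ) : tm.m l ∈ stmts tm :=
  Set.mem_iUnion.2 ⟨l, Finset.mem_coe.2 TM2.stmts₁_self⟩

lemma part_mem {q q' : TM2.Stmt tm.Γ tm.Λ tm.σ} (h : q ∈ stmts tm) (h' : q' ∈ TM2.stmts₁ q) :
    q' ∈ stmts tm := by
  obtain ⟨l, hl⟩ := Set.mem_iUnion.1 h
  exact Set.mem_iUnion.2 ⟨l, TM2.stmts₁_trans hl h'⟩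

/-- The finite set of the states. -/
def stSet (tm : FinTM2) : Set (St tm) :=
  (fun p : TM2.Stmt tm.Γ tm.Λ tm.σ × tm.σ => St.run p.1 p.2) '' (stmts tm ×ˢ Set.univ)
    ∪ {.chk1, .chk2, .acc, .rej}

lemma stSet_finite (tm : FinTM2) : (stSet tm).Finite := by
  have := tm.σFin
  refine Set.Finite.union (Set.Finite.image _ ((stmts_finite tm).prod Set.finite_univ)) ?_
  exact Set.toFinite _

lemma run_mem {q : TM2.Stmt tm.Γ tm.Λ tm.σ} (h : q ∈ stmts tm) (v : tm.σ) :
    St.run q v ∈ stSet tm :=
  Or.inl ⟨(q, v), ⟨h, Set.mem_univ _⟩, rfl⟩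

lemma of_run_mem {q : TM2.Stmt tm.Γ tm.Λ tm.σ} {v : tm.σ} (h : St.run q v ∈ stSet tm) :
    q ∈ stmts tm := by
  rcases h with ⟨p, hp, he⟩ | h
  · simp only [St.run.injEq] at he
    rw [← he.1]
    exact hp.1
  · simp at h

/-- The symbol pushed by a statement. -/
def symOf : TM2.Stmt tm.Γ tm.Λ tm.σ → tm.σ → Option (Σ k, tm.Γ k)
  | .push k f _, v => some ⟨k, f v⟩
  | _, _ => none

/-- The finite set of the symbols. -/
def symSet (tm : FinTM2) : Set (Σ k, tm.Γ k) :=
  Set.range (fun g : tm.Γ tm.k₀ => (⟨tm.k₀, g⟩ : Σ k, tm.Γ k))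
    ∪ some ⁻¹' ((fun p : TM2.Stmt tm.Γ tm.Λ tm.σ × tm.σ => symOf p.1 p.2) ''
      (stmts tm ×ˢ Set.univ))

lemma symSet_finite (tm : FinTM2) : (symSet tm).Finite := by
  have := tm.σFin
  have := tm.Γk₀Fin
  refine Set.Finite.union (Set.finite_range _) ?_
  exact Set.Finite.preimage (Option.some_injective _).injOn
    (Set.Finite.image _ ((stmts_finite tm).prod Set.finite_univ))

lemma in_mem (g : tm.Γ tm.k₀) : (⟨tm.k₀, g⟩ : Σ k, tm.Γ k) ∈ symSet tm := Or.inl ⟨g, rfl⟩

lemma push_mem {k : tm.K} {f : tm.σ → tm.Γ k} {q : TM2.Stmt tm.Γ tm.Λ tm.σ}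
    (h : TM2.Stmt.push k f q ∈ stmts tm) (v : tm.σ) :
    (⟨k, f v⟩ : Σ k, tm.Γ k) ∈ symSet tm :=
  Or.inr ⟨(TM2.Stmt.push k f q, v), ⟨h, Set.mem_univ _⟩, rfl⟩

lemma closed (tr : tm.Γ tm.k₁) : Closed (mach tr) (stSet tm) (symSet tm) := by
  classical
  have hfin : ∀ x : St tm, x = .chk1 ∨ x = .chk2 ∨ x = .acc ∨ x = .rej → x ∈ stSet tm := by
    intro x hx
    exact Or.inr (by simpa using hx)
  rintro (⟨q, v⟩ | _ | _ | _ | _) hq s _
  · have hm := of_run_mem hq
    cases q with
    | push k f q =>
      refine ⟨run_mem (part_mem hm ?_) v, fun x hx => ?_⟩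
      · rw [TM2.stmts₁]
        exact Finset.mem_insert_of_mem TM2.stmts₁_self
      · have h1 : (some (some (⟨k, f v⟩ : Σ k, tm.Γ k))) = some (some x) := hx
        rw [Option.some.injEq, Option.some.injEq] at h1
        rw [← h1]
        exact push_mem hm v
    | peek k f q =>
      refine ⟨run_mem (part_mem hm ?_) _, fun x hx => ?_⟩
      · rw [TM2.stmts₁]
        exact Finset.mem_insert_of_mem TM2.stmts₁_self
      · exact absurd (show (none : Option (Option (Σ k, tm.Γ k))) = some (some x) from hx)
          (by simp)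
    | pop k f q =>
      refine ⟨run_mem (part_mem hm ?_) _, fun x hx => ?_⟩
      · rw [TM2.stmts₁]
        exact Finset.mem_insert_of_mem TM2.stmts₁_self
      · exact absurd (show (some none : Option (Option (Σ k, tm.Γ k))) = some (some x) from hx)
          (by simp)
    | load a q =>
      refine ⟨run_mem (part_mem hm ?_) _, fun x hx => ?_⟩
      · rw [TM2.stmts₁]
        exact Finset.mem_insert_of_mem TM2.stmts₁_self
      · exact absurd (show (none : Option (Option (Σ k, tm.Γ k))) = some (some x) from hx)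
          (by simp)
    | branch f q₁ q₂ =>
      refine ⟨run_mem (part_mem hm ?_) _, fun x hx => ?_⟩
      · rw [TM2.stmts₁]
        cases f v
        · exact Finset.mem_insert_of_mem (Finset.mem_union_right _ TM2.stmts₁_self)
        · exact Finset.mem_insert_of_mem (Finset.mem_union_left _ TM2.stmts₁_self)
      · exact absurd (show (none : Option (Option (Σ k, tm.Γ k))) = some (some x) from hx)
          (by simp)
    | goto f =>
      refine ⟨run_mem (main_mem _) _, fun x hx => ?_⟩
      exact absurd (show (none : Option (Option (Σ k, tm.Γ k))) = some (some x) from hx)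
        (by simp)
    | halt =>
      refine ⟨hfin _ (Or.inl rfl), fun x hx => ?_⟩
      exact absurd (show (none : Option (Option (Σ k, tm.Γ k))) = some (some x) from hx)
        (by simp)
  · by_cases hs : s = some ⟨tm.k₁, tr⟩
    · have h1 : (mach tr).δ .chk1 s = (.chk2, some none) := if_pos hs
      rw [h1]
      exact ⟨hfin _ (Or.inr (Or.inl rfl)), by simp⟩
    · have h1 : (mach tr).δ .chk1 s = (.rej, none) := if_neg hs
      rw [h1]
      exact ⟨hfin _ (by simp), by simp⟩
  · rcases s with _ | s
    · exact ⟨hfin _ (Or.inr (Or.inr (Or.inl rfl))), fun x hx => absurd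
        (show (none : Option (Option (Σ k, tm.Γ k))) = some (some x) from hx) (by simp)⟩
    · exact ⟨hfin _ (Or.inr (Or.inr (Or.inr rfl))), fun x hx => absurd
        (show (none : Option (Option (Σ k, tm.Γ k))) = some (some x) from hx) (by simp)⟩
  · exact ⟨hfin _ (Or.inr (Or.inr (Or.inl rfl))), fun x hx => absurd
      (show (none : Option (Option (Σ k, tm.Γ k))) = some (some x) from hx) (by simp)⟩
  · exact ⟨hfin _ (Or.inr (Or.inr (Or.inr rfl))), fun x hx => absurd
      (show (none : Option (Option (Σ k, tm.Γ k))) = some (some x) from hx) (by simp)⟩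

/-! ### The final phase -/

lemma acc_iter (tr : tm.Γ tm.k₁) (S : tm.K → List (Σ k, tm.Γ k)) (n : ℕ) :
    ((mach tr).step^[n] (.acc, S)).1 = .acc := by
  induction n generalizing S with
  | zero => rfl
  | succ n ih => rw [Function.iterate_succ_apply]; exact ih _

lemma rej_iter (tr : tm.Γ tm.k₁) (S : tm.K → List (Σ k, tm.Γ k)) (n : ℕ) :
    ((mach tr).step^[n] (.rej, S)).1 = .rej := by
  induction n generalizing S with
  | zero => rfl
  | succ n ih => rw [Function.iterate_succ_apply]; exact ih _

lemma final (tr : tm.Γ tm.k₁) (S : tm.K → List (Σ k, tm.Γ k)) (n : ℕ) :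
    ((mach tr).step^[n + 2] (.chk1, S)).1 = .acc ↔ S tm.k₁ = [⟨tm.k₁, tr⟩] := by
  rw [Function.iterate_add_apply]
  have h0 : (mach tr).step^[2] (.chk1, S) = (mach tr).step ((mach tr).step (.chk1, S)) := rfl
  rw [h0]
  have h1 : (mach tr).step (.chk1, S) = (((mach tr).δ .chk1 (S tm.k₁).head?).1,
    Function.update S tm.k₁ (SM.act ((mach tr).δ .chk1 (S tm.k₁).head?).2 (S tm.k₁))) := rfl
  rw [h1]
  by_cases hs : (S tm.k₁).head? = some ⟨tm.k₁, tr⟩
  · have h2 : (mach tr).δ .chk1 (S tm.k₁).head? = (.chk2, some none) := if_pos hs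
    rw [h2]
    simp only [SM.act]
    obtain ⟨l, hl⟩ : ∃ l, S tm.k₁ = ⟨tm.k₁, tr⟩ :: l := by
      cases h : S tm.k₁ with
      | nil => rw [h] at hs; simp at hs
      | cons a l => rw [h] at hs; simp at hs; exact ⟨l, by rw [hs]⟩
    rw [hl, List.tail_cons]
    cases l with
    | nil =>
      have h3 : (mach tr).step (.chk2, Function.update S tm.k₁ [])
        = (((mach tr).δ .chk2 (Function.update S tm.k₁ [] tm.k₁).head?).1,
          Function.update (Function.update S tm.k₁ []) tm.k₁
            (SM.act ((mach tr).δ .chk2 (Function.update S tm.k₁ [] tm.k₁).head?).2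
              (Function.update S tm.k₁ [] tm.k₁))) := rfl
      rw [h3]
      simp only [Function.update_self, List.head?_nil]
      have h4 : (mach tr).δ .chk2 none = (.acc, none) := rfl
      rw [h4, acc_iter]
      simp
    | cons a l =>
      have h3 : (mach tr).step (.chk2, Function.update S tm.k₁ (a :: l))
        = (((mach tr).δ .chk2 (Function.update S tm.k₁ (a :: l) tm.k₁).head?).1,
          Function.update (Function.update S tm.k₁ (a :: l)) tm.k₁
            (SM.act ((mach tr).δ .chk2 (Function.update S tm.k₁ (a :: l) tm.k₁).head?).2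
              (Function.update S tm.k₁ (a :: l) tm.k₁))) := rfl
      rw [h3]
      simp only [Function.update_self, List.head?_cons]
      have h4 : (mach tr).δ .chk2 (some a) = (.rej, none) := rfl
      rw [h4, rej_iter]
      simp
  · have h2 : (mach tr).δ .chk1 (S tm.k₁).head? = (.rej, none) := if_neg hs
    rw [h2]
    have h3 : ((mach tr).step^[n] ((mach tr).step (.rej, Function.update S tm.k₁
      (SM.act none (S tm.k₁))))).1 = .rej := by
      rw [← Function.iterate_succ_apply]
      exact rej_iter _ _ _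
    rw [h3]
    constructor
    · intro h
      exact absurd h (by simp)
    · intro h
      rw [h] at hs
      simp at hs

end tm

end FromTM

open FromTM Turing in
/-- A polynomial time Turing machine for `f` gives a machine which decides whether `f w = [true]`
in polynomial time. -/
theorem exists_SM {f : List Bool → List Bool} (hf : PolyTime f) :
    ∃ (M : SM) (q₀ : M.Q) (k₀ : M.K) (β : Bool → M.S) (acc : M.Q → Prop) (T : Polynomial ℕ),
      M.Decides q₀ k₀ β acc T f := by
  obtain ⟨F⟩ := hf
  obtain ⟨C, hC⟩ : ∃ C, ∀ l, size (F.tm.m l) ≤ C := by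
    have := F.tm.ΛFin
    exact ⟨Finset.univ.sup fun l => size (F.tm.m l),
      fun l => Finset.le_sup (f := fun l => size (F.tm.m l)) (Finset.mem_univ l)⟩
  have := F.tm.kFin
  set tr : F.tm.Γ F.tm.k₁ := F.outputAlphabet.symm true with htr
  set q₀ : stSet F.tm := ⟨.run (F.tm.m F.tm.main) F.tm.initialState, run_mem (main_mem _) _⟩
    with hq₀
  set s₀ : symSet F.tm := ⟨⟨F.tm.k₀, F.inputAlphabet.symm true⟩, in_mem _⟩ with hs₀
  refine ⟨restr (mach tr) (stSet F.tm) (stSet_finite F.tm) q₀ (symSet F.tm)
    (symSet_finite F.tm) s₀, q₀, F.tm.k₀, fun b => ⟨⟨F.tm.k₀, F.inputAlphabet.symm b⟩, in_mem _⟩,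
    fun q => q.1 = .acc, Polynomial.C C * F.time + 2, fun w n hn => ?_⟩
  have hst := congrFun (congrArg (fun g => g^[n]) (restr_eq (mach tr) (stSet F.tm)
    (stSet_finite F.tm) q₀ (symSet F.tm) (symSet_finite F.tm) s₀))
    (q₀, Function.update (fun _ => []) F.tm.k₀
      (w.map fun b => (⟨⟨F.tm.k₀, F.inputAlphabet.symm b⟩, in_mem _⟩ : symSet F.tm)))
  have hit := rest0_iter (mach tr) (q₀ := q₀) (s₀ := s₀) (closed tr)
    (q₀, Function.update (fun _ => []) F.tm.k₀
      (w.map fun b => (⟨⟨F.tm.k₀, F.inputAlphabet.symm b⟩, in_mem _⟩ : symSet F.tm))) n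
  have hgoal : ((((restr (mach tr) (stSet F.tm) (stSet_finite F.tm) q₀ (symSet F.tm)
    (symSet_finite F.tm) s₀).step^[n] ((restr (mach tr) (stSet F.tm) (stSet_finite F.tm) q₀
    (symSet F.tm) (symSet_finite F.tm) s₀).init q₀ F.tm.k₀ (fun b => ⟨⟨F.tm.k₀,
    F.inputAlphabet.symm b⟩, in_mem _⟩) w)).1.1 : St F.tm)
      = ((mach tr).step^[n] (.run (F.tm.m F.tm.main) F.tm.initialState,
          enc (initList F.tm (w.map F.inputAlphabet.symm)).stk)).1) := by
    refine (congrArg (fun c => (c.1.1 : St F.tm)) hst).trans (hit.trans ?_)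
    congr 2
    refine Prod.ext rfl ?_
    funext k
    by_cases hk : k = F.tm.k₀
    · subst hk
      simp [enc, initList]
    · simp [enc, initList, hk]
  change ((((restr (mach tr) (stSet F.tm) (stSet_finite F.tm) q₀ (symSet F.tm)
    (symSet_finite F.tm) s₀).step^[n] ((restr (mach tr) (stSet F.tm) (stSet_finite F.tm) q₀
    (symSet F.tm) (symSet_finite F.tm) s₀).init q₀ F.tm.k₀ (fun b => ⟨⟨F.tm.k₀,
    F.inputAlphabet.symm b⟩, in_mem _⟩) w)).1.1 : St F.tm) = .acc) ↔ _
  rw [hgoal]
  obtain ⟨⟨t, ht⟩, ht'⟩ := F.outputsFun w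
  simp only at ht'
  obtain ⟨n₀, hn₀, hrun⟩ := run_steps tr C hC t _ _ ht
  have hlen : F.time.eval w.length * C + 2 ≤ n := by
    rw [Polynomial.eval_add, Polynomial.eval_mul, Polynomial.eval_C] at hn
    have h2 : (2 : Polynomial ℕ).eval w.length = 2 := by
      rw [← Polynomial.C_ofNat, Polynomial.eval_C]
    rw [h2] at hn
    linarith [Nat.mul_comm C (F.time.eval w.length)]
  have hle : n₀ + 2 ≤ n := by
    have h3 : C * t ≤ C * F.time.eval w.length := Nat.mul_le_mul_left _ ht'
    rw [Nat.mul_comm C (F.time.eval w.length)] at h3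
    omega
  obtain ⟨j, rfl⟩ : ∃ j, n = (j + 2) + n₀ := ⟨n - n₀ - 2, by omega⟩
  rw [Function.iterate_add_apply]
  have hrun' : (mach tr).step^[n₀] (.run (F.tm.m F.tm.main) F.tm.initialState,
      enc (initList F.tm (w.map F.inputAlphabet.symm)).stk)
      = (.chk1, enc (haltList F.tm ((f w).map F.outputAlphabet.symm)).stk) := hrun
  rw [hrun', final]
  have h5 : enc (haltList F.tm ((f w).map F.outputAlphabet.symm)).stk F.tm.k₁
      = (f w).map fun b => (⟨F.tm.k₁, F.outputAlphabet.symm b⟩ : Σ k, F.tm.Γ k) := by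
    simp [enc, haltList]
  rw [h5]
  constructor
  · intro h
    cases hfw : f w with
    | nil => rw [hfw] at h; simp at h
    | cons b l =>
      rw [hfw] at h
      simp only [List.map_cons, List.cons.injEq, List.map_eq_nil_iff, Sigma.mk.injEq,
        heq_eq_eq, true_and] at h
      rw [h.2, F.outputAlphabet.symm.injective h.1]
  · intro h
    rw [h]
    rfl

end Pool.Agent.TSP94
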