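import Pool.Agent.TSP94.MainS
import Pool.Agent.TSP94.FromTM
import Pool.Agent.TSP94.CookLevin

/-!
# NP-completeness
-/

set_option autoImplicit false

namespace Pool.Agent.TSP94

open Pool.Agent.PTL

/-- The theorem of Cook and Levin. -/
theorem cook_levin {L : Set (List Bool)} (hL : InNP L) :
    ∃ g : List Bool → List Bool, PTC g ∧ ∀ w, ∃ (n m : ℕ) (φ : Fin m → Fin 3 → Fin n × Bool),
      g w = encodeCNF φ ∧ (w ∈ L ↔ ∃ τ : Fin n → Bool, ∀ j, ∃ k, τ (φ j k).1 = (φ j k).2) := by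
  obtain ⟨f, p, hf, h⟩ := hL
  obtain ⟨M, q₀, k₀, β, acc, T, hM⟩ := exists_SM hf
  exact cook_levin_of hM h

theorem npComplete (t : ℕ) (D : ℕ∞) (ht : 4 ≤ t) (hD : ((2 * (t / 2) : ℕ) : ℕ∞) ≤ D) :
    NPComplete (TreeSpannerLang t D) := by
  refine ⟨treeSpanner_inNP t D, fun L hL => ?_⟩
  obtain ⟨g, hg, h1⟩ := cook_levin hL
  obtain ⟨f, hf, h2⟩ := exists_hard_lang t D ht hD
  refine ⟨_, (hf.comp hg).polyTime, fun w => ?_⟩
  obtain ⟨n, m, φ, h3, h4⟩ := h1 w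
  rw [h4, h3, h2]

end Pool.Agent.TSP94
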