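import Pool.Agent.TSP94.StepF
import Pool.Agent.TSP94.CoreH

/-!
# The reduction from 3-SAT is computed in polynomial time
-/

set_option autoImplicit false

namespace Pool.Agent.TSP94

open SimpleGraph
open Pool.Agent.PTL
open Pool.Agent.TSpan33

theorem exists_hard (t : ℕ) (ht : 4 ≤ t) : ∃ f : List Bool → List Bool, PTC f ∧
    ∀ (n m : ℕ) (φ : Fin m → Fin 3 → Fin n × Bool), ∃ (N : ℕ) (G : SimpleGraph (Fin N)),
      f (encodeCNF φ) = encodeGraph G ∧ G.Connected ∧ IsChordal G ∧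
      (∀ u v, G.dist u v ≤ 2 * (t / 2)) ∧
      ((∃ T, IsTreeSpanner t G T) ↔ ∃ τ : Fin n → Bool, ∀ j, ∃ k, τ (φ j k).1 = (φ j k).2) := by
  obtain ⟨g, hg, h1⟩ := exists_steps t (by omega) t
  obtain ⟨h, hh, h2⟩ := exists_drop t (by omega)
  have main : ∀ (f : List Bool → List Bool), PTC f →
      (∀ {n m : ℕ} (φ : Fin m → Fin 3 → Fin n × Bool), ∃ A : LG, (∀ u v, A.lev u v < t) ∧
        Rep t (f (encodeCNF φ)) A ∧ (LG.steps t A).G.Connected ∧ IsChordal (LG.steps t A).G ∧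
        (∀ u v, (LG.steps t A).G.dist u v ≤ 2 * (t / 2)) ∧
        ((∃ T, IsTreeSpanner t (LG.steps t A).G T) ↔
          ∃ τ : Fin n → Bool, ∀ j, ∃ k, τ (φ j k).1 = (φ j k).2)) →
      ∃ f : List Bool → List Bool, PTC f ∧
    ∀ (n m : ℕ) (φ : Fin m → Fin 3 → Fin n × Bool), ∃ (N : ℕ) (G : SimpleGraph (Fin N)),
      f (encodeCNF φ) = encodeGraph G ∧ G.Connected ∧ IsChordal G ∧
      (∀ u v, G.dist u v ≤ 2 * (t / 2)) ∧
      ((∃ T, IsTreeSpanner t G T) ↔ ∃ τ : Fin n → Bool, ∀ j, ∃ k, τ (φ j k).1 = (φ j k).2) := by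
    intro f hf hf'
    refine ⟨_, hh.comp (hg.comp hf), fun n m φ => ?_⟩
    obtain ⟨A, h3, h4, h5, h6, h7, h8⟩ := hf' φ
    obtain ⟨N, G, h9, ⟨e⟩⟩ := h2 _ _ (h1 _ _ h3 h4)
    refine ⟨N, G, h9, e.connected_iff.2 h5, ?_, fun u v => ?_, ?_⟩
    · exact (isChordal_iso e).2 h6
    · rw [← dist_iso e (e.connected_iff.2 h5)]
      exact h7 _ _
    · rw [treeSpanner_iso e, h8]
  by_cases hev : t % 2 = 0
  · obtain ⟨f, hf, h3⟩ := exists_coreA t
    refine main f hf fun {n m} φ => ⟨coreA t colA (scA φ),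
      fun u v => ofBounds_lev_lt (by omega) u v, h3 n m φ, ?_⟩
    have e : red t φ = LG.steps t (coreA t colA (scA φ)) := by rw [red, if_pos hev]; rfl
    rw [← e]
    obtain ⟨h5, h6, h7, -, h8⟩ := main_even ht hev φ
    exact ⟨h5, h6, h7, h8⟩
  · obtain ⟨f, hf, h3⟩ := exists_coreB t
    refine main f hf fun {n m} φ => ⟨coreB t colB (scB φ),
      fun u v => ofBounds_lev_lt (by omega) u v, h3 n m φ, ?_⟩
    have e : red t φ = LG.steps t (coreB t colB (scB φ)) := by rw [red, if_neg hev]; rfl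
    rw [← e]
    obtain ⟨h5, h6, h7, -, h8⟩ := main_odd ht hev φ
    exact ⟨h5, h6, h7, h8⟩

end Pool.Agent.TSP94
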