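import Pool.Agent.TSP94.Elim

/-!
# The second phase computes the derivable atoms; the algorithm is correct
-/

set_option autoImplicit false

namespace Pool.Agent.TSP94

open Pool.Agent.PTL Pool.Agent.TSpan94
open Pool.Agent.TSpan33 (IsChordal IsTreeSpanner)

variable {N : ℕ} {G : SimpleGraph (Fin N)}

/-- The state of the second phase. -/
structure Inv2 (G : SimpleGraph (Fin N)) (π : Fin N → ℕ) (w : List Bool) : Prop where
  peo : IsPEO G π
  lt : ∀ u v : Fin N, u ≠ v → (rB N w u v ↔ π u < π v)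
  adj : ∀ u v : Fin N, rA N w u v ↔ G.Adj u v
  imp : ∀ j x y a b : Fin N, lk N w 2 j x y a b → Der G π (.imp j x y a b)
  bad : ∀ j c : Fin N, rD N w j c → Der G π (.bad j c)

theorem Good.inv2 {w : List Bool} {π : Fin N → ℕ} (h : Good G w π) : Inv2 G π w :=
  ⟨h.peo, h.lt, h.adj, fun j x y a b e => absurd e (h.imp j x y a b),
    fun j c e => absurd e (h.bad j c)⟩

section

variable {w : List Bool} {π : Fin N → ℕ} (h : Inv2 G π w)
include h

theorem Inv2.rL_iff (j a : Fin N) : rL N w j a ↔ Later G π j a := by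
  unfold rL Later
  rw [h.adj]
  constructor
  · rintro ⟨h1, h2⟩
    exact ⟨h1, (h.lt j a h1.ne).1 h2⟩
  · rintro ⟨h1, h2⟩
    exact ⟨h1, (h.lt j a h1.ne).2 h2⟩

theorem Inv2.rPar_iff (l j : Fin N) : rPar N w l j ↔ Par G π l j := by
  unfold rPar Par
  rw [h.rL_iff]
  refine and_congr_right fun _ => ?_
  constructor
  · intro h1 a ha
    rcases h1 a a.2 ((h.rL_iff l a).2 ha) with h2 | h2
    · rw [Fin.ext h2]
    · by_cases e : j = a
      · rw [e]
      · exact ((h.lt j a e).1 h2).le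
  · intro h1 a ha hl
    have h2 := h1 ⟨a, ha⟩ ((h.rL_iff l ⟨a, ha⟩).1 hl)
    by_cases e : j = ⟨a, ha⟩
    · exact Or.inl (by rw [e])
    · refine Or.inr ((h.lt j ⟨a, ha⟩ e).2 (lt_of_le_of_ne h2 fun e' => e (h.peo.1 e')))

theorem Inv2.rChild_iff (l j : Fin N) : rChild N w l j ↔ Child G π l j := by
  unfold rChild Child
  rw [h.rPar_iff]
  refine and_congr_right fun _ => ?_
  constructor
  · rintro ⟨a, ha, h1, h2⟩
    exact ⟨⟨a, ha⟩, (h.rL_iff l ⟨a, ha⟩).1 h1, fun e => h2 (by rw [← e])⟩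
  · rintro ⟨a, h1, h2⟩
    exact ⟨a, a.2, (h.rL_iff l a).2 h1, fun e => h2 (Fin.ext e)⟩

theorem Inv2.forall_iff (j : Fin N) (P : Fin N → Prop) (Q : ℕ → Prop)
    (hPQ : ∀ a : Fin N, Q a ↔ P a) :
    (∀ a < N, rL N w j a → Q a) ↔ ∀ a, Later G π j a → P a := by
  constructor
  · intro h1 a ha
    exact (hPQ a).1 (h1 a a.2 ((h.rL_iff j a).2 ha))
  · intro h1 a ha hl
    exact (hPQ ⟨a, ha⟩).2 (h1 ⟨a, ha⟩ ((h.rL_iff j ⟨a, ha⟩).1 hl))

theorem Inv2.rChoice_iff (j c x y : Fin N) : rChoice N w j c x y ↔ Choice G π j c x y := by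
  unfold rChoice Choice
  rw [h.adj, h.adj, h.rL_iff, h.forall_iff j (fun a => a = c ∨ a = x)
    (fun a => a = (c : ℕ) ∨ a = (x : ℕ)) (fun a => by simp only [Fin.ext_iff])]
  simp only [Fin.ext_iff, ne_eq]

theorem Inv2.imp_of (j x y a b : Fin N) (hi : rImp N w j x y a b) :
    Der G π (.imp j x y a b) := by
  rcases hi with hi | hi | ⟨c, hc, h1, h2⟩ | hi | ⟨h1, h2, h3, h4, h5⟩ |
    ⟨l, hl, h1, h2, h3, h4, h5, h6, h7, h8⟩ | ⟨h0, l, hl, h1, h2, h3, h4, h5, h6⟩ |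
    ⟨h0, h0', l, hl, h1, h2, h3⟩
  · obtain rfl := Fin.ext hi
    exact .refl j x y a
  · obtain rfl := Fin.ext hi
    exact .top j x b a
  · exact .trans j x y a ⟨c, hc⟩ b (h.imp j x y a ⟨c, hc⟩ h1) (h.imp j x y ⟨c, hc⟩ b h2)
  · exact .swap j x y a b (h.imp j y x b a hi)
  · obtain rfl := Fin.ext h1
    refine .far j x a b ?_ (fun e => h3 (by rw [e])) (fun e => h4 (by rw [e]))
      (fun e => h5 ((h.adj b x).2 e))
    rcases h2 with h2 | h2
    · exact Or.inl (Fin.ext h2)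
    · exact Or.inr ((h.rL_iff j b).1 h2)
  · exact .mixed j ⟨l, hl⟩ x y a b ((h.rChild_iff ⟨l, hl⟩ j).1 h1) ((h.rL_iff ⟨l, hl⟩ a).1 h2)
      ((h.rL_iff ⟨l, hl⟩ b).1 h3) (fun e => h4 (by rw [e])) (fun e => h5 (by rw [e]))
      (fun e => h6 (by rw [e])) (fun e => h7 (by rw [e])) (h.imp ⟨l, hl⟩ x y a b h8)
  · obtain rfl := Fin.ext h0
    exact .pure j ⟨l, hl⟩ x a b ((h.rChild_iff ⟨l, hl⟩ j).1 h1) ((h.rL_iff ⟨l, hl⟩ b).1 h2)
      (fun e => h3 (by rw [e])) (fun e => h4 (by rw [e])) (h.bad ⟨l, hl⟩ x h5)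
      (h.imp ⟨l, hl⟩ x a a b h6)
  · obtain rfl := Fin.ext h0
    obtain rfl := Fin.ext h0'
    refine .edge j ⟨l, hl⟩ b a ((h.rChild_iff ⟨l, hl⟩ j).1 h1) ?_ (h.bad ⟨l, hl⟩ b h3)
    exact (h.forall_iff ⟨l, hl⟩ (fun c => c = b ∨ c = a) (fun c => c = (b : ℕ) ∨ c = (a : ℕ))
      (fun c => by simp only [Fin.ext_iff])).1 h2

theorem Inv2.bad_of (j c : Fin N) (hi : rBad N w j c) : Der G π (.bad j c) := by
  refine .bad j c fun x y hxy => ?_
  obtain ⟨s, hs, h1, h2⟩ := hi x x.2 y y.2 ((h.rChoice_iff j c x y).2 hxy)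
  refine .fail j x y ⟨s, hs⟩ ?_ (h.imp j x y y ⟨s, hs⟩ h2)
  rcases h1 with ⟨h1, h3⟩ | h1
  · exact Or.inl ⟨(h.rL_iff j ⟨s, hs⟩).1 h1, fun e => h3 (by rw [← e])⟩
  · exact Or.inr (Fin.ext h1)

theorem Inv2.next : Inv2 G π (TSP94.mk N (step2 N w)) where
  peo := h.peo
  lt u v huv := by
    rw [← h.lt u v huv, rB, lk_mk0 (by norm_num), rB]
    simp [step2]
  adj u v := by
    rw [← h.adj, rA, lk_mk0 (by norm_num), rA]
    simp [step2]
  imp j x y a b hi := by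
    rw [lk_mk' (by norm_num)] at hi
    rcases hi with hi | ⟨-, hi⟩ | ⟨hi, -⟩
    · exact h.imp j x y a b hi
    · exact h.imp_of j x y a b hi
    · norm_num at hi
  bad j c hi := by
    rw [rD, lk_mk0 (by norm_num)] at hi
    rcases hi with hi | ⟨hi, -⟩ | ⟨-, hi⟩
    · exact h.bad j c hi
    · norm_num at hi
    · exact h.bad_of j c hi

/-- At the fixed point, all derivable atoms are in the table. -/
theorem Inv2.complete (hfix : TSP94.mk N (step2 N w) = w) {A : Atom (Fin N)} (hA : Der G π A) :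
    match A with
    | .imp j x y a b => lk N w 2 j x y a b
    | .fail j x y => ∃ s : Fin N, ((Later G π j s ∧ s ≠ y) ∨ s = x) ∧ lk N w 2 j x y y s
    | .bad j c => rD N w j c := by
  have hI : ∀ j x y a b : Fin N, rImp N w j x y a b → lk N w 2 j x y a b := by
    intro j x y a b hi
    rw [← hfix, lk_mk' (by norm_num)]
    exact Or.inr (Or.inl ⟨rfl, hi⟩)
  have hD : ∀ j c : Fin N, rBad N w j c → rD N w j c := by
    intro j c hi
    rw [← hfix, rD, lk_mk0 (by norm_num)]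
    exact Or.inr (Or.inr ⟨rfl, hi⟩)
  have hne : ∀ {a b : Fin N}, a ≠ b → (a : ℕ) ≠ b := fun hab e => hab (Fin.ext e)
  induction hA with
  | refl j x y a => exact hI j x y a a (Or.inl rfl)
  | top j x y a => exact hI j x y a y (Or.inr (Or.inl rfl))
  | trans j x y a b c _ _ ih₁ ih₂ =>
    exact hI j x y a c (Or.inr (Or.inr (Or.inl ⟨b, b.2, ih₁, ih₂⟩)))
  | swap j x y a b _ ih =>
    exact hI j x y a b (Or.inr (Or.inr (Or.inr (Or.inl ih))))
  | far j x y a ha hx hy hax =>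
    refine hI j x y y a (Or.inr (Or.inr (Or.inr (Or.inr (Or.inl ⟨rfl, ?_, hne hx, hne hy,
      fun e => hax ((h.adj a x).1 e)⟩)))))
    rcases ha with rfl | ha
    · exact Or.inl rfl
    · exact Or.inr ((h.rL_iff j a).2 ha)
  | mixed j l x y a b hl ha hb hax hay hbx hby _ ih =>
    exact hI j x y a b (Or.inr (Or.inr (Or.inr (Or.inr (Or.inr (Or.inl ⟨l, l.2,
      (h.rChild_iff l j).2 hl, (h.rL_iff l a).2 ha, (h.rL_iff l b).2 hb, hne hax, hne hay,
      hne hbx, hne hby, ih⟩))))))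
  | pure j l x y a hl ha hax hay _ _ ih₁ ih₂ =>
    exact hI j x y y a (Or.inr (Or.inr (Or.inr (Or.inr (Or.inr (Or.inr (Or.inl ⟨rfl, l, l.2,
      (h.rChild_iff l j).2 hl, (h.rL_iff l a).2 ha, hne hax, hne hay, ih₁, ih₂⟩)))))))
  | edge j l x y hl ha _ ih =>
    refine hI j x y y x (Or.inr (Or.inr (Or.inr (Or.inr (Or.inr (Or.inr (Or.inr ⟨rfl, rfl, l, l.2,
      (h.rChild_iff l j).2 hl, ?_, ih⟩)))))))
    exact (h.forall_iff l (fun c => c = x ∨ c = y) (fun c => c = (x : ℕ) ∨ c = (y : ℕ))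
      (fun c => by simp only [Fin.ext_iff])).2 ha
  | fail j x y s hs _ ih => exact ⟨s, hs, ih⟩
  | bad j c _ ih =>
    refine hD j c fun x hx y hy hxy => ?_
    obtain ⟨s, hs, h1⟩ := ih ⟨x, hx⟩ ⟨y, hy⟩ ((h.rChoice_iff j c ⟨x, hx⟩ ⟨y, hy⟩).1 hxy)
    refine ⟨s, s.2, ?_, h1⟩
    rcases hs with ⟨h2, h3⟩ | rfl
    · exact Or.inl ⟨(h.rL_iff j s).2 h2, hne h3⟩
    · exact Or.inr rfl

theorem Inv2.accept_iff (hfix : TSP94.mk N (step2 N w) = w) : accept N w ↔ TSpan94.Top G π := by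
  unfold accept TSpan94.Top
  have hbad : ∀ l s : Fin N, rD N w l s ↔ Der G π (.bad l s) := fun l s =>
    ⟨h.bad l s, fun e => h.complete hfix e⟩
  constructor
  · intro h1 l s hs ha hb
    refine h1 l l.2 s s.2 ((h.rL_iff l s).2 hs) ?_ ((hbad l s).2 hb)
    exact (h.forall_iff l (fun a => a = s) (fun a => a = (s : ℕ))
      (fun a => by simp only [Fin.ext_iff])).2 ha
  · intro h1 l hl s hs h2 h3 h4
    refine h1 ⟨l, hl⟩ ⟨s, hs⟩ ((h.rL_iff ⟨l, hl⟩ ⟨s, hs⟩).1 h2) ?_ ((hbad ⟨l, hl⟩ ⟨s, hs⟩).1 h4)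
    exact (h.forall_iff ⟨l, hl⟩ (fun a => a = ⟨s, hs⟩) (fun a => a = s)
      (fun a => by simp only [Fin.ext_iff])).1 h3

end

/-- A polynomial time algorithm for tree 3-spanners on chordal graphs. -/
theorem exists_three : ∃ f : List Bool → List Bool, PTC f ∧
    ∀ (N : ℕ) (G : SimpleGraph (Fin N)), G.Connected → IsChordal G →
      (f (encodeGraph G) = [true] ∨ f (encodeGraph G) = [false]) ∧
      (f (encodeGraph G) = [true] ↔ ∃ T, IsTreeSpanner 3 G T) := by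
  obtain ⟨f, hf, h⟩ := exists_alg
  refine ⟨f, hf, fun N G hG hc => ?_⟩
  obtain ⟨n, m, x, y, hx0, hxs, hxn, hy0, hys, hym, hacc, hout⟩ :=
    h N (encodeGraph G) (encodeGraph_length G)
  refine ⟨hout, ?_⟩
  obtain ⟨π, hπ⟩ := exists_good hc hx0 hxs hxn
  have hinv : ∀ i, Inv2 G π (y i) := by
    intro i
    induction i with
    | zero => exact hy0 ▸ hπ.inv2
    | succ i ih =>
      rw [hys]
      exact ih.next
  rw [hacc, (hinv m).accept_iff (by rw [← hys, hym]), exists_iff hG hπ.peo]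

end Pool.Agent.TSP94
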