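import Pool.Agent.TSP94.HornA
import Pool.Agent.TSP94.Classes

/-!
# Recognising codes, distances and chordality
-/

set_option autoImplicit false

namespace Pool.Agent.TSP94

open SimpleGraph
open Pool.Agent.PTL Pool.Agent.TSpan94
open Pool.Agent.TSpan33 (IsChordal IsTreeSpanner)

/-- The codes of the connected chordal graphs of diameter at most `D` with a tree `t`-spanner
(`D = ⊤`: the diameter is not restricted). -/
def TreeSpannerLang (t : ℕ) (D : ℕ∞) : Set (List Bool) :=
  {w | ∃ (N : ℕ) (G : SimpleGraph (Fin N)), w = encodeGraph G ∧ G.Connected ∧ IsChordal G ∧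
    (∀ u v, (G.dist u v : ℕ∞) ≤ D) ∧ ∃ T, IsTreeSpanner t G T}

/-- The bits `B` are `N` in unary followed by a symmetric matrix with empty diagonal. -/
def IsCode (N : ℕ) (B : ℕ → Prop) : Prop :=
  ((∀ i < N, B i) ∧ ¬ B N) ∧ ∀ a < N, ∀ b < N,
    (B (N + 1 + (a * N + b)) → B (N + 1 + (b * N + a))) ∧ ¬ B (N + 1 + (a * N + a))

theorem encodeGraph_unary {N : ℕ} (G : SimpleGraph (Fin N)) :
    (∀ i < N, (encodeGraph G).getD i false = true) ∧ ¬ (encodeGraph G).getD N false = true := by
  have := unary_append [] ((List.finRange N).flatMap fun i => (List.finRange N).map fun j =>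
    (open Classical in decide (G.Adj i j))) N
  simpa [Unary, encodeGraph] using this

theorem isCode_encodeGraph {N : ℕ} (G : SimpleGraph (Fin N)) :
    IsCode N (fun i => (encodeGraph G).getD i false = true) := by
  refine ⟨encodeGraph_unary G, fun a ha b hb => ⟨fun h => ?_, fun h => ?_⟩⟩
  · exact (encodeGraph_bit G ⟨b, hb⟩ ⟨a, ha⟩).2
      ((encodeGraph_bit G ⟨a, ha⟩ ⟨b, hb⟩).1 h).symm
  · exact G.loopless.irrefl _ ((encodeGraph_bit G ⟨a, ha⟩ ⟨a, ha⟩).1 h)

theorem exists_graph {N : ℕ} {w : List Bool} (hl : w.length = N + 1 + N * N)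
    (h : IsCode N (fun i => w.getD i false = true)) :
    ∃ G : SimpleGraph (Fin N), w = encodeGraph G := by
  obtain ⟨⟨h1, h2⟩, h3⟩ := h
  let G : SimpleGraph (Fin N) :=
    { Adj := fun a b => w.getD (N + 1 + ((a : ℕ) * N + b)) false = true
      symm := ⟨fun a b hab => (h3 a a.2 b b.2).1 hab⟩
      loopless := ⟨fun a => (h3 a a.2 a a.2).2⟩ }
  refine ⟨G, ?_⟩
  have hlen : w.length = (encodeGraph G).length := by rw [hl, encodeGraph_length]
  have key : ∀ i < w.length, (w.getD i false = true ↔ (encodeGraph G).getD i false = true) := by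
    intro i hi
    rcases lt_trichotomy i N with hiN | rfl | hiN
    · exact ⟨fun _ => (encodeGraph_unary G).1 i hiN, fun _ => h1 i hiN⟩
    · exact ⟨fun h => absurd h h2, fun h => absurd h (encodeGraph_unary G).2⟩
    · have hN : 0 < N := by
        rcases Nat.eq_zero_or_pos N with rfl | h
        · omega
        · exact h
      set j := i - (N + 1) with hj
      have hij : i = N + 1 + (j / N * N + j % N) := by
        rw [Nat.div_add_mod']
        omega
      have ha : j / N < N := (Nat.div_lt_iff_lt_mul hN).2 (by omega)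
      have hb : j % N < N := Nat.mod_lt _ hN
      rw [hij]
      exact (encodeGraph_bit G ⟨j / N, ha⟩ ⟨j % N, hb⟩).symm
  apply List.ext_getElem hlen
  intro i hi hi'
  have := key i hi
  rw [List.getD_eq_getElem _ _ hi, List.getD_eq_getElem _ _ hi'] at this
  exact Bool.eq_iff_iff.2 this

/-- There is a walk with at most `s` edges. -/
def rR (A : ℕ → ℕ → Prop) (N : ℕ) : ℕ → ℕ → ℕ → Prop
  | 0, u, v => u = v
  | s + 1, u, v => rR A N s u v ∨ ∃ c < N, rR A N s u c ∧ A c v

theorem rR_iff {N : ℕ} {G : SimpleGraph (Fin N)} {A : ℕ → ℕ → Prop}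
    (hA : ∀ a b : Fin N, A a b ↔ G.Adj a b) (u : Fin N) : ∀ (s : ℕ) (v : Fin N),
      rR A N s u v ↔ ∃ p : G.Walk u v, p.length ≤ s := by
  intro s
  induction s with
  | zero =>
    intro v
    simp only [rR]
    constructor
    · intro h
      obtain rfl := Fin.ext h
      exact ⟨.nil, le_rfl⟩
    · rintro ⟨p, hp⟩
      rw [p.eq_of_length_eq_zero (by omega)]
  | succ s ih =>
    intro v
    simp only [rR]
    constructor
    · rintro (h | ⟨c, hc, h, h'⟩)
      · obtain ⟨p, hp⟩ := (ih v).1 h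
        exact ⟨p, by omega⟩
      · obtain ⟨p, hp⟩ := (ih ⟨c, hc⟩).1 h
        refine ⟨p.concat ((hA ⟨c, hc⟩ v).1 h'), ?_⟩
        rw [Walk.length_concat]
        omega
    · rintro ⟨p, hp⟩
      obtain ⟨q, hq⟩ : ∃ q : G.Walk v u, q.length ≤ s + 1 := ⟨p.reverse, by simpa using hp⟩
      cases q with
      | nil => exact Or.inl ((ih u).2 ⟨.nil, Nat.zero_le _⟩)
      | cons h q =>
        rename_i c
        rw [Walk.length_cons] at hq
        exact Or.inr ⟨c, c.2, (ih c).2 ⟨q.reverse, by rw [Walk.length_reverse]; omega⟩,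
          (hA c v).2 h.symm⟩

/-- The test for the diameter. -/
def diamT (D : ℕ∞) (N : ℕ) (A : ℕ → ℕ → Prop) : Prop :=
  ∀ d : ℕ, D = d → ∀ u < N, ∀ v < N, rR A N d u v

theorem diamT_iff {N : ℕ} {G : SimpleGraph (Fin N)} {A : ℕ → ℕ → Prop}
    (hA : ∀ a b : Fin N, A a b ↔ G.Adj a b) (hG : G.Connected) (D : ℕ∞) :
    diamT D N A ↔ ∀ u v, (G.dist u v : ℕ∞) ≤ D := by
  induction D using ENat.recTopCoe with
  | top => simp [diamT]
  | coe d =>
    constructor
    · intro h u v
      obtain ⟨p, hp⟩ := (rR_iff hA u d v).1 (h d rfl u u.2 v v.2)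
      exact_mod_cast (dist_le p).trans hp
    · intro h d' hd a ha b hb
      obtain rfl : d = d' := by exact_mod_cast hd
      obtain ⟨p, hp⟩ := hG.exists_walk_length_eq_dist ⟨a, ha⟩ ⟨b, hb⟩
      refine (rR_iff hA ⟨a, ha⟩ d ⟨b, hb⟩).2 ⟨p, ?_⟩
      rw [hp]
      exact_mod_cast h ⟨a, ha⟩ ⟨b, hb⟩

theorem isT_rR {k : ℕ} {A : (ℕ → ℕ) → List Bool → ℕ → ℕ → Prop} {N : (ℕ → ℕ) → ℕ}
    (hN : IsE k N)
    (hA : ∀ k', k ≤ k' → ∀ a b, IsE k' a → IsE k' b →
      IsT k' (fun w env => A env w (a env) (b env))) (s : ℕ) :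
    ∀ k', k ≤ k' → ∀ u v, IsE k' u → IsE k' v →
      IsT k' (fun w env => rR (A env w) (N env) s (u env) (v env)) := by
  induction s with
  | zero => exact fun k' _ u v hu hv => IsT.eq hu hv
  | succ s ih =>
    intro k' hk u v hu hv
    refine (ih k' hk u v hu hv).or (IsT.ex (hN.mono hk) fun k'' hk' c hc => ?_)
    exact (ih k'' (hk.trans hk') u c (hu.mono hk') hc).and
      (hA k'' (hk.trans hk') c v hc (hv.mono hk'))

theorem isT_diamT {k : ℕ} {A : (ℕ → ℕ) → List Bool → ℕ → ℕ → Prop} {N : (ℕ → ℕ) → ℕ}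
    (hN : IsE k N)
    (hA : ∀ k', k ≤ k' → ∀ a b, IsE k' a → IsE k' b →
      IsT k' (fun w env => A env w (a env) (b env))) (D : ℕ∞) :
    IsT k (fun w env => diamT D (N env) (A env w)) := by
  induction D using ENat.recTopCoe with
  | top => exact (IsT.const True).congr fun w env => by simp [diamT]
  | coe d =>
    refine IsT.congr (φ := fun w env => ∀ u < N env, ∀ v < N env, rR (A env w) (N env) d u v)
      (IsT.all hN fun k₁ h₁ u hu => IsT.all (hN.mono h₁) fun k₂ h₂ v hv =>
        isT_rR hN hA d k₂ (h₁.trans h₂) u v (hu.mono h₂) hv) fun w env => ?_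
    constructor
    · exact fun h => h d rfl
    · intro h d' hd
      obtain rfl : d = d' := by exact_mod_cast hd
      exact h

theorem isT_isCode {k : ℕ} {B : (ℕ → ℕ) → List Bool → ℕ → Prop} {N : (ℕ → ℕ) → ℕ} (hN : IsE k N)
    (hB : ∀ k', k ≤ k' → ∀ a, IsE k' a → IsT k' (fun w env => B env w (a env))) :
    IsT k (fun w env => IsCode (N env) (B env w)) := by
  refine ((IsT.all hN fun k' h i hi => hB k' h i hi).and (hB k le_rfl _ hN).not).and
    (IsT.all hN fun k₁ h₁ a ha => IsT.all (hN.mono h₁) fun k₂ h₂ b hb => ?_)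
  have hN' := hN.mono (h₁.trans h₂)
  have ha' := ha.mono h₂
  exact ((hB k₂ (h₁.trans h₂) _ ((hN'.add (IsE.const 1)).add ((ha'.mul hN').add hb))).imp
    (hB k₂ (h₁.trans h₂) _ ((hN'.add (IsE.const 1)).add ((hb.mul hN').add ha')))).and
    (hB k₂ (h₁.trans h₂) _ ((hN'.add (IsE.const 1)).add ((ha'.mul hN').add ha'))).not

theorem isChordal_of_peo {V : Type*} {G : SimpleGraph V} {π : V → ℕ} (h : IsPEO G π) :
    IsChordal G := by
  apply TSpan33.HasRk.isChordal
  refine ⟨π, fun v u u' h1 h2 h3 h4 h5 => h.2 v u u' ⟨h1, ?_⟩ ⟨h2, ?_⟩ h5⟩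
  · exact lt_of_le_of_ne h3 fun e => h1.ne (h.1 e)
  · exact lt_of_le_of_ne h4 fun e => h2.ne (h.1 e)

/-- In a connected graph with a perfect elimination order, a vertex without later neighbours is
the last one. -/
theorem last_of_peo {V : Type*} {G : SimpleGraph V} {π : V → ℕ} (hπ : IsPEO G π)
    (hG : G.Connected) {r : V} (hr : ∀ a, ¬ Later G π r a) (w : V) : π w ≤ π r := by
  have hwalk : ∀ (u w : V) (P : G.Walk u w), Below G π u r → Below G π w r := by
    intro u w P
    induction P with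
    | nil => exact id
    | cons h Q ih =>
      intro hu
      rcases below_adj hπ hu h with h' | h'
      · exact ih h'
      · exact absurd h' (hr _)
  obtain ⟨P⟩ := hG.preconnected r w
  exact below_le (hwalk r w P Relation.ReflTransGen.refl)

theorem connected_of_last {V : Type*} [Finite V] [Nonempty V] {G : SimpleGraph V} {π : V → ℕ}
    (hπ : Function.Injective π) (h : ∀ r, (∀ a, ¬ Later G π r a) → ∀ w, π w ≤ π r) :
    G.Connected := by
  obtain ⟨r, hr⟩ := Finite.exists_max π
  have key : ∀ n : ℕ, ∀ v : V, π r - π v ≤ n → G.Reachable v r := by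
    intro n
    induction n with
    | zero =>
      intro v hv
      have := hr v
      rw [hπ (show π v = π r by omega)]
    | succ n ih =>
      intro v hv
      by_cases hl : ∀ a, ¬ Later G π v a
      · have h1 := h v hl r
        have h2 := hr v
        rw [hπ (le_antisymm h2 h1)]
      · push Not at hl
        obtain ⟨a, ha⟩ := hl
        refine ha.1.reachable.trans (ih a ?_)
        have h1 := ha.2
        have h2 := hr a
        omega
  exact ⟨fun u v => (key _ u le_rfl).trans (key _ v le_rfl).symm⟩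

theorem encodeGraph_inj {N N' : ℕ} {G : SimpleGraph (Fin N)} {G' : SimpleGraph (Fin N')}
    (h : encodeGraph G = encodeGraph G') : ∃ e : N = N', e ▸ G = G' := by
  have hN : N = N' := by
    have h1 := encodeGraph_unary G
    have h2 := encodeGraph_unary G'
    rw [← h] at h2
    rcases lt_trichotomy N N' with hlt | he | hlt
    · exact absurd (h2.1 N hlt) h1.2
    · exact he
    · exact absurd (h1.1 N' hlt) h2.2
  subst hN
  refine ⟨rfl, ?_⟩
  ext a b
  rw [← encodeGraph_bit, h, encodeGraph_bit]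

theorem mem_treeSpannerLang {t N : ℕ} {D : ℕ∞} (G : SimpleGraph (Fin N)) :
    encodeGraph G ∈ TreeSpannerLang t D ↔ G.Connected ∧ IsChordal G ∧
      (∀ u v, (G.dist u v : ℕ∞) ≤ D) ∧ ∃ T, IsTreeSpanner t G T := by
  constructor
  · rintro ⟨N', G', h, h'⟩
    obtain ⟨rfl, rfl⟩ := encodeGraph_inj h
    exact h'
  · exact fun h => ⟨N, G, rfl, h⟩

end Pool.Agent.TSP94
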