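import Pool.Agent.TSP94.Langs

/-!
# The restricted tree spanner problems are in NP
-/

set_option autoImplicit false

namespace Pool.Agent.TSP94

open SimpleGraph
open Pool.Agent.PTL Pool.Agent.TSpan94
open Pool.Agent.TSpan33 (IsChordal IsTreeSpanner)

/-! ### pairs -/

theorem pair_length (w c : List Bool) : (pair w c).length = 2 * w.length + 1 + c.length := by
  simp only [pair, List.length_append, List.length_flatMap, List.length_cons, List.length_nil,
    List.map_const', List.sum_replicate, smul_eq_mul]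
  ring

theorem flatMap_two_length (w : List Bool) :
    (w.flatMap fun b => [true, b]).length = w.length * 2 := by
  simp only [List.length_flatMap, List.length_cons, List.length_nil,
    List.map_const', List.sum_replicate, smul_eq_mul]

theorem pair_even (w c : List Bool) {i : ℕ} (hi : i < w.length) :
    (pair w c).getD (2 * i) false = true := by
  unfold pair
  rw [List.getD_append _ _ _ _ (by rw [flatMap_two_length]; omega),
    show 2 * i = i * 2 + 0 by ring,
    list_flatMap_getD 2 (fun b => [true, b]) (fun _ => rfl) w i 0 hi (by norm_num)]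
  rfl

theorem pair_odd (w c : List Bool) {i : ℕ} (hi : i < w.length) :
    (pair w c).getD (2 * i + 1) false = w.getD i false := by
  unfold pair
  rw [List.getD_append _ _ _ _ (by rw [flatMap_two_length]; omega),
    show 2 * i + 1 = i * 2 + 1 by ring,
    list_flatMap_getD 2 (fun b => [true, b]) (fun _ => rfl) w i 1 hi (by norm_num),
    List.getD_eq_getElem _ _ hi]
  rfl

theorem pair_mid (w c : List Bool) : ¬ (pair w c).getD (2 * w.length) false = true := by
  unfold pair
  rw [List.getD_append_right _ _ _ _ (by rw [flatMap_two_length]; omega), flatMap_two_length,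
    show 2 * w.length - w.length * 2 = 0 by omega]
  simp

theorem pair_right (w c : List Bool) (j : ℕ) :
    (pair w c).getD (2 * w.length + 1 + j) false = c.getD j false := by
  unfold pair
  rw [List.getD_append_right _ _ _ _ (by rw [flatMap_two_length]; omega), flatMap_two_length,
    show 2 * w.length + 1 + j - w.length * 2 = j + 1 by omega, List.getD_cons_succ]

/-! ### the conditions -/

/-- Adjacency in the tree with the parent relation `PT` and the root `r`. -/
def TT (PT : ℕ → ℕ → Prop) (r a b : ℕ) : Prop := (a ≠ r ∧ PT a b) ∨ (b ≠ r ∧ PT b a)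

/-- `PT` and `LT` certify a tree `t`-spanner. -/
def TreeC (N : ℕ) (A PT LT : ℕ → ℕ → Prop) (t : ℕ) : Prop :=
  ∃ r < N, (∀ v < N, v ≠ r → ∃ b < N, PT v b ∧ A v b ∧ LT b v ∧ ∀ b' < N, PT v b' → b' = b) ∧
    (∀ a < N, ¬ LT a a) ∧ (∀ a < N, ∀ b < N, ∀ c < N, LT a b → LT b c → LT a c) ∧
    (∀ a < N, ∀ b < N, A a b → rR (TT PT r) N t a b)

/-- `OT` certifies that the graph is chordal. -/
def ChordC (N : ℕ) (A OT : ℕ → ℕ → Prop) : Prop :=
  (∀ a < N, ¬ OT a a) ∧ (∀ a < N, ∀ b < N, ∀ c < N, OT a b → OT b c → OT a c) ∧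
    (∀ a < N, ∀ b < N, a ≠ b → OT a b ∨ OT b a) ∧
    ∀ j < N, ∀ a < N, ∀ b < N, A j a → OT j a → A j b → OT j b → a ≠ b → A a b

theorem card_rank {N : ℕ} {R : ℕ → ℕ → Prop} (h1 : ∀ a < N, ¬ R a a)
    (h2 : ∀ a < N, ∀ b < N, ∀ c < N, R a b → R b c → R a c) :
    ∃ rk : Fin N → ℕ, ∀ a b : Fin N, R a b → rk a < rk b := by
  classical
  refine ⟨fun v => (Finset.univ.filter fun u : Fin N => R u v).card, fun a b hab => ?_⟩
  apply Finset.card_lt_card
  refine Finset.ssubset_iff_subset_ne.2 ⟨fun u hu => ?_, fun he => ?_⟩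
  · simp only [Finset.mem_filter, Finset.mem_univ, true_and] at hu ⊢
    exact h2 u u.2 a a.2 b b.2 hu hab
  · have : a ∈ Finset.univ.filter fun u : Fin N => R u b := by simpa using hab
    rw [← he] at this
    simp only [Finset.mem_filter, Finset.mem_univ, true_and] at this
    exact h1 a a.2 this

theorem chordC_sound {N : ℕ} {G : SimpleGraph (Fin N)} {A OT : ℕ → ℕ → Prop}
    (hA : ∀ a b : Fin N, A a b ↔ G.Adj a b) (h : ChordC N A OT) : IsChordal G := by
  obtain ⟨h1, h2, h3, h4⟩ := h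
  obtain ⟨π, hπ⟩ := card_rank h1 h2
  have hlt : ∀ a b : Fin N, a ≠ b → (OT a b ∨ OT b a) := fun a b hab =>
    h3 a a.2 b b.2 fun e => hab (Fin.ext e)
  have hiff : ∀ a b : Fin N, π a < π b → OT a b := by
    intro a b hab
    rcases hlt a b (fun e => by rw [e] at hab; exact lt_irrefl _ hab) with h | h
    · exact h
    · exact absurd (hπ b a h) (not_lt.2 hab.le)
  refine isChordal_of_peo (π := π) ⟨fun a b hab => ?_, fun j a b ha hb hab => ?_⟩
  · by_contra hne
    rcases hlt a b hne with h | h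
    · exact absurd (hπ a b h) (not_lt.2 hab.ge)
    · exact absurd (hπ b a h) (not_lt.2 hab.le)
  · exact (hA a b).1 (h4 j j.2 a a.2 b b.2 ((hA j a).2 ha.1) (hiff j a ha.2) ((hA j b).2 hb.1)
      (hiff j b hb.2) fun e => hab (Fin.ext e))

theorem dist_le_mul {V : Type*} {G T : SimpleGraph V} {t : ℕ} (hG : G.Connected)
    (hT : T.Connected) (h : ∀ u v, G.Adj u v → T.dist u v ≤ t) (u v : V) :
    T.dist u v ≤ t * G.dist u v := by
  obtain ⟨P, hP⟩ := hG.exists_walk_length_eq_dist u v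
  rw [← hP]
  clear hP
  induction P with
  | nil => simp
  | cons h1 Q ih =>
    rename_i a b c
    have h2 := h _ _ h1
    have h3 : T.dist a c ≤ T.dist a b + T.dist b c := hT.dist_triangle
    rw [Walk.length_cons, mul_add, mul_one]
    omega

theorem treeC_sound {N t : ℕ} {G : SimpleGraph (Fin N)} {A PT LT : ℕ → ℕ → Prop}
    (hA : ∀ a b : Fin N, A a b ↔ G.Adj a b) (h : TreeC N A PT LT t) :
    G.Connected ∧ ∃ T, IsTreeSpanner t G T := by
  classical
  obtain ⟨r, hr, h1, h2, h3, h4⟩ := h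
  obtain ⟨rk, hrk⟩ := card_rank h2 h3
  have h1' : ∀ v : Fin N, v ≠ ⟨r, hr⟩ → ∃ b : Fin N, PT v b ∧ G.Adj v b ∧ LT b v ∧
      ∀ b' : Fin N, PT v b' → b' = b := by
    intro v hv
    obtain ⟨b, hb, h5, h6, h7, h8⟩ := h1 v v.2 fun e => hv (Fin.ext e)
    exact ⟨⟨b, hb⟩, h5, (hA v ⟨b, hb⟩).1 h6, h7, fun b' hb' => Fin.ext (h8 b' b'.2 hb')⟩
  choose! p hp using h1'
  have hne : ∀ a : Fin N, a ≠ ⟨r, hr⟩ ↔ (a : ℕ) ≠ r := fun a => by
    rw [ne_eq, Fin.ext_iff]
  have hadj : ∀ a b : Fin N, TT PT r a b ↔ (parGraph p ⟨r, hr⟩).Adj a b := by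
    intro a b
    have key : ∀ a b : Fin N, ((a : ℕ) ≠ r ∧ PT a b) ↔ (a ≠ ⟨r, hr⟩ ∧ p a = b) := by
      intro a b
      rw [hne]
      refine and_congr_right fun ha => ⟨fun h => ?_, fun h => ?_⟩
      · exact ((hp a ((hne a).2 ha)).2.2.2 b h).symm
      · rw [← h]
        exact (hp a ((hne a).2 ha)).1
    unfold TT parGraph
    rw [key a b, key b a]
    constructor
    · intro h
      refine ⟨?_, h⟩
      rintro rfl
      rcases h with ⟨h, h'⟩ | ⟨h, h'⟩
      · have := (hp a h).2.1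
        rw [h'] at this
        exact G.loopless.irrefl _ this
      · have := (hp a h).2.1
        rw [h'] at this
        exact G.loopless.irrefl _ this
    · exact fun h => h.2
  have htree : (parGraph p ⟨r, hr⟩).IsTree := by
    refine parGraph_tree p ⟨r, hr⟩ rk fun w hw => ?_
    obtain ⟨-, h6, h7, -⟩ := hp w hw
    exact ⟨h6.ne', Or.inr (hrk _ _ h7)⟩
  have hle : parGraph p ⟨r, hr⟩ ≤ G := by
    intro a b hab
    rcases hab.2 with ⟨h, h'⟩ | ⟨h, h'⟩
    · rw [← h']
      exact (hp a h).2.1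
    · rw [← h']
      exact (hp b h).2.1.symm
  have hG : G.Connected := htree.connected.mono hle
  refine ⟨hG, parGraph p ⟨r, hr⟩, hle, htree, ?_⟩
  · refine dist_le_mul hG htree.connected fun u v huv => ?_
    obtain ⟨q, hq⟩ := (rR_iff (G := parGraph p ⟨r, hr⟩) hadj u t v).1
      (h4 u u.2 v v.2 ((hA u v).2 huv))
    exact (dist_le q).trans hq

theorem treeC_complete {N t : ℕ} {G : SimpleGraph (Fin N)} {A : ℕ → ℕ → Prop}
    (hA : ∀ a b : Fin N, A a b ↔ G.Adj a b) {T : SimpleGraph (Fin N)}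
    (h : IsTreeSpanner t G T) : ∃ PT LT : ℕ → ℕ → Prop, TreeC N A PT LT t := by
  classical
  obtain ⟨hTG, hT, hd⟩ := h
  obtain ⟨r⟩ := hT.connected.nonempty
  have h1 : ∀ v : Fin N, v ≠ r → ∃ b, T.Adj v b ∧ T.dist r v = T.dist r b + 1 := fun v hv =>
    exists_closer hT.connected hv.symm
  choose! p hp using h1
  have htree : (parGraph p r).IsTree := by
    refine parGraph_tree p r (fun v => T.dist r v) fun w hw => ?_
    obtain ⟨h1, h2⟩ := hp w hw
    exact ⟨h1.ne', Or.inr (by omega)⟩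
  have hle : parGraph p r ≤ T := by
    intro a b hab
    rcases hab.2 with ⟨h, h'⟩ | ⟨h, h'⟩
    · rw [← h']
      exact (hp a h).1
    · rw [← h']
      exact (hp b h).1.symm
  have heq : T ≤ parGraph p r := (isTree_iff_minimal_connected.1 hT).2 htree.connected hle
  let q : ℕ → ℕ := fun v => if h : v < N then p ⟨v, h⟩ else v
  have hq : ∀ v : Fin N, q v = p v := fun v => by simp [q]
  let dr : ℕ → ℕ := fun v => if h : v < N then T.dist r ⟨v, h⟩ else 0
  have hdr : ∀ v : Fin N, dr v = T.dist r v := fun v => by simp [dr]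
  refine ⟨fun a b => b = q a, fun a b => dr a < dr b, r, r.2, ?_, fun a _ => lt_irrefl _,
    fun a _ b _ c _ => lt_trans, ?_⟩
  · intro v hv hvr
    have hvr' : (⟨v, hv⟩ : Fin N) ≠ r := fun e => hvr (by rw [← e])
    obtain ⟨h1, h2⟩ := hp ⟨v, hv⟩ hvr'
    refine ⟨p ⟨v, hv⟩, (p ⟨v, hv⟩).2, (hq ⟨v, hv⟩).symm, (hA ⟨v, hv⟩ _).2 (hTG h1), ?_,
      fun b' _ hb' => hb'.trans (hq ⟨v, hv⟩)⟩
    have h3 := hdr ⟨v, hv⟩
    have h4 := hdr (p ⟨v, hv⟩)
    show dr _ < dr v
    rw [h4, show dr v = _ from h3]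
    omega
  · intro a ha b hb hab
    have hadj : ∀ a b : Fin N, TT (fun a b => b = q a) r a b ↔ T.Adj a b := by
      intro a b
      have hn : ∀ a : Fin N, (a : ℕ) ≠ r ↔ a ≠ r := fun a => by rw [ne_eq, Fin.val_inj]
      unfold TT
      beta_reduce
      rw [hq, hq, hn, hn, Fin.val_inj, Fin.val_inj]
      constructor
      · rintro (⟨h1, h2⟩ | ⟨h1, h2⟩)
        · rw [h2]
          exact (hp a h1).1
        · rw [h2]
          exact (hp b h1).1.symm
      · intro h
        rcases (heq h).2 with ⟨h1, h2⟩ | ⟨h1, h2⟩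
        · exact Or.inl ⟨h1, h2.symm⟩
        · exact Or.inr ⟨h1, h2.symm⟩
    have hG' : G.Adj ⟨a, ha⟩ ⟨b, hb⟩ := (hA ⟨a, ha⟩ ⟨b, hb⟩).1 hab
    obtain ⟨P, hP⟩ := hT.connected.exists_walk_length_eq_dist ⟨a, ha⟩ ⟨b, hb⟩
    refine (rR_iff hadj ⟨a, ha⟩ t ⟨b, hb⟩).2 ⟨P, ?_⟩
    rw [hP]
    have := hd ⟨a, ha⟩ ⟨b, hb⟩
    rw [dist_eq_one_iff_adj.2 hG'] at this
    omega

theorem chordC_complete {N : ℕ} {G : SimpleGraph (Fin N)} {A : ℕ → ℕ → Prop}
    (hA : ∀ a b : Fin N, A a b ↔ G.Adj a b) (h : IsChordal G) : ∃ OT : ℕ → ℕ → Prop,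
      ChordC N A OT := by
  obtain ⟨π, hπ⟩ := exists_peo h
  let q : ℕ → ℕ := fun v => if h : v < N then π ⟨v, h⟩ else 0
  have hq : ∀ v (hv : v < N), q v = π ⟨v, hv⟩ := fun v hv => by simp [q, hv]
  refine ⟨fun a b => q a < q b, fun a _ => lt_irrefl _, fun a _ b _ c _ => lt_trans, ?_, ?_⟩
  · intro a ha b hb hab
    beta_reduce
    rw [hq a ha, hq b hb]
    exact lt_or_gt_of_ne fun e => hab (Fin.mk.inj (hπ.1 e))
  · intro j hj a ha b hb h1 h2 h3 h4 hab
    rw [hq j hj, hq a ha] at h2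
    rw [hq j hj, hq b hb] at h4
    exact (hA ⟨a, ha⟩ ⟨b, hb⟩).2 (hπ.2 ⟨j, hj⟩ ⟨a, ha⟩ ⟨b, hb⟩ ⟨(hA ⟨j, hj⟩ ⟨a, ha⟩).1 h1, h2⟩
      ⟨(hA ⟨j, hj⟩ ⟨b, hb⟩).1 h3, h4⟩ fun e => hab (Fin.mk.inj e))

/-! ### the verifier -/

/-- Length of the code of a graph. -/
def lc (N : ℕ) : ℕ := N + 1 + N * N

/-- The bits of the first word of the pair. -/
def vB (W : List Bool) (i : ℕ) : Prop := W.getD (2 * i + 1) false = true

/-- The adjacency relation. -/
def vA (N : ℕ) (W : List Bool) (a b : ℕ) : Prop := vB W (N + 1 + (a * N + b))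

/-- The three relations of the certificate. -/
def vC (q N : ℕ) (W : List Bool) (a b : ℕ) : Prop :=
  W.getD (2 * lc N + 1 + (q * (N * N) + (a * N + b))) false = true

/-- The test of the verifier. -/
def VT (t : ℕ) (D : ℕ∞) (N : ℕ) (W : List Bool) : Prop :=
  ((∀ i < lc N, W.getD (2 * i) false = true) ∧ ¬ W.getD (2 * lc N) false = true) ∧
    IsCode N (vB W) ∧ diamT D N (vA N W) ∧
    ChordC N (vA N W) (vC 2 N W) ∧ TreeC N (vA N W) (vC 0 N W) (vC 1 N W) t

section tests

variable {k : ℕ} {N a b i : (ℕ → ℕ) → ℕ}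

theorem isE_lc (hN : IsE k N) : IsE k (fun env => lc (N env)) :=
  (hN.add (IsE.const 1)).add (hN.mul hN)

theorem isT_vB (hi : IsE k i) : IsT k (fun w env => vB w (i env)) :=
  IsT.bit (((IsE.const 2).mul hi).add (IsE.const 1))

theorem isT_vA (hN : IsE k N) (ha : IsE k a) (hb : IsE k b) :
    IsT k (fun w env => vA (N env) w (a env) (b env)) :=
  isT_vB ((hN.add (IsE.const 1)).add ((ha.mul hN).add hb))

theorem isT_vC (q : ℕ) (hN : IsE k N) (ha : IsE k a) (hb : IsE k b) :
    IsT k (fun w env => vC q (N env) w (a env) (b env)) :=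
  IsT.bit ((((IsE.const 2).mul (isE_lc hN)).add (IsE.const 1)).add
    (((IsE.const q).mul (hN.mul hN)).add ((ha.mul hN).add hb)))

theorem isT_chordC (hN : IsE k N) :
    IsT k (fun w env => ChordC (N env) (vA (N env) w) (vC 2 (N env) w)) := by
  refine (IsT.all hN fun k₁ h₁ a ha => (isT_vC 2 (hN.mono h₁) ha ha).not).and
    ((IsT.all hN fun k₁ h₁ a ha => IsT.all (hN.mono h₁) fun k₂ h₂ b hb =>
      IsT.all (hN.mono (h₁.trans h₂)) fun k₃ h₃ c hc => ?_).and
    ((IsT.all hN fun k₁ h₁ a ha => IsT.all (hN.mono h₁) fun k₂ h₂ b hb => ?_).and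
    (IsT.all hN fun k₁ h₁ j hj => IsT.all (hN.mono h₁) fun k₂ h₂ a ha =>
      IsT.all (hN.mono (h₁.trans h₂)) fun k₃ h₃ b hb => ?_)))
  · have hN' := hN.mono ((h₁.trans h₂).trans h₃)
    have ha' := ha.mono (h₂.trans h₃)
    have hb' := hb.mono h₃
    exact (isT_vC 2 hN' ha' hb').imp ((isT_vC 2 hN' hb' hc).imp (isT_vC 2 hN' ha' hc))
  · have hN' := hN.mono (h₁.trans h₂)
    have ha' := ha.mono h₂
    exact (IsT.ne ha' hb).imp ((isT_vC 2 hN' ha' hb).or (isT_vC 2 hN' hb ha'))
  · have hN' := hN.mono ((h₁.trans h₂).trans h₃)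
    have hj' := hj.mono (h₂.trans h₃)
    have ha' := ha.mono h₃
    exact (isT_vA hN' hj' ha').imp ((isT_vC 2 hN' hj' ha').imp ((isT_vA hN' hj' hb).imp
      ((isT_vC 2 hN' hj' hb).imp ((IsT.ne ha' hb).imp (isT_vA hN' ha' hb)))))

theorem isT_treeC (t : ℕ) (hN : IsE k N) :
    IsT k (fun w env => TreeC (N env) (vA (N env) w) (vC 0 (N env) w) (vC 1 (N env) w) t) := by
  refine IsT.ex hN fun k₀ h₀ r hr => ?_
  have hN := hN.mono h₀
  refine IsT.and (IsT.all hN fun k₁ h₁ v hv => (IsT.ne hv (hr.mono h₁)).imp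
    (IsT.ex (hN.mono h₁) fun k₂ h₂ b hb => ?_))
    (((IsT.all hN fun k₁ h₁ a ha => (isT_vC 1 (hN.mono h₁) ha ha).not)).and
    ((IsT.all hN fun k₁ h₁ a ha => IsT.all (hN.mono h₁) fun k₂ h₂ b hb =>
      IsT.all (hN.mono (h₁.trans h₂)) fun k₃ h₃ c hc => ?_).and
    (IsT.all hN fun k₁ h₁ a ha => IsT.all (hN.mono h₁) fun k₂ h₂ b hb => ?_)))
  · have hN' := hN.mono (h₁.trans h₂)
    have hv' := hv.mono h₂
    exact (isT_vC 0 hN' hv' hb).and ((isT_vA hN' hv' hb).and ((isT_vC 1 hN' hb hv').and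
      (IsT.all hN' fun k₃ h₃ b' hb' => (isT_vC 0 (hN'.mono h₃) (hv'.mono h₃) hb').imp
        (IsT.eq hb' (hb.mono h₃)))))
  · have hN' := hN.mono ((h₁.trans h₂).trans h₃)
    have ha' := ha.mono (h₂.trans h₃)
    have hb' := hb.mono h₃
    exact (isT_vC 1 hN' ha' hb').imp ((isT_vC 1 hN' hb' hc).imp (isT_vC 1 hN' ha' hc))
  · have hN' := hN.mono (h₁.trans h₂)
    have ha' := ha.mono h₂
    refine (isT_vA hN' ha' hb).imp ?_
    refine isT_rR (A := fun env w => TT (vC 0 (N env) w) (r env)) hN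
      (fun k' hk a b ha hb => ?_) t k₂ (h₁.trans h₂) a b ha' hb
    exact ((IsT.ne ha (hr.mono hk)).and (isT_vC 0 (hN.mono hk) ha hb)).or
      ((IsT.ne hb (hr.mono hk)).and (isT_vC 0 (hN.mono hk) hb ha))

theorem isT_VT (t : ℕ) (D : ℕ∞) (hN : IsE k N) : IsT k (fun w env => VT t D (N env) w) := by
  refine IsT.and ((IsT.all (isE_lc hN) fun k' h i hi => IsT.bit ((IsE.const 2).mul hi)).and
    (IsT.bit ((IsE.const 2).mul (isE_lc hN))).not) (IsT.and (isT_isCode (B := fun _ w => vB w) hN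
      fun k' _ a ha => isT_vB ha) (IsT.and ?_ ((isT_chordC hN).and (isT_treeC t hN))))
  exact isT_diamT (A := fun env w => vA (N env) w) hN
    (fun k' hk a b ha hb => isT_vA (hN.mono hk) ha hb) D

end tests

/-- Length of the pair. -/
def lp (N : ℕ) : ℕ := 2 * lc N + 1 + 3 * (N * N)

theorem lp_mono : StrictMono lp := by
  intro a b h
  have h1 : a * a ≤ b * b := Nat.mul_le_mul h.le h.le
  unfold lp lc
  omega

theorem isCode_congr {N : ℕ} {B B' : ℕ → Prop} (h : ∀ i < lc N, (B i ↔ B' i)) :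
    IsCode N B ↔ IsCode N B' := by
  have h0 : ∀ i ≤ N, (B i ↔ B' i) := fun i hi => h i (by unfold lc; omega)
  have h1 : ∀ a < N, ∀ b < N, (B (N + 1 + (a * N + b)) ↔ B' (N + 1 + (a * N + b))) := by
    intro a ha b hb
    apply h
    have := Nat.mul_le_mul_right N (show a + 1 ≤ N from ha)
    rw [add_mul, one_mul] at this
    unfold lc
    omega
  unfold IsCode
  rw [h0 N le_rfl]
  refine and_congr (and_congr (forall_congr' fun i => forall_congr' fun hi => h0 i hi.le) Iff.rfl)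
    (forall_congr' fun a => forall_congr' fun ha => forall_congr' fun b => forall_congr' fun hb =>
      ?_)
  rw [h1 a ha b hb, h1 b hb a ha, h1 a ha a ha]

theorem exists_cert (N : ℕ) (R : ℕ → ℕ → ℕ → Prop) : ∃ c : List Bool, c.length = 3 * (N * N) ∧
    ∀ q < 3, ∀ a < N, ∀ b < N, (c.getD (q * (N * N) + (a * N + b)) false = true ↔ R q a b) := by
  classical
  refine ⟨tbl [3, N, N] fun l => match l with
    | [q, a, b] => decide (R q a b)
    | _ => false, ?_, fun q hq a ha b hb => ?_⟩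
  · rw [tbl_length]
    simp
  · have := tbl_getD [3, N, N] [q, a, b] (fun l => match l with
      | [q, a, b] => decide (R q a b)
      | _ => false) ⟨hq, ha, hb, trivial⟩
    have e : idx [3, N, N] [q, a, b] = q * (N * N) + (a * N + b) := by simp [idx]
    rw [e] at this
    rw [this]
    simp

theorem treeSpanner_inNP (t : ℕ) (D : ℕ∞) : InNP (TreeSpannerLang t D) := by
  classical
  obtain ⟨f, hf, h1, h2⟩ := PTC.ofLen (len := lp)
    (fun k N hN => (((IsE.const 2).mul (isE_lc hN)).add (IsE.const 1)).add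
      ((IsE.const 3).mul (hN.mul hN))) lp_mono
    (F := fun w N => [decide (VT t D N w)]) fun k N hN => IsP.dec (isT_VT t D hN)
  refine ⟨f, 3 * Polynomial.X, hf.polyTime, fun w => ?_⟩
  rw [Polynomial.eval_mul, Polynomial.eval_X, Polynomial.eval_ofNat]
  -- the case of a code
  have hadj : ∀ (N : ℕ) (G : SimpleGraph (Fin N)) (c : List Bool) (a b : Fin N),
      vA N (pair (encodeGraph G) c) a b ↔ G.Adj a b := by
    intro N G c a b
    unfold vA vB
    have hlt : N + 1 + ((a : ℕ) * N + b) < (encodeGraph G).length := by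
      have := Nat.mul_le_mul_right N (show (a : ℕ) + 1 ≤ N from a.2)
      rw [add_mul, one_mul] at this
      have := b.2
      rw [encodeGraph_length]
      omega
    rw [pair_odd _ _ hlt]
    exact encodeGraph_bit G a b
  constructor
  · rintro ⟨N, G, rfl, hG, hc, hdiam, T, hT⟩
    obtain ⟨PT, LT, hPT⟩ := treeC_complete (A := fun a b => (encodeGraph G).getD
      (N + 1 + (a * N + b)) false = true) (fun a b => encodeGraph_bit G a b) hT
    obtain ⟨OT, hOT⟩ := chordC_complete (A := fun a b => (encodeGraph G).getD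
      (N + 1 + (a * N + b)) false = true) (fun a b => encodeGraph_bit G a b) hc
    obtain ⟨c, hcl, hcc⟩ := exists_cert N fun q a b =>
      (q = 0 ∧ PT a b) ∨ (q = 1 ∧ LT a b) ∨ (q = 2 ∧ OT a b)
    refine ⟨c, ?_, ?_⟩
    · rw [hcl, encodeGraph_length]
      have : N * N ≤ N + 1 + N * N := by omega
      omega
    · have hlen : (pair (encodeGraph G) c).length = lp N := by
        rw [pair_length, hcl, encodeGraph_length]
        rfl
      have hl : (encodeGraph G).length = lc N := encodeGraph_length G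
      rw [h1 _ N hlen]
      simp only [List.cons.injEq, decide_eq_true_eq, and_true]
      have eA : ∀ a < N, ∀ b < N, (vA N (pair (encodeGraph G) c) a b ↔
          (encodeGraph G).getD (N + 1 + (a * N + b)) false = true) := fun a ha b hb => by
        rw [hadj N G c ⟨a, ha⟩ ⟨b, hb⟩, ← encodeGraph_bit G ⟨a, ha⟩ ⟨b, hb⟩]
      have eC : ∀ q < 3, ∀ a < N, ∀ b < N, (vC q N (pair (encodeGraph G) c) a b ↔
          (q = 0 ∧ PT a b) ∨ (q = 1 ∧ LT a b) ∨ (q = 2 ∧ OT a b)) := by
        intro q hq a ha b hb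
        unfold vC
        rw [← hl, pair_right]
        exact hcc q hq a ha b hb
      have e0 : ∀ a < N, ∀ b < N, (vC 0 N (pair (encodeGraph G) c) a b ↔ PT a b) :=
        fun a ha b hb => (eC 0 (by norm_num) a ha b hb).trans (by simp)
      have e1 : ∀ a < N, ∀ b < N, (vC 1 N (pair (encodeGraph G) c) a b ↔ LT a b) :=
        fun a ha b hb => (eC 1 (by norm_num) a ha b hb).trans (by simp)
      have e2 : ∀ a < N, ∀ b < N, (vC 2 N (pair (encodeGraph G) c) a b ↔ OT a b) :=
        fun a ha b hb => (eC 2 (by norm_num) a ha b hb).trans (by simp)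
      refine ⟨⟨fun i hi => pair_even _ _ (by rw [hl]; exact hi), ?_⟩, ?_,
        (diamT_iff (hadj N G c) hG D).2 hdiam, ?_, ?_⟩
      · rw [← hl]
        exact pair_mid _ _
      · rw [isCode_congr (B' := fun i => (encodeGraph G).getD i false = true) fun i hi => by
          unfold vB
          rw [pair_odd _ _ (by rw [hl]; exact hi)]]
        exact isCode_encodeGraph G
      · obtain ⟨g1, g2, g3, g4⟩ := hOT
        refine ⟨fun a ha h => g1 a ha ((e2 a ha a ha).1 h), fun a ha b hb c hc h h' =>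
          (e2 a ha c hc).2 (g2 a ha b hb c hc ((e2 a ha b hb).1 h) ((e2 b hb c hc).1 h')),
          fun a ha b hb hab => (g3 a ha b hb hab).imp (e2 a ha b hb).2 (e2 b hb a ha).2,
          fun j hj a ha b hb k1 k2 k3 k4 hab => (eA a ha b hb).2 (g4 j hj a ha b hb
            ((eA j hj a ha).1 k1) ((e2 j hj a ha).1 k2) ((eA j hj b hb).1 k3)
            ((e2 j hj b hb).1 k4) hab)⟩
      · obtain ⟨r, hr, g1, g2, g3, g4⟩ := hPT
        refine ⟨r, hr, fun v hv hvr => ?_, fun a ha h => g2 a ha ((e1 a ha a ha).1 h),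
          fun a ha b hb c hc h h' => (e1 a ha c hc).2 (g3 a ha b hb c hc ((e1 a ha b hb).1 h)
            ((e1 b hb c hc).1 h')), fun a ha b hb hab => ?_⟩
        · obtain ⟨b, hb, k1, k2, k3, k4⟩ := g1 v hv hvr
          exact ⟨b, hb, (e0 v hv b hb).2 k1, (eA v hv b hb).2 k2, (e1 b hb v hv).2 k3,
            fun b' hb' h => k4 b' hb' ((e0 v hv b' hb').1 h)⟩
        · have key : ∀ s, ∀ v < N, (rR (TT PT r) N s a v →
              rR (TT (vC 0 N (pair (encodeGraph G) c)) r) N s a v) := by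
            intro s
            induction s with
            | zero => exact fun v _ h => h
            | succ s ih =>
              rintro v hv (h | ⟨x, hx, h, h'⟩)
              · exact Or.inl (ih v hv h)
              · refine Or.inr ⟨x, hx, ih x hx h, ?_⟩
                exact h'.imp (fun e => ⟨e.1, (e0 x hx v hv).2 e.2⟩)
                  (fun e => ⟨e.1, (e0 v hv x hx).2 e.2⟩)
          exact key t b hb (g4 a ha b hb ((eA a ha b hb).1 hab))
  · rintro ⟨c, -, hfc⟩
    obtain ⟨N, hN⟩ : ∃ N, (pair w c).length = lp N := by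
      by_contra hne
      push Not at hne
      rw [h2 _ hne] at hfc
      simp at hfc
    rw [h1 _ N hN] at hfc
    simp only [List.cons.injEq, decide_eq_true_eq, and_true] at hfc
    obtain ⟨⟨g1, g2⟩, g3, g4, g5, g6⟩ := hfc
    have hl : w.length = lc N := by
      rcases lt_trichotomy w.length (lc N) with h | h | h
      · exact absurd (g1 _ h) (pair_mid w c)
      · exact h
      · exact absurd (pair_even w c h) g2
    rw [isCode_congr (B' := fun i => w.getD i false = true) fun i hi => by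
      unfold vB
      rw [pair_odd _ _ (by rw [hl]; exact hi)]] at g3
    obtain ⟨G, rfl⟩ := exists_graph hl g3
    obtain ⟨k1, k2⟩ := treeC_sound (hadj N G c) g6
    exact ⟨N, G, rfl, k1, chordC_sound (hadj N G c) g5, (diamT_iff (hadj N G c) k1 D).1 g4, k2⟩

end Pool.Agent.TSP94
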