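import Pool.Agent.TSP94.Hard
import Pool.Agent.TSP94.Deci
import Pool.Agent.TSP94.Verif

/-!
# The main theorem without the theorem of Cook and Levin
-/

set_option autoImplicit false

namespace Pool.Agent.TSP94

open Pool.Agent.TSpan33

theorem exists_hard_lang (t : ℕ) (D : ℕ∞) (ht : 4 ≤ t) (hD : ((2 * (t / 2) : ℕ) : ℕ∞) ≤ D) :
    ∃ f : List Bool → List Bool, PTL.PTC f ∧
      ∀ (n m : ℕ) (φ : Fin m → Fin 3 → Fin n × Bool),
        f (encodeCNF φ) ∈ TreeSpannerLang t D ↔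
          ∃ τ : Fin n → Bool, ∀ j, ∃ k, τ (φ j k).1 = (φ j k).2 := by
  obtain ⟨f, hf, h⟩ := exists_hard t ht
  refine ⟨f, hf, fun n m φ => ?_⟩
  obtain ⟨N, G, h1, h2, h3, h4, h5⟩ := h n m φ
  rw [h1, mem_treeSpannerLang, h5]
  exact ⟨fun h => h.2.2.2, fun h => ⟨h2, h3, fun u v =>
    (Nat.cast_le.2 (h4 u v)).trans hD, h⟩⟩

/-- Tree 3-spanners are in P and tree `t`-spanners, `t ≥ 4`, in NP and hard for 3-SAT. -/
theorem main_lang :
    (∀ D : ℕ∞, InP (TreeSpannerLang 3 D)) ∧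
    ∀ t : ℕ, 4 ≤ t → ∀ D : ℕ∞, ((2 * (t / 2) : ℕ) : ℕ∞) ≤ D →
      InNP (TreeSpannerLang t D) ∧
      ∃ f : List Bool → List Bool, PolyTime f ∧
        ∀ (n m : ℕ) (φ : Fin m → Fin 3 → Fin n × Bool),
          f (encodeCNF φ) ∈ TreeSpannerLang t D ↔
            ∃ τ : Fin n → Bool, ∀ j, ∃ k, τ (φ j k).1 = (φ j k).2 := by
  refine ⟨three_inP, fun t ht D hD => ⟨treeSpanner_inNP t D, ?_⟩⟩
  obtain ⟨f, hf, h⟩ := exists_hard_lang t D ht hD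
  exact ⟨f, hf.polyTime, h⟩

end Pool.Agent.TSP94
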