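import Pool.Agent.PTL.Fix
import Pool.Agent.TSP94.Alg

/-!
# The algorithm as a polynomial time function
-/

set_option autoImplicit false

namespace Pool.Agent.TSP94

open Pool.Agent.PTL

/-- A relation of six numbers, as a relation of lists. -/
def app6 (ψ : ℕ → ℕ → ℕ → ℕ → ℕ → ℕ → Prop) : List ℕ → Prop
  | [r, a, b, c, d, e] => ψ r a b c d e
  | _ => False

open Classical in
/-- The table of a relation. -/
noncomputable def mk (N : ℕ) (ψ : ℕ → ℕ → ℕ → ℕ → ℕ → ℕ → Prop) : List Bool :=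
  tbl (bds N) fun l => decide (app6 ψ l)

/-- Length of the table. -/
def len (N : ℕ) : ℕ := (bds N).prod

theorem len_eq (N : ℕ) : len N = 4 * N ^ 5 := by
  simp only [len, bds, List.prod_cons, List.prod_nil]
  ring

theorem len_mono : StrictMono len := by
  intro a b h
  rw [len_eq, len_eq]
  have := Nat.pow_lt_pow_left h (n := 5) (by norm_num)
  omega

theorem isE_len6 (k : ℕ) (N : (ℕ → ℕ) → ℕ) (hN : IsE k N) : IsE k (fun env => len (N env)) := by
  have : (fun env : ℕ → ℕ => len (N env)) = fun env => 4 * N env ^ 5 := by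
    funext env
    exact len_eq _
  rw [this]
  exact (IsE.const 4).mul (hN.pow 5)

theorem mk_length (N : ℕ) (ψ : ℕ → ℕ → ℕ → ℕ → ℕ → ℕ → Prop) : (mk N ψ).length = len N :=
  tbl_length _ _

theorem lk_mk {N : ℕ} {ψ : ℕ → ℕ → ℕ → ℕ → ℕ → ℕ → Prop} {r a b c d e : ℕ} (hr : r < 4)
    (ha : a < N) (hb : b < N) (hc : c < N) (hd : d < N) (he : e < N) :
    lk N (mk N ψ) r a b c d e ↔ ψ r a b c d e := by
  unfold lk mk
  rw [tbl_getD (bds N) [r, a, b, c, d, e] _ ⟨hr, ha, hb, hc, hd, he, trivial⟩]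
  simp [app6]

theorem isP_mk {k : ℕ} {N : (ℕ → ℕ) → ℕ} (hN : IsE k N)
    {ψ : ℕ → List Bool → ℕ → ℕ → ℕ → ℕ → ℕ → ℕ → Prop}
    (hψ : ∀ k (N r a b c d e : (ℕ → ℕ) → ℕ), IsE k N → IsE k r → IsE k a → IsE k b → IsE k c →
      IsE k d → IsE k e →
      IsT k (fun w env => ψ (N env) w (r env) (a env) (b env) (c env) (d env) (e env))) :
    IsP k (fun w env => mk (N env) (ψ (N env) w)) := by
  refine IsP.tbl [fun _ => 4, N, N, N, N, N] k (by simp [hN, IsE.const])
    (φ := fun w env l => app6 (ψ (N env) w) l) fun k' hk ys hys hy => ?_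
  match ys, hys with
  | [y1, y2, y3, y4, y5, y6], _ =>
    exact hψ k' N y1 y2 y3 y4 y5 y6 (hN.mono hk) (hy _ (by simp)) (hy _ (by simp))
      (hy _ (by simp)) (hy _ (by simp)) (hy _ (by simp)) (hy _ (by simp))

theorem exists_step {ln : ℕ → ℕ} (hln : ∀ k N, IsE k N → IsE k (fun env => ln (N env)))
    (hmono : StrictMono ln)
    {ψ : ℕ → List Bool → ℕ → ℕ → ℕ → ℕ → ℕ → ℕ → Prop}
    (hψ : ∀ k (N r a b c d e : (ℕ → ℕ) → ℕ), IsE k N → IsE k r → IsE k a → IsE k b → IsE k c →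
      IsE k d → IsE k e →
      IsT k (fun w env => ψ (N env) w (r env) (a env) (b env) (c env) (d env) (e env))) :
    ∃ F, PTC F ∧ (∀ w N, w.length = ln N → F w = mk N (ψ N w)) ∧
      ∀ w, (∀ N, w.length ≠ ln N) → F w = [] :=
  PTC.ofLen hln hmono (F := fun w N => mk N (ψ N w)) fun _ _ hN => isP_mk hN hψ

/-- An increasing step with its fixed point. -/
theorem exists_fix
    {ψ : ℕ → List Bool → ℕ → ℕ → ℕ → ℕ → ℕ → ℕ → Prop}
    (hψ : ∀ k (N r a b c d e : (ℕ → ℕ) → ℕ), IsE k N → IsE k r → IsE k a → IsE k b → IsE k c →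
      IsE k d → IsE k e →
      IsT k (fun w env => ψ (N env) w (r env) (a env) (b env) (c env) (d env) (e env)))
    (hinc : ∀ N w r a b c d e, lk N w r a b c d e → ψ N w r a b c d e) :
    ∃ H, PTC H ∧ ∀ N ψ₀, ∃ (n : ℕ) (x : ℕ → List Bool), x 0 = mk N ψ₀ ∧
      (∀ i, x (i + 1) = mk N (ψ N (x i))) ∧ H (mk N ψ₀) = x n ∧ x (n + 1) = x n := by
  classical
  obtain ⟨F, hF, hF1, hF2⟩ := exists_step isE_len6 len_mono hψ
  have hlen : ∀ w, (F w).length ≤ w.length := by
    intro w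
    by_cases h : ∃ N, w.length = len N
    · obtain ⟨N, hN⟩ := h
      rw [hF1 w N hN, mk_length, hN]
    · push Not at h
      rw [hF2 w h]
      simp
  refine ⟨_, PTC.iter hF hlen hF, fun N ψ₀ => ?_⟩
  set x : ℕ → List Bool := fun i => F^[i] (mk N ψ₀) with hxdef
  have hx0 : x 0 = mk N ψ₀ := rfl
  have hxs : ∀ i, x (i + 1) = F (x i) := fun i => Function.iterate_succ_apply' F i _
  have hxl : ∀ i, (x i).length = len N := by
    intro i
    induction i with
    | zero => exact mk_length _ _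
    | succ i ih => rw [hxs, hF1 _ N ih, mk_length]
  have hx1 : ∀ i, x (i + 1) = mk N (ψ N (x i)) := fun i => by rw [hxs, hF1 _ N (hxl i)]
  have hform : ∀ i, ∃ f : List ℕ → Bool, x i = tbl (bds N) f := by
    intro i
    cases i with
    | zero => exact ⟨_, hx0⟩
    | succ i => exact ⟨_, hx1 i⟩
  have hup : ∀ i, Up (x i) (x (i + 1)) := by
    intro i
    obtain ⟨f, hf⟩ := hform i
    rw [hx1 i]
    have : x i = tbl (bds N) f := hf
    rw [this]
    apply up_tbl
    intro l hl hfl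
    match l, hl with
    | [r, a, b, c, d, e], hl =>
      simp only [app6, decide_eq_true_eq]
      apply hinc
      unfold lk
      rw [tbl_getD _ _ _ hl]
      exact hfl
  have hfix := fixed_of_up hxs hup hxl
  have hF0 : (F (mk N ψ₀)).length = len N := by
    have := hxl 1
    rwa [hxs, hx0] at this
  refine ⟨len N, x, hx0, hx1, ?_, ?_⟩
  · show F^[(F (mk N ψ₀)).length] (mk N ψ₀) = x (len N)
    rw [hF0]
  · rw [hxs, hfix]

/-- The initial table. -/
def init (N : ℕ) (w : List Bool) (r a b _c _d _e : ℕ) : Prop :=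
  r = 0 ∧ w.getD (N + 1 + (a * N + b)) false = true

theorem isT_init (k : ℕ) (N r a b c d e : (ℕ → ℕ) → ℕ) (hN : IsE k N) (hr : IsE k r)
    (ha : IsE k a) (hb : IsE k b) (_ : IsE k c) (_ : IsE k d) (_ : IsE k e) :
    IsT k (fun w env => init (N env) w (r env) (a env) (b env) (c env) (d env) (e env)) :=
  (IsT.eq hr (IsE.const 0)).and (IsT.bit ((hN.add (IsE.const 1)).add ((ha.mul hN).add hb)))

/-- The whole algorithm. -/
theorem exists_alg : ∃ f, PTC f ∧ ∀ (N : ℕ) (w : List Bool), w.length = N + 1 + N * N →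
    ∃ (n m : ℕ) (x y : ℕ → List Bool), x 0 = mk N (init N w) ∧
      (∀ i, x (i + 1) = mk N (step1 N (x i))) ∧ x (n + 1) = x n ∧ y 0 = x n ∧
      (∀ i, y (i + 1) = mk N (step2 N (y i))) ∧ y (m + 1) = y m ∧
      (f w = [true] ↔ accept N (y m)) ∧ (f w = [true] ∨ f w = [false]) := by
  classical
  obtain ⟨f₀, h₀, h₀', -⟩ := exists_step (ln := fun N => N + 1 + N * N)
    (fun k N hN => (hN.add (IsE.const 1)).add (hN.mul hN))
    (fun a b h => by
      show a + 1 + a * a < b + 1 + b * b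
      have := Nat.mul_lt_mul'' h h
      omega) isT_init
  obtain ⟨H₁, h₁, h₁'⟩ := exists_fix (ψ := step1)
    (fun k N r a b c d e hN hr ha hb hc hd he => isT_step1 hN hr ha hb hc hd he)
    (fun _ _ _ _ _ _ _ _ h => Or.inl h)
  obtain ⟨H₂, h₂, h₂'⟩ := exists_fix (ψ := step2)
    (fun k N r a b c d e hN hr ha hb hc hd he => isT_step2 hN hr ha hb hc hd he)
    (fun _ _ _ _ _ _ _ _ h => Or.inl h)
  obtain ⟨f₃, h₃, h₃', -⟩ := PTC.ofLen isE_len6 len_mono
    (F := fun w N => [decide (accept N w)]) fun k N hN => IsP.dec (isT_accept hN)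
  refine ⟨_, h₃.comp (h₂.comp (h₁.comp h₀)), fun N w hw => ?_⟩
  obtain ⟨n, x, hx0, hx1, hx2, hx3⟩ := h₁' N (init N w)
  have hform : ∃ ψ, x n = mk N ψ := by
    cases n with
    | zero => exact ⟨_, hx0⟩
    | succ i => exact ⟨_, hx1 i⟩
  obtain ⟨ψ, hψ⟩ := hform
  obtain ⟨m, y, hy0, hy1, hy2, hy3⟩ := h₂' N ψ
  refine ⟨n, m, x, y, hx0, hx1, hx3, hy0.trans hψ.symm, hy1, hy3, ?_⟩
  have hlen : (y m).length = len N := by
    cases m with
    | zero => rw [hy0, mk_length]
    | succ i => rw [hy1, mk_length]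
  rw [h₀' w N hw, hx2, hψ, hy2, h₃' (y m) N hlen]
  by_cases h : accept N (y m) <;> simp [h]

end Pool.Agent.TSP94
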