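import Pool.Agent.TSP94.Classes

/-!
# Machines with several stacks in which every state works on one stack
-/

set_option autoImplicit false

namespace Pool.Agent.TSP94

/-- A machine with finitely many stacks; every state works on one stack. -/
structure SM where
  /-- states -/
  Q : Type
  /-- stacks -/
  K : Type
  /-- symbols -/
  S : Type
  [fQ : Fintype Q]
  [fK : Fintype K]
  [fS : Fintype S]
  [dQ : DecidableEq Q]
  [dK : DecidableEq K]
  [dS : DecidableEq S]
  /-- the stack of a state -/
  on : Q → K
  /-- The next state and the action: `none`: keep, `some none`: pop, `some (some a)`: push `a`. -/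
  δ : Q → Option S → Q × Option (Option S)

attribute [instance] SM.fQ SM.fK SM.fS SM.dQ SM.dK SM.dS

/-- The action on a stack. -/
def SM.act {S : Type} (a : Option (Option S)) (l : List S) : List S :=
  match a with
  | none => l
  | some none => l.tail
  | some (some c) => c :: l

/-- One step. -/
def SM.step (M : SM) (c : M.Q × (M.K → List M.S)) : M.Q × (M.K → List M.S) :=
  ((M.δ c.1 (c.2 (M.on c.1)).head?).1, Function.update c.2 (M.on c.1)
    (SM.act (M.δ c.1 (c.2 (M.on c.1)).head?).2 (c.2 (M.on c.1))))

/-- The initial configuration. -/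
def SM.init (M : SM) (q₀ : M.Q) (k₀ : M.K) (β : Bool → M.S) (w : List Bool) :
    M.Q × (M.K → List M.S) :=
  (q₀, Function.update (fun _ => []) k₀ (w.map β))

/-- The machine decides whether `f w = [true]` in time `T`. -/
def SM.Decides (M : SM) (q₀ : M.Q) (k₀ : M.K) (β : Bool → M.S) (acc : M.Q → Prop)
    (T : Polynomial ℕ) (f : List Bool → List Bool) : Prop :=
  ∀ (w : List Bool) (n : ℕ), T.eval w.length ≤ n →
    (acc (M.step^[n] (M.init q₀ k₀ β w)).1 ↔ f w = [true])

end Pool.Agent.TSP94
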