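import Pool.Agent.TSP94.Enc

/-!
# The step of the construction on codes, and transfer along isomorphisms
-/

set_option autoImplicit false

namespace Pool.Agent.TSP94

open Pool.Agent.PTL
open Pool.Agent.TSpan33 (LG IsTreeSpanner IsChordal)

/-- A bit of the code of a levelled graph with `N` vertices. -/
def bitAt (t N : ℕ) (w : List Bool) (a b s : ℕ) : Prop :=
  w.getD (N + 1 + ((a * N + b) * t + s)) false = true

/-- Valid codes of the vertices of the next graph. -/
def stV (t N : ℕ) (w : List Bool) : List ℕ → Prop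
  | [a, b] => b = N ∨ (1 < t ∧ b < N ∧ bitAt t N w a b 0 ∧ bitAt t N w a b 1)
  | _ => False

/-- The relations of the next graph. -/
def stR (t N : ℕ) (w : List Bool) : List ℕ → List ℕ → ℕ → Prop
  | [a, b], [c, d], s =>
    (b = N ∧ d = N ∧ s = 0 ∧ bitAt t N w a c 0) ∨
    (b = N ∧ d < N ∧ s = 0 ∧ (a = c ∨ a = d)) ∨
    (b = N ∧ d < N ∧ 0 < s ∧ a = c ∧ s + 1 < t ∧ bitAt t N w c d (s + 1)) ∨
    (b < N ∧ d = N ∧ s = 0 ∧ (c = a ∨ c = b)) ∨
    (b < N ∧ d = N ∧ 0 < s ∧ c = b ∧ s + 1 < t ∧ bitAt t N w a b (s + 1))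
  | _, _, _ => False

theorem isE_len (t : ℕ) {k : ℕ} {N : (ℕ → ℕ) → ℕ} (hN : IsE k N) :
    IsE k (fun env => N env + 1 + N env * N env * t) :=
  (hN.add (IsE.const 1)).add ((hN.mul hN).mul (IsE.const t))

theorem len_strictMono (t : ℕ) : StrictMono (fun N : ℕ => N + 1 + N * N * t) := by
  intro a b h
  have h1 : a * a * t ≤ b * b * t := Nat.mul_le_mul_right _ (Nat.mul_le_mul h.le h.le)
  show a + 1 + a * a * t < b + 1 + b * b * t
  omega

section tests

variable {k : ℕ} {N a b s : (ℕ → ℕ) → ℕ}

theorem isT_bitAt (t : ℕ) (hN : IsE k N) (ha : IsE k a) (hb : IsE k b) (hs : IsE k s) :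
    IsT k (fun w env => bitAt t (N env) w (a env) (b env) (s env)) :=
  IsT.bit ((hN.add (IsE.const 1)).add ((((ha.mul hN).add hb).mul (IsE.const t)).add hs))

theorem isT_stV (t : ℕ) (hN : IsE k N) (ys : List ((ℕ → ℕ) → ℕ)) (hl : ys.length = 2)
    (hy : ∀ y ∈ ys, IsE k y) : IsT k (fun w env => stV t (N env) w (ys.map (· env))) := by
  obtain ⟨a, b, rfl⟩ := List.length_eq_two.1 hl
  have ha := hy a (by simp)
  have hb := hy b (by simp)
  exact (IsT.eq hb hN).or ((IsT.const (1 < t)).and ((IsT.lt hb hN).and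
    ((isT_bitAt t hN ha hb (IsE.const 0)).and (isT_bitAt t hN ha hb (IsE.const 1)))))

theorem isT_stR (t : ℕ) (hN : IsE k N) (xs ys : List ((ℕ → ℕ) → ℕ)) (hlx : xs.length = 2)
    (hl : ys.length = 2) (hx : ∀ x ∈ xs, IsE k x) (hy : ∀ y ∈ ys, IsE k y) (hs : IsE k s) :
    IsT k (fun w env => stR t (N env) w (xs.map (· env)) (ys.map (· env)) (s env)) := by
  obtain ⟨a, b, rfl⟩ := List.length_eq_two.1 hlx
  obtain ⟨c, d, rfl⟩ := List.length_eq_two.1 hl
  have ha := hx a (by simp)
  have hb := hx b (by simp)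
  have hc := hy c (by simp)
  have hd := hy d (by simp)
  have h0 : IsT k (fun _ env => s env = 0) := IsT.eq hs (IsE.const 0)
  have h1 : IsT k (fun _ env => 0 < s env) := IsT.lt (IsE.const 0) hs
  have h2 : IsT k (fun _ env => s env + 1 < t) := IsT.lt (hs.add (IsE.const 1)) (IsE.const t)
  have hs1 : IsE k (fun env => s env + 1) := hs.add (IsE.const 1)
  exact ((IsT.eq hb hN).and ((IsT.eq hd hN).and (h0.and
      (isT_bitAt t hN ha hc (IsE.const 0))))).or
    (((IsT.eq hb hN).and ((IsT.lt hd hN).and (h0.and ((IsT.eq ha hc).or (IsT.eq ha hd))))).or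
    (((IsT.eq hb hN).and ((IsT.lt hd hN).and (h1.and ((IsT.eq ha hc).and (h2.and
      (isT_bitAt t hN hc hd hs1)))))).or
    (((IsT.lt hb hN).and ((IsT.eq hd hN).and (h0.and ((IsT.eq hc ha).or (IsT.eq hc hb))))).or
    ((IsT.lt hb hN).and ((IsT.eq hd hN).and (h1.and ((IsT.eq hc hb).and (h2.and
      (isT_bitAt t hN ha hb hs1)))))))))

end tests

/-- Reading the relations from the code. -/
theorem bitAt_iff {t : ℕ} {A : LG} {L : List A.V} {w : List Bool}
    (hw : w = enc t L (lgRel A)) {a b s : ℕ} (ha : a < L.length) (hb : b < L.length)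
    (hs : s < t) : bitAt t L.length w a b s ↔ lgRel A L[a] L[b] s := by
  subst hw
  exact enc_getD t L _ ha hb hs

section codes

variable {A : LG} (L : List A.V)

/-- The code of a vertex of the next graph. -/
def stCode : A.V ⊕ A.Y → List ℕ
  | .inl v => [L.idxOf v, L.length]
  | .inr p => [L.idxOf p.1.1, L.idxOf p.1.2]

variable {L}

theorem stCode_inj (hall : ∀ v, v ∈ L) : Function.Injective (stCode L) := by
  have hlt : ∀ v : A.V, L.idxOf v < L.length := fun v => List.idxOf_lt_length_iff.2 (hall v)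
  have hi : ∀ u v : A.V, L.idxOf u = L.idxOf v → u = v := fun u v h =>
    (List.idxOf_inj (hall u)).1 h
  rintro (u | p) (v | q) h
  · simp only [stCode, List.cons.injEq, and_true] at h
    rw [hi u v h]
  · simp only [stCode, List.cons.injEq, and_true] at h
    have := hlt q.1.2
    omega
  · simp only [stCode, List.cons.injEq, and_true] at h
    have := hlt p.1.2
    omega
  · simp only [stCode, List.cons.injEq, and_true] at h
    have : p = q := by
      apply Subtype.ext
      exact Prod.ext (hi _ _ h.1) (hi _ _ h.2)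
    rw [this]

end codes

open Classical in
/-- The next graph on codes. -/
noncomputable def stepW (t N : ℕ) (w : List Bool) : List Bool :=
  enc t ((box [N, N + 1]).filter fun l => decide (stV t N w l)) (stR t N w)

theorem isP_stepW (t : ℕ) {k : ℕ} {N : (ℕ → ℕ) → ℕ} (hN : IsE k N) :
    IsP k (fun w env => stepW t (N env) w) := by
  have hbs : ∀ b ∈ ([N, fun env => N env + 1] : List ((ℕ → ℕ) → ℕ)), IsE k b := by
    intro b hb
    simp only [List.mem_cons, List.not_mem_nil, or_false] at hb
    rcases hb with rfl | rfl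
    · exact hN
    · exact hN.add (IsE.const 1)
  exact IsP.enc t [N, fun env => N env + 1] k hbs
    (φ := fun w env l => stV t (N env) w l)
    (fun k' hk ys hl hy => isT_stV t (hN.mono hk) ys hl hy)
    (R := fun w env l l' s => stR t (N env) w l l' s)
    (fun k' hk xs ys hlx hl hx hy z hz => isT_stR t (hN.mono hk) xs ys hlx hl hx hy hz)

theorem rep_stepW {t : ℕ} (ht : 0 < t) {w : List Bool} {A : LG} (hlev : ∀ u v, A.lev u v < t)
    {L : List A.V} (hnd : L.Nodup) (hall : ∀ v, v ∈ L) (hw : w = enc t L (lgRel A)) :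
    Rep t (stepW t L.length w) A.step := by
  classical
  have hlt : ∀ v : A.V, L.idxOf v < L.length := fun v => List.idxOf_lt_length_iff.2 (hall v)
  have hget : ∀ v : A.V, L[L.idxOf v]'(hlt v) = v := fun v => List.getElem_idxOf (hlt v)
  have hbit : ∀ (u v : A.V) (s : ℕ), s < t →
      (bitAt t L.length w (L.idxOf u) (L.idxOf v) s ↔ lgRel A u v s) := by
    intro u v s hs
    rw [bitAt_iff hw (hlt u) (hlt v) hs, hget, hget]
  have hi : ∀ u v : A.V, L.idxOf u = L.idxOf v ↔ u = v := fun u v => List.idxOf_inj (hall u)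
  have h0 : ∀ u v : A.V, lgRel A u v 0 ↔ A.G.Adj u v := by
    intro u v
    simp [lgRel]
  have hp : ∀ (u v : A.V) (s : ℕ), 0 < s → (lgRel A u v s ↔ s ≤ A.lev u v) := by
    intro u v s hs
    constructor
    · rintro (h | h)
      · omega
      · exact h.2
    · exact fun h => Or.inr ⟨hs, h⟩
  refine rep_of_code (A := A.step) (stCode L) (stCode_inj hall) ((nodup_box _).filter _) ?_ ?_ ?_
  · rintro (v | p)
    · rw [List.mem_filter, mem_box]
      refine ⟨⟨hlt v, Nat.lt_succ_self _, trivial⟩, ?_⟩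
      exact decide_eq_true (Or.inl rfl)
    · rw [List.mem_filter, mem_box]
      refine ⟨⟨hlt _, (hlt _).trans (Nat.lt_succ_self _), trivial⟩, ?_⟩
      refine decide_eq_true (Or.inr ?_)
      have h1 : 1 < t := by
        have := hlev p.1.1 p.1.2
        have := p.2.2
        omega
      refine ⟨h1, hlt _, (hbit _ _ 0 ht).2 ((h0 _ _).2 p.2.1), (hbit _ _ 1 h1).2 ?_⟩
      exact (hp _ _ 1 one_pos).2 p.2.2
  · intro l hl
    rw [List.mem_filter, mem_box] at hl
    obtain ⟨hB, hv⟩ := hl
    have hv := of_decide_eq_true hv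
    match l, hB, hv with
    | [a, b], hB, hv =>
      obtain ⟨ha, hb, -⟩ := hB
      rcases hv with rfl | ⟨h1, hbN, hb0, hb1⟩
      · refine ⟨.inl L[a], ?_⟩
        simp only [stCode, List.cons.injEq, and_true]
        exact hnd.idxOf_getElem a ha
      · refine ⟨.inr ⟨(L[a], L[b]), ?_, ?_⟩, ?_⟩
        · exact (h0 _ _).1 ((bitAt_iff hw ha hbN ht).1 hb0)
        · exact (hp _ _ 1 one_pos).1 ((bitAt_iff hw ha hbN h1).1 hb1)
        · simp only [stCode, List.cons.injEq, and_true]
          exact ⟨hnd.idxOf_getElem a ha, hnd.idxOf_getElem b hbN⟩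
  · intro x y s hs
    have hne : ∀ v : A.V, L.idxOf v ≠ L.length := fun v => (hlt v).ne
    have hnl : ¬ L.length < L.length := lt_irrefl _
    rcases x with u | p <;> rcases y with v | q
    · show stR t L.length w [_, _] [_, _] s ↔ _
      simp only [stR, hnl, true_and, false_and, or_false, and_false]
      rw [hbit u v 0 ht, h0]
      simp only [lgRel, LG.step, LG.stepLev]
      constructor
      · rintro ⟨rfl, h⟩
        exact Or.inl ⟨rfl, h⟩
      · rintro (⟨rfl, h⟩ | ⟨h, h'⟩)
        · exact ⟨rfl, h⟩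
        · omega
    · have hq := hlev q.1.1 q.1.2
      have hq0 := q.2.2
      show stR t L.length w [_, _] [_, _] s ↔ (s = 0 ∧ (u = q.1.1 ∨ u = q.1.2)) ∨
        (0 < s ∧ s ≤ if u = q.1.1 then A.lev q.1.1 q.1.2 - 1 else 0)
      simp only [stR, hne, hnl, hlt, hi, true_and, false_and, or_false, false_or]
      constructor
      · rintro (h | ⟨h, rfl, h2, h3⟩)
        · exact Or.inl h
        · right
          rw [hbit _ _ _ h2, hp _ _ _ (Nat.succ_pos s)] at h3
          rw [if_pos rfl]
          omega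
      · rintro (h | ⟨h, h'⟩)
        · exact Or.inl h
        · right
          split_ifs at h' with hu
          · have h2 : s + 1 < t := by omega
            refine ⟨h, hu, h2, ?_⟩
            rw [hbit _ _ _ h2, hp _ _ _ (Nat.succ_pos s)]
            omega
          · omega
    · have hq := hlev p.1.1 p.1.2
      have hq0 := p.2.2
      show stR t L.length w [_, _] [_, _] s ↔ (s = 0 ∧ (v = p.1.1 ∨ v = p.1.2)) ∨
        (0 < s ∧ s ≤ if v = p.1.2 then A.lev p.1.1 p.1.2 - 1 else 0)
      simp only [stR, hne, hnl, hlt, hi, true_and, false_and, or_false, false_or]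
      constructor
      · rintro (h | ⟨h, rfl, h2, h3⟩)
        · exact Or.inl h
        · right
          rw [hbit _ _ _ h2, hp _ _ _ (Nat.succ_pos s)] at h3
          rw [if_pos rfl]
          omega
      · rintro (h | ⟨h, h'⟩)
        · exact Or.inl h
        · right
          split_ifs at h' with hu
          · have h2 : s + 1 < t := by omega
            refine ⟨h, hu, h2, ?_⟩
            rw [hbit _ _ _ h2, hp _ _ _ (Nat.succ_pos s)]
            omega
          · omega
    · show stR t L.length w [_, _] [_, _] s ↔ (s = 0 ∧ False) ∨ (0 < s ∧ s ≤ 0)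
      simp only [stR, hne, false_and, or_false, and_false, false_iff]
      rintro (h | ⟨h, h'⟩)
      · exact h
      · omega

theorem step_lev_lt {t : ℕ} {A : LG} (h : ∀ u v, A.lev u v < t) :
    ∀ u v, A.step.lev u v < t := by
  rintro (u | p) (v | q)
  · have := h u v
    show 0 < t
    omega
  · have := h q.1.1 q.1.2
    show (if u = q.1.1 then A.lev q.1.1 q.1.2 - 1 else 0) < t
    split_ifs <;> omega
  · have := h p.1.1 p.1.2
    show (if v = p.1.2 then A.lev p.1.1 p.1.2 - 1 else 0) < t
    split_ifs <;> omega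
  · have := h p.1.1 p.1.2
    show 0 < t
    omega

theorem exists_stepF (t : ℕ) (ht : 0 < t) : ∃ f, PTC f ∧ ∀ (w : List Bool) (A : LG),
    (∀ u v, A.lev u v < t) → Rep t w A → Rep t (f w) A.step := by
  obtain ⟨f, hf, h1, -⟩ := PTC.ofLen (len := fun N => N + 1 + N * N * t)
    (fun k N hN => isE_len t hN) (len_strictMono t) (F := fun w N => stepW t N w)
    fun k N hN => isP_stepW t hN
  refine ⟨f, hf, fun w A hlev hw => ?_⟩
  obtain ⟨L, hnd, hall, hw⟩ := hw
  rw [h1 w L.length (by rw [hw, enc_length])]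
  exact rep_stepW ht hlev hnd hall hw

theorem PTC.idf : PTC (fun w : List Bool => w) := by
  refine (PTC.of (F := fun w L => (List.range L).flatMap fun i =>
    [w.getD i false]) fun k L hL => ?_).congr fun w => ?_
  · refine IsP.loop (G := fun w _ i => [w.getD i false]) hL fun k' hk y hy => ?_
    classical
    refine (IsP.dec (IsT.bit hy)).congr fun w env => ?_
    simp
  · rw [← List.map_eq_flatMap]
    apply List.ext_getElem
    · simp
    · intro i h1 h2
      simp [List.getD_eq_getElem?_getD, h1]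

theorem exists_steps (t : ℕ) (ht : 0 < t) : ∀ k : ℕ, ∃ f, PTC f ∧ ∀ (w : List Bool) (A : LG),
    (∀ u v, A.lev u v < t) → Rep t w A → Rep t (f w) (LG.steps k A) := by
  intro k
  induction k with
  | zero => exact ⟨fun w => w, PTC.idf, fun w A _ h => h⟩
  | succ k ih =>
    obtain ⟨f, hf, h⟩ := ih
    obtain ⟨g, hg, h'⟩ := exists_stepF t ht
    exact ⟨fun w => f (g w), hf.comp hg, fun w A hl hw =>
      h _ _ (step_lev_lt hl) (h' w A hl hw)⟩

/-- Only the graph. -/
noncomputable def dropW (t N : ℕ) (w : List Bool) : List Bool :=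
  enc 1 (box [N]) (fun l l' _ => bitAt t N w (l.getD 0 0) (l'.getD 0 0) 0)

theorem isP_dropW (t : ℕ) {k : ℕ} {N : (ℕ → ℕ) → ℕ} (hN : IsE k N) :
    IsP k (fun w env => dropW t (N env) w) := by
  refine (IsP.enc 1 [N] k (by simpa using hN) (φ := fun _ _ _ => True)
    (fun k' _ ys _ _ => IsT.const True)
    (R := fun w env l l' _ => bitAt t (N env) w (l.getD 0 0) (l'.getD 0 0) 0)
    (fun k' hk xs ys hlx hl hx hy z hz => ?_)).congr fun w env => by simp [dropW]
  obtain ⟨a, rfl⟩ := List.length_eq_one_iff.1 hlx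
  obtain ⟨b, rfl⟩ := List.length_eq_one_iff.1 hl
  exact isT_bitAt t (hN.mono hk) (hx a (by simp)) (hy b (by simp)) (IsE.const 0)

/-- Forget the levels. -/
theorem exists_drop (t : ℕ) (ht : 0 < t) : ∃ f, PTC f ∧ ∀ (w : List Bool) (A : LG), Rep t w A →
    ∃ (N : ℕ) (G : SimpleGraph (Fin N)), f w = encodeGraph G ∧ Nonempty (G ≃g A.G) := by
  classical
  obtain ⟨f, hf, h1, -⟩ := PTC.ofLen (len := fun N => N + 1 + N * N * t)
    (fun k N hN => isE_len t hN) (len_strictMono t)
    (F := fun w N => dropW t N w) fun k N hN => isP_dropW t hN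
  refine ⟨f, hf, fun w A hw => ?_⟩
  obtain ⟨L, hnd, hall, hw⟩ := hw
  let e : Fin L.length ≃ A.V := hnd.getEquivOfForallMemList L hall
  refine ⟨L.length, A.G.comap e, ?_, ⟨SimpleGraph.Iso.comap e A.G⟩⟩
  rw [h1 w L.length (by rw [hw, enc_length]), encodeGraph_eq, dropW]
  have hb : box [L.length] =
      (List.finRange L.length).map fun i : Fin L.length => [(i : ℕ)] := by
    simp only [box, List.map_cons, List.map_nil]
    rw [← List.map_eq_flatMap]
    apply List.ext_getElem <;> simp
  rw [hb, enc_map]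
  refine enc_congr fun u _ v _ s hs => ?_
  have h2 := bitAt_iff hw u.2 v.2 ht
  simp only [List.getD_cons_zero]
  rw [h2]
  simp only [lgRel, lt_irrefl, false_and, or_false, true_and]
  rfl

section transfer

variable {V W : Type*} {G : SimpleGraph V} {H : SimpleGraph W}

theorem dist_iso_le (e : G ≃g H) (hG : G.Connected) (u v : V) : H.dist (e u) (e v) ≤ G.dist u v := by
  obtain ⟨p, hp⟩ := hG.exists_walk_length_eq_dist u v
  rw [← hp, ← SimpleGraph.Walk.length_map e.toHom p]
  exact SimpleGraph.dist_le _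

theorem dist_iso (e : G ≃g H) (hG : G.Connected) (u v : V) : H.dist (e u) (e v) = G.dist u v := by
  apply le_antisymm (dist_iso_le e hG u v)
  have := dist_iso_le e.symm (e.connected_iff.1 hG) (e u) (e v)
  simpa using this

theorem isChordal_of_iso (e : G ≃g H) (h : IsChordal G) : IsChordal H := by
  intro n hn
  exact ⟨fun f => (h n hn).false (f.trans e.symm.toEmbedding)⟩

theorem isChordal_iso (e : G ≃g H) : IsChordal G ↔ IsChordal H :=
  ⟨isChordal_of_iso e, isChordal_of_iso e.symm⟩

theorem treeSpanner_of_iso (e : G ≃g H) (t : ℕ) (h : ∃ T, IsTreeSpanner t G T) :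
    ∃ T, IsTreeSpanner t H T := by
  obtain ⟨T, hT, htree, hd⟩ := h
  have hG : G.Connected := htree.connected.mono hT
  have hH : H.Connected := e.connected_iff.1 hG
  set T' : SimpleGraph W := T.comap e.symm with hT'
  let e' : T' ≃g T := SimpleGraph.Iso.comap e.symm.toEquiv T
  refine ⟨T', ?_, e'.isTree_iff.2 htree, fun x y => ?_⟩
  · intro x y h
    have := hT (show T.Adj (e.symm x) (e.symm y) from h)
    exact e.symm.map_rel_iff.1 this
  · have hT' : T'.Connected := e'.connected_iff.2 htree.connected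
    have h1 : T.dist (e.symm x) (e.symm y) = T'.dist x y := dist_iso e' hT' x y
    have h2 : G.dist (e.symm x) (e.symm y) = H.dist x y := dist_iso e.symm hH x y
    rw [← h1, ← h2]
    exact hd _ _

theorem treeSpanner_iso (e : G ≃g H) (t : ℕ) :
    (∃ T, IsTreeSpanner t G T) ↔ ∃ T, IsTreeSpanner t H T :=
  ⟨treeSpanner_of_iso e t, treeSpanner_of_iso e.symm t⟩

end transfer

end Pool.Agent.TSP94
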