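import Pool.Agent.TSP94.SM

/-!
# The computation of a machine as a set of clauses
-/

set_option autoImplicit false

namespace Pool.Agent.TSP94

/-- The kinds of the propositional variables. -/
inductive VF (Q K S : Type)
  | ctl (q : Q)
  | cell (k : K) (a : Option (Option S))
  | hd (k : K) (o : Option S)
  | ph (q : Q) (o : Option S)
  deriving DecidableEq, Fintype

/-- The kinds of the clauses. -/
inductive CF (Q K S : Type)
  | initCtl
  | initBelow (k : K)
  | initAbove (k : K)
  | initIn (b : Bool)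
  | initBot
  | choice
  | prop
  | hdc (k : K) (o : Option S)
  | phc (q : Q) (o : Option S)
  | nxt (q : Q) (o : Option S)
  | oth (q : Q) (k : K) (a : Option (Option S))
  | same (q : Q) (o : Option S) (a : Option (Option S))
  | chg (q : Q) (o : Option S)
  | fin (q : Q)
  deriving DecidableEq, Fintype

/-- Time expressions. -/
inductive PI
  | z | i | i1 | t
  deriving DecidableEq, Fintype

/-- Position expressions. -/
inductive PY
  | z | x | x1 | y | y1
  deriving DecidableEq, Fintype

/-- Value of a time expression. -/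
def PI.ev (T i : ℕ) : PI → ℕ
  | .z => 0
  | .i => i
  | .i1 => i + 1
  | .t => T

/-- Value of a position expression. -/
def PY.ev (x y : ℕ) : PY → ℕ
  | .z => 0
  | .x => x
  | .x1 => x + 1
  | .y => y
  | .y1 => y + 1

/-- A literal. -/
structure Lt (Q K S : Type) where
  /-- kind -/
  v : VF Q K S
  /-- time -/
  pi : PI
  /-- position -/
  py : PY
  /-- sign -/
  s : Bool

variable (M : SM) (q₀ : M.Q) (k₀ : M.K) (β : Bool → M.S) (acc : M.Q → Prop)

/-- The literals of a clause. -/
def lits : CF M.Q M.K M.S → Lt M.Q M.K M.S × Lt M.Q M.K M.S × Lt M.Q M.K M.S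
  | .initCtl => (⟨.ctl q₀, .z, .z, true⟩, ⟨.ctl q₀, .z, .z, true⟩, ⟨.ctl q₀, .z, .z, true⟩)
  | .initBelow k => (⟨.cell k (some none), .z, .y, true⟩, ⟨.cell k (some none), .z, .y, true⟩,
      ⟨.cell k (some none), .z, .y, true⟩)
  | .initAbove k => (⟨.cell k none, .z, .y, true⟩, ⟨.cell k none, .z, .y, true⟩,
      ⟨.cell k none, .z, .y, true⟩)
  | .initIn b => (⟨.cell k₀ (some (some (β b))), .z, .y, true⟩,
      ⟨.cell k₀ (some (some (β b))), .z, .y, true⟩, ⟨.cell k₀ (some (some (β b))), .z, .y, true⟩)
  | .initBot => (⟨.cell k₀ (some none), .z, .z, true⟩, ⟨.cell k₀ (some none), .z, .z, true⟩,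
      ⟨.cell k₀ (some none), .z, .z, true⟩)
  | .choice => (⟨.cell k₀ (some (some (β true))), .z, .y, true⟩,
      ⟨.cell k₀ (some (some (β false))), .z, .y, true⟩, ⟨.cell k₀ (some none), .z, .y, true⟩)
  | .prop => (⟨.cell k₀ (some none), .z, .y1, false⟩, ⟨.cell k₀ (some none), .z, .y, true⟩,
      ⟨.cell k₀ (some none), .z, .y, true⟩)
  | .hdc k o => (⟨.cell k (some o), .i, .x, false⟩, ⟨.cell k none, .i, .x1, false⟩,
      ⟨.hd k o, .i, .x, true⟩)
  | .phc q o => (⟨.ctl q, .i, .z, false⟩, ⟨.hd (M.on q) o, .i, .x, false⟩,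
      ⟨.ph q o, .i, .x, true⟩)
  | .nxt q o => (⟨.ph q o, .i, .x, false⟩, ⟨.ctl (M.δ q o).1, .i1, .z, true⟩,
      ⟨.ctl (M.δ q o).1, .i1, .z, true⟩)
  | .oth q k a => (⟨.ctl q, .i, .z, false⟩, ⟨.cell k a, .i, .y, false⟩,
      ⟨.cell k a, .i1, .y, true⟩)
  | .same q o a => (⟨.ph q o, .i, .x, false⟩, ⟨.cell (M.on q) a, .i, .y, false⟩,
      ⟨.cell (M.on q) a, .i1, .y, true⟩)
  | .chg q o => match (M.δ q o).2 with
    | some (some c) => (⟨.ph q o, .i, .x, false⟩, ⟨.cell (M.on q) (some (some c)), .i1, .x1, true⟩,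
        ⟨.cell (M.on q) (some (some c)), .i1, .x1, true⟩)
    | _ => (⟨.ph q o, .i, .x, false⟩, ⟨.cell (M.on q) none, .i1, .x, true⟩,
        ⟨.cell (M.on q) none, .i1, .x, true⟩)
  | .fin q => (⟨.ctl q, .t, .z, false⟩, ⟨.ctl q, .t, .z, false⟩, ⟨.ctl q, .t, .z, false⟩)

/-- The clauses that are present; `bit y b` says that the cell `y` of the input holds `b`. -/
def valid (P X₀ T : ℕ) (bit : ℕ → Bool → Prop) (i x y : ℕ) : CF M.Q M.K M.S → Prop
  | .initCtl => True
  | .initBelow k => k ≠ k₀ ∧ y ≤ X₀
  | .initAbove _ => X₀ < y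
  | .initIn b => P < y ∧ y ≤ X₀ ∧ bit y b
  | .initBot => True
  | .choice => 0 < y ∧ y ≤ P
  | .prop => 0 < y ∧ y < P
  | .hdc _ _ => x + 1 < X₀ + T + 2
  | .phc _ _ => True
  | .nxt _ _ => i < T
  | .oth q k _ => k ≠ M.on q ∧ i < T
  | .same q o _ => i < T ∧ (((M.δ q o).2 = some none ∧ o ≠ none) → y ≠ x) ∧
      ((∃ c, (M.δ q o).2 = some (some c)) → y ≠ x + 1)
  | .chg q o => i < T ∧ (((M.δ q o).2 = some none ∧ o ≠ none) ∨
      (∃ c, (M.δ q o).2 = some (some c)))
  | .fin q => ¬ acc q

/-- The literal holds. -/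
def Lt.Holds {Q K S : Type} (τ : VF Q K S → ℕ → ℕ → Prop) (T i x y : ℕ) (l : Lt Q K S) : Prop :=
  τ l.v (l.pi.ev T i) (l.py.ev x y) ↔ l.s = true

/-- All clauses hold. -/
def Sat (P X₀ T : ℕ) (bit : ℕ → Bool → Prop) (τ : VF M.Q M.K M.S → ℕ → ℕ → Prop) : Prop :=
  ∀ (s : CF M.Q M.K M.S) (i x y : ℕ), i ≤ T → x < X₀ + T + 2 → y < X₀ + T + 2 →
    valid M k₀ acc P X₀ T bit i x y s →
      (lits M q₀ k₀ β s).1.Holds τ T i x y ∨ (lits M q₀ k₀ β s).2.1.Holds τ T i x y ∨
        (lits M q₀ k₀ β s).2.2.Holds τ T i x y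

/-! ### cells -/

/-- The content of the cell `y` if the stack `l` starts above the cell `B`. -/
def val {S : Type} (B : ℕ) (l : List S) (y : ℕ) : Option (Option S) :=
  if y ≤ B then some none else (l.reverse[y - B - 1]?).map some

section val

variable {S : Type} (B : ℕ) (l : List S)

theorem val_above {y : ℕ} (h : B + l.length < y) : val B l y = none := by
  unfold val
  rw [if_neg (by omega), List.getElem?_eq_none (by simp; omega)]
  rfl

theorem val_below {y : ℕ} (h : y ≤ B) : val B l y = some none := by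
  unfold val
  rw [if_pos h]

theorem val_sym {y : ℕ} (h1 : B < y) (h2 : y ≤ B + l.length) : ∃ a, val B l y = some (some a) := by
  unfold val
  rw [if_neg (by omega), List.getElem?_eq_getElem (by simp; omega)]
  exact ⟨_, rfl⟩

theorem val_head : val B l (B + l.length) = some l.head? := by
  cases l with
  | nil => exact val_below _ _ (by simp)
  | cons a l =>
    unfold val
    rw [if_neg (by simp)]
    have : B + (a :: l).length - B - 1 = l.reverse.length := by simp
    rw [this, List.reverse_cons, List.getElem?_append_right le_rfl]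
    simp

theorem val_eq_none {y : ℕ} (h : val B l y = none) : B + l.length < y := by
  by_contra hne
  rcases Nat.lt_or_ge B y with h1 | h1
  · obtain ⟨a, ha⟩ := val_sym B l h1 (by omega)
    rw [ha] at h
    simp at h
  · rw [val_below B l h1] at h
    simp at h

theorem val_hd {x : ℕ} {o : Option S} (h1 : val B l x = some o) (h2 : val B l (x + 1) = none) :
    x = B + l.length ∧ o = l.head? := by
  have h3 := val_eq_none B l h2
  have h4 : ¬ B + l.length < x := fun h => by
    rw [val_above B l h] at h1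
    simp at h1
  have h5 : x = B + l.length := by omega
  refine ⟨h5, ?_⟩
  rw [h5, val_head] at h1
  exact (Option.some.inj h1).symm

theorem val_push (c : S) (y : ℕ) :
    val B (c :: l) y = if y = B + l.length + 1 then some (some c) else val B l y := by
  by_cases h : y ≤ B
  · rw [val_below _ _ h, val_below _ _ h, if_neg (by omega)]
  · unfold val
    rw [if_neg h, if_neg h, List.reverse_cons]
    by_cases h' : y = B + l.length + 1
    · rw [if_pos h']
      have : y - B - 1 = l.reverse.length := by
        rw [List.length_reverse]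
        omega
      rw [this, List.getElem?_append_right le_rfl]
      simp
    · rw [if_neg h']
      rcases Nat.lt_or_ge (y - B - 1) l.reverse.length with h2 | h2
      · rw [List.getElem?_append_left h2]
      · rw [List.getElem?_eq_none h2, List.getElem?_eq_none]
        rw [List.length_reverse] at h2
        simp
        omega

theorem val_pop (y : ℕ) :
    val B l.tail y = if l ≠ [] ∧ y = B + l.length then none else val B l y := by
  cases l with
  | nil => simp
  | cons c l =>
    rw [List.tail_cons, val_push, List.length_cons]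
    by_cases h : y = B + l.length + 1
    · rw [if_pos ⟨by simp, by omega⟩, val_above]
      omega
    · rw [if_neg (fun e => h (by omega)), if_neg h]

end val

end Pool.Agent.TSP94
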