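import Pool.Agent.TSP94.Tab
import Pool.Agent.TSP94.Verif

/-!
# The clauses are satisfiable if and only if some certificate is accepted
-/

set_option autoImplicit false

namespace Pool.Agent.TSP94

open Pool.Agent.PTL

theorem val_get {S : Type} (B : ℕ) (l : List S) {y : ℕ} (h1 : B < y) (h2 : y ≤ B + l.length) :
    val B l y = some (l[B + l.length - y]?) := by
  unfold val
  rw [if_neg (by omega), List.getElem?_reverse (by omega),
    show l.length - 1 - (y - B - 1) = B + l.length - y by omega,
    List.getElem?_eq_getElem (by omega)]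
  rfl

theorem val_append {S : Type} (B : ℕ) (l₁ l₂ : List S) {y : ℕ} (h : y ≤ B + l₂.length) :
    val B (l₁ ++ l₂) y = val B l₂ y := by
  unfold val
  split_ifs with h1
  · rfl
  · rw [List.reverse_append, List.getElem?_append_left (by rw [List.length_reverse]; omega)]

theorem pair_eq (w c : List Bool) : pair w c = pair w [] ++ c := by
  simp [pair]

/-- The bits of the fixed part of the input. -/
def bitP (w : List Bool) (X₀ y : ℕ) (b : Bool) : Prop := (pair w []).getD (X₀ - y) false = b

variable (M : SM) (q₀ : M.Q) (k₀ : M.K) (β : Bool → M.S) (acc : M.Q → Prop)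

/-- The bottom of the stacks. -/
def bot (P X₀ : ℕ) (c : List Bool) (k : M.K) : ℕ := if k = k₀ then P - c.length else X₀

/-- The configurations. -/
def cfg (w c : List Bool) (i : ℕ) : M.Q × (M.K → List M.S) :=
  M.step^[i] (M.init q₀ k₀ β (pair w c))

theorem cfg_succ (w c : List Bool) (i : ℕ) :
    cfg M q₀ k₀ β w c (i + 1) = M.step (cfg M q₀ k₀ β w c i) :=
  Function.iterate_succ_apply' _ _ _

theorem cfg_stk (w c : List Bool) (i : ℕ) (k : M.K) (hk : k ≠ M.on (cfg M q₀ k₀ β w c i).1) :
    (cfg M q₀ k₀ β w c (i + 1)).2 k = (cfg M q₀ k₀ β w c i).2 k := by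
  rw [cfg_succ]
  exact Function.update_of_ne hk _ _

theorem cfg_on (w c : List Bool) (i : ℕ) :
    (cfg M q₀ k₀ β w c (i + 1)).2 (M.on (cfg M q₀ k₀ β w c i).1) =
      SM.act (M.δ (cfg M q₀ k₀ β w c i).1
        ((cfg M q₀ k₀ β w c i).2 (M.on (cfg M q₀ k₀ β w c i).1)).head?).2
        ((cfg M q₀ k₀ β w c i).2 (M.on (cfg M q₀ k₀ β w c i).1)) := by
  rw [cfg_succ]
  exact Function.update_self _ _ _

theorem cfg_state (w c : List Bool) (i : ℕ) :
    (cfg M q₀ k₀ β w c (i + 1)).1 = (M.δ (cfg M q₀ k₀ β w c i).1
        ((cfg M q₀ k₀ β w c i).2 (M.on (cfg M q₀ k₀ β w c i).1)).head?).1 := by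
  rw [cfg_succ]
  rfl

open Classical in
/-- The new content of a cell. -/
theorem val_act {S : Type} (B : ℕ) (l : List S) (a : Option (Option S)) (y : ℕ) :
    val B (SM.act a l) y =
      if a = some none ∧ l.head? ≠ none ∧ y = B + l.length then none
      else if y = B + l.length + 1 then
        (match a with
        | some (some c) => some (some c)
        | _ => val B l y)
      else val B l y := by
  match a with
  | none =>
    simp only [SM.act]
    split_ifs <;> simp_all
  | some none =>
    simp only [SM.act]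
    rw [val_pop]
    cases l <;> split_ifs <;> simp_all
  | some (some c) =>
    simp only [SM.act]
    rw [val_push]
    split_ifs <;> simp_all

theorem cfg_len (w c : List Bool) {P : ℕ} (hc : c.length ≤ P) (i : ℕ) (k : M.K) :
    bot M k₀ P (P + 2 * w.length + 1) c k + ((cfg M q₀ k₀ β w c i).2 k).length ≤
      P + 2 * w.length + 1 + i := by
  induction i with
  | zero =>
    show bot M k₀ P (P + 2 * w.length + 1) c k + ((M.init q₀ k₀ β (pair w c)).2 k).length ≤ _
    unfold bot SM.init
    dsimp only
    by_cases hk : k = k₀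
    · subst hk
      rw [if_pos rfl, Function.update_self, List.length_map, pair_length]
      omega
    · rw [if_neg hk, Function.update_of_ne hk]
      simp
  | succ i ih =>
    by_cases hk : k = M.on (cfg M q₀ k₀ β w c i).1
    · subst hk
      rw [cfg_on]
      have : ∀ (a : Option (Option M.S)) (l : List M.S), (SM.act a l).length ≤ l.length + 1 := by
        intro a l
        match a with
        | none => simp [SM.act]
        | some none =>
          simp [SM.act]
          omega
        | some (some c) => simp [SM.act]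
      have := this (M.δ (cfg M q₀ k₀ β w c i).1
        ((cfg M q₀ k₀ β w c i).2 (M.on (cfg M q₀ k₀ β w c i).1)).head?).2
        ((cfg M q₀ k₀ β w c i).2 (M.on (cfg M q₀ k₀ β w c i).1))
      omega
    · rw [cfg_stk M q₀ k₀ β w c i k hk]
      omega

/-- Initial cells. -/
theorem init_in (w c : List Bool) {P : ℕ} (hc : c.length ≤ P) {y : ℕ} (h1 : P < y)
    (h2 : y ≤ P + 2 * w.length + 1) :
    val (P - c.length) ((pair w c).map β) y =
      some (some (β ((pair w []).getD (P + 2 * w.length + 1 - y) false))) := by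
  rw [val_get _ _ (by omega) (by rw [List.length_map, pair_length]; omega), List.length_map,
    pair_length, show P - c.length + (2 * w.length + 1 + c.length) - y =
      P + 2 * w.length + 1 - y by omega, List.getElem?_map, pair_eq,
    List.getElem?_append_left (by rw [pair_length, List.length_nil]; omega),
    List.getElem?_eq_getElem (by rw [pair_length, List.length_nil]; omega),
    List.getD_eq_getElem _ _ (by rw [pair_length, List.length_nil]; omega)]
  rfl

theorem init_out (w c : List Bool) {P : ℕ} (hc : c.length ≤ P) {y : ℕ} (h1 : y ≤ P) :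
    val (P - c.length) ((pair w c).map β) y = val (P - c.length) (c.map β) y := by
  rw [pair_eq, List.map_append, val_append]
  rw [List.length_map]
  omega

theorem init_above (w c : List Bool) {P : ℕ} (hc : c.length ≤ P) {y : ℕ}
    (h1 : P + 2 * w.length + 1 < y) : val (P - c.length) ((pair w c).map β) y = none := by
  rw [val_above]
  rw [List.length_map, pair_length]
  omega

/-- The true facts of a computation. -/
def fact (P : ℕ) (w c : List Bool) : VF M.Q M.K M.S → ℕ → ℕ → Prop
  | .ctl q, i, _ => (cfg M q₀ k₀ β w c i).1 = q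
  | .cell k a, i, y =>
    val (bot M k₀ P (P + 2 * w.length + 1) c k) ((cfg M q₀ k₀ β w c i).2 k) y = a
  | .hd k o, i, y =>
    val (bot M k₀ P (P + 2 * w.length + 1) c k) ((cfg M q₀ k₀ β w c i).2 k) y = some o ∧
      val (bot M k₀ P (P + 2 * w.length + 1) c k) ((cfg M q₀ k₀ β w c i).2 k) (y + 1) = none
  | .ph q o, i, y => (cfg M q₀ k₀ β w c i).1 = q ∧
    val (bot M k₀ P (P + 2 * w.length + 1) c (M.on q)) ((cfg M q₀ k₀ β w c i).2 (M.on q)) y =
      some o ∧
    val (bot M k₀ P (P + 2 * w.length + 1) c (M.on q)) ((cfg M q₀ k₀ β w c i).2 (M.on q)) (y + 1)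
      = none

theorem sat_fact (w c : List Bool) {P T : ℕ} (hc : c.length ≤ P)
    (hacc : acc (cfg M q₀ k₀ β w c T).1) :
    Sat M q₀ k₀ β acc P (P + 2 * w.length + 1) T (bitP w (P + 2 * w.length + 1))
      (fact M q₀ k₀ β P w c) := by
  intro s i x y hi hx hy hv
  have h0 : (cfg M q₀ k₀ β w c 0).2 k₀ = (pair w c).map β := by
    simp [cfg, SM.init]
  have h0' : ∀ k, k ≠ k₀ → (cfg M q₀ k₀ β w c 0).2 k = [] := by
    intro k hk
    simp [cfg, SM.init, hk]
  have hb0 : bot M k₀ P (P + 2 * w.length + 1) c k₀ = P - c.length := by simp [bot]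
  have hb0' : ∀ k, k ≠ k₀ → bot M k₀ P (P + 2 * w.length + 1) c k = P + 2 * w.length + 1 := by
    intro k hk
    simp [bot, hk]
  cases s with
  | initCtl =>
    left
    simp only [Lt.Holds, lits, PI.ev, PY.ev, fact]
    simp [cfg, SM.init]
  | initBelow k =>
    left
    obtain ⟨hk, hy'⟩ := hv
    simp only [Lt.Holds, lits, PI.ev, PY.ev, fact]
    rw [h0' k hk, hb0' k hk, val_below _ _ hy']
    simp
  | initAbove k =>
    left
    have hv : P + 2 * w.length + 1 < y := hv
    simp only [Lt.Holds, lits, PI.ev, PY.ev, fact]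
    by_cases hk : k = k₀
    · subst hk
      rw [h0, hb0, init_above _ β w c hc hv]
      simp
    · rw [h0' k hk, hb0' k hk, val_above]
      · simp
      · simpa using hv
  | initIn b =>
    left
    obtain ⟨h1, h2, h3⟩ := hv
    simp only [Lt.Holds, lits, PI.ev, PY.ev, fact]
    rw [h0, hb0, init_in _ β w c hc h1 h2, show (pair w []).getD _ false = b from h3]
    simp
  | initBot =>
    left
    simp only [Lt.Holds, lits, PI.ev, PY.ev, fact]
    rw [h0, hb0, val_below _ _ (Nat.zero_le _)]
    simp
  | choice =>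
    obtain ⟨h1, h2⟩ := hv
    simp only [Lt.Holds, lits, PI.ev, PY.ev, fact]
    rw [h0, hb0, init_out _ β w c hc h2]
    simp only [iff_true]
    by_cases hy' : y ≤ P - c.length
    · exact Or.inr (Or.inr (val_below _ _ hy'))
    · obtain ⟨b, hb⟩ : ∃ b, (c)[P - c.length + c.length - y]? = some b :=
        ⟨_, List.getElem?_eq_getElem (by omega)⟩
      rw [val_get _ _ (by omega) (by rw [List.length_map]; omega), List.length_map,
        List.getElem?_map, hb]
      cases b
      · exact Or.inr (Or.inl rfl)
      · exact Or.inl rfl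
  | prop =>
    obtain ⟨h1, h2⟩ := hv
    simp only [Lt.Holds, lits, PI.ev, PY.ev, fact]
    rw [h0, hb0, init_out _ β w c hc (show y + 1 ≤ P by omega), init_out _ β w c hc h2.le]
    simp only [iff_true, Bool.false_eq_true, iff_false]
    by_cases hy' : y ≤ P - c.length
    · exact Or.inr (Or.inr (val_below _ _ hy'))
    · left
      intro h
      obtain ⟨a, ha⟩ := val_sym (P - c.length) (c.map β) (y := y + 1) (by omega)
        (by rw [List.length_map]; omega)
      rw [ha] at h
      simp at h
  | hdc k o =>
    simp only [Lt.Holds, lits, PI.ev, PY.ev, fact]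
    simp only [iff_true, Bool.false_eq_true, iff_false]
    tauto
  | phc q o =>
    simp only [Lt.Holds, lits, PI.ev, PY.ev, fact]
    simp only [iff_true, Bool.false_eq_true, iff_false]
    tauto
  | nxt q o =>
    simp only [Lt.Holds, lits, PI.ev, PY.ev, fact]
    simp only [iff_true, Bool.false_eq_true, iff_false]
    by_cases h : (cfg M q₀ k₀ β w c i).1 = q ∧
      val (bot M k₀ P (P + 2 * w.length + 1) c (M.on q)) ((cfg M q₀ k₀ β w c i).2 (M.on q)) x =
      some o ∧
      val (bot M k₀ P (P + 2 * w.length + 1) c (M.on q)) ((cfg M q₀ k₀ β w c i).2 (M.on q))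
        (x + 1) = none
    · right
      right
      obtain ⟨h1, h2, h3⟩ := h
      obtain ⟨-, h4⟩ := val_hd _ _ h2 h3
      rw [cfg_state, h1, ← h4]
    · exact Or.inl h
  | oth q k a =>
    obtain ⟨hk, hi'⟩ := hv
    simp only [Lt.Holds, lits, PI.ev, PY.ev, fact]
    simp only [iff_true, Bool.false_eq_true, iff_false]
    by_cases h : (cfg M q₀ k₀ β w c i).1 = q
    · rw [cfg_stk M q₀ k₀ β w c i k (by rw [h]; exact hk)]
      tauto
    · exact Or.inl h
  | same q o a =>
    obtain ⟨hi', hv1, hv2⟩ := hv
    simp only [Lt.Holds, lits, PI.ev, PY.ev, fact]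
    simp only [iff_true, Bool.false_eq_true, iff_false]
    by_cases h : (cfg M q₀ k₀ β w c i).1 = q ∧
      val (bot M k₀ P (P + 2 * w.length + 1) c (M.on q)) ((cfg M q₀ k₀ β w c i).2 (M.on q)) x =
      some o ∧
      val (bot M k₀ P (P + 2 * w.length + 1) c (M.on q)) ((cfg M q₀ k₀ β w c i).2 (M.on q))
        (x + 1) = none
    · right
      obtain ⟨h1, h2, h3⟩ := h
      obtain ⟨h5, h4⟩ := val_hd _ _ h2 h3
      have h6 := cfg_on M q₀ k₀ β w c i
      rw [h1, ← h4] at h6
      rw [h6, val_act, ← h4, ← h5]
      by_cases hval : val (bot M k₀ P (P + 2 * w.length + 1) c (M.on q))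
        ((cfg M q₀ k₀ β w c i).2 (M.on q)) y = a
      · right
        rw [if_neg (fun e => hv1 ⟨e.1, e.2.1⟩ e.2.2)]
        split_ifs with hy'
        · match hact : (M.δ q o).2 with
          | none => exact hval
          | some none => exact hval
          | some (some d) => exact absurd hy' (hv2 ⟨d, hact⟩)
        · exact hval
      · exact Or.inl hval
    · exact Or.inl h
  | chg q o =>
    obtain ⟨hi', hv1⟩ := hv
    by_cases h : (cfg M q₀ k₀ β w c i).1 = q ∧
      val (bot M k₀ P (P + 2 * w.length + 1) c (M.on q)) ((cfg M q₀ k₀ β w c i).2 (M.on q)) x =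
      some o ∧
      val (bot M k₀ P (P + 2 * w.length + 1) c (M.on q)) ((cfg M q₀ k₀ β w c i).2 (M.on q))
        (x + 1) = none
    · obtain ⟨h1, h2, h3⟩ := h
      obtain ⟨h5, h4⟩ := val_hd _ _ h2 h3
      have h6 := cfg_on M q₀ k₀ β w c i
      rw [h1, ← h4] at h6
      right
      right
      rcases hv1 with ⟨hact, ho⟩ | ⟨d, hact⟩
      · simp only [Lt.Holds, lits, hact, PI.ev, PY.ev, fact]
        rw [h6, val_act, ← h4, ← h5, hact, if_pos ⟨rfl, ho, rfl⟩]
        simp
      · simp only [Lt.Holds, lits, hact, PI.ev, PY.ev, fact]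
        rw [h6, val_act, ← h4, ← h5, hact, if_neg (by simp), if_pos rfl]
        simp
    · left
      rcases hv1 with ⟨hact, ho⟩ | ⟨d, hact⟩
      · simp only [Lt.Holds, lits, hact, PI.ev, PY.ev, fact]
        simpa using h
      · simp only [Lt.Holds, lits, hact, PI.ev, PY.ev, fact]
        simpa using h
  | fin q =>
    left
    simp only [Lt.Holds, lits, PI.ev, PY.ev, fact]
    have hv : ¬ acc q := hv
    simp only [Bool.false_eq_true, iff_false]
    rintro rfl
    exact hv hacc

end Pool.Agent.TSP94
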