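import Pool.Agent.TSP94.TabC

/-!
# From a satisfying assignment to an accepted certificate
-/

set_option autoImplicit false

namespace Pool.Agent.TSP94

open Pool.Agent.PTL

variable (M : SM) (q₀ : M.Q) (k₀ : M.K) (β : Bool → M.S) (acc : M.Q → Prop)

section

variable {M q₀ k₀ β acc} {w : List Bool} {P T : ℕ} {τ : VF M.Q M.K M.S → ℕ → ℕ → Prop}
  (h : Sat M q₀ k₀ β acc P (P + 2 * w.length + 1) T (bitP w (P + 2 * w.length + 1)) τ)
include h

theorem sat_bot : ∀ y ≤ P, τ (.cell k₀ (some none)) 0 y →
    ∀ y' ≤ y, τ (.cell k₀ (some none)) 0 y' := by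
  intro y
  induction y with
  | zero =>
    intro _ h1 y' hy'
    obtain rfl : y' = 0 := by omega
    exact h1
  | succ y ih =>
    intro hy h1 y' hy'
    rcases Nat.lt_or_ge y y' with h2 | h2
    · obtain rfl : y' = y + 1 := by omega
      exact h1
    · refine ih (by omega) ?_ y' h2
      rcases Nat.eq_zero_or_pos y with rfl | hy0
      · have := h .initBot 0 0 0 (Nat.zero_le _) (by omega) (by omega) trivial
        simpa [Lt.Holds, lits, PI.ev, PY.ev] using this
      · have := h .prop 0 0 y (Nat.zero_le _) (by omega) (by omega) ⟨hy0, by omega⟩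
        simp only [Lt.Holds, lits, PI.ev, PY.ev, Bool.false_eq_true, iff_false, iff_true] at this
        tauto

theorem exists_cells : ∀ j ≤ P, ∃ c : List Bool, c.length ≤ j ∧
    ∀ y ≤ j, τ (.cell k₀ (val (j - c.length) (c.map β) y)) 0 y := by
  have h0 : τ (.cell k₀ (some none)) 0 0 := by
    have := h .initBot 0 0 0 (Nat.zero_le _) (by omega) (by omega) trivial
    simpa [Lt.Holds, lits, PI.ev, PY.ev] using this
  intro j
  induction j with
  | zero =>
    intro _
    refine ⟨[], le_rfl, fun y hy => ?_⟩
    obtain rfl : y = 0 := by omega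
    exact h0
  | succ j ih =>
    intro hj
    obtain ⟨c, hc, hcell⟩ := ih (by omega)
    have h1 := h .choice 0 0 (j + 1) (Nat.zero_le _) (by omega) (by omega)
      ⟨Nat.succ_pos j, hj⟩
    simp only [Lt.Holds, lits, PI.ev, PY.ev, iff_true] at h1
    have key : ∀ b : Bool, τ (.cell k₀ (some (some (β b)))) 0 (j + 1) →
        ∃ c : List Bool, c.length ≤ j + 1 ∧
          ∀ y ≤ j + 1, τ (.cell k₀ (val (j + 1 - c.length) (c.map β) y)) 0 y := by
      intro b hb
      refine ⟨b :: c, by simpa using hc, fun y hy => ?_⟩
      rw [List.map_cons, List.length_cons, Nat.add_sub_add_right, val_push, List.length_map]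
      split_ifs with h2
      · have : y = j + 1 := by omega
        rw [this]
        exact hb
      · exact hcell y (by omega)
    rcases h1 with h1 | h1 | h1
    · exact key true h1
    · exact key false h1
    · refine ⟨[], Nat.zero_le _, fun y hy => ?_⟩
      rw [List.length_nil, val_below _ _ (by omega)]
      exact sat_bot h (j + 1) hj h1 y hy

theorem exists_init : ∃ c : List Bool, c.length ≤ P ∧ τ (.ctl (cfg M q₀ k₀ β w c 0).1) 0 0 ∧
    ∀ k, ∀ y < P + 2 * w.length + 1 + T + 2,
      τ (.cell k (val (bot M k₀ P (P + 2 * w.length + 1) c k) ((cfg M q₀ k₀ β w c 0).2 k) y))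
        0 y := by
  obtain ⟨c, hc, hcell⟩ := exists_cells h P le_rfl
  refine ⟨c, hc, ?_, fun k y hy => ?_⟩
  · have := h .initCtl 0 0 0 (Nat.zero_le _) (by omega) (by omega) trivial
    simp only [Lt.Holds, lits, PI.ev, PY.ev, iff_true, or_self] at this
    exact this
  · by_cases hk : k = k₀
    · subst hk
      have h0 : (cfg M q₀ k β w c 0).2 k = (pair w c).map β := by simp [cfg, SM.init]
      have hb0 : bot M k P (P + 2 * w.length + 1) c k = P - c.length := by simp [bot]
      rw [h0, hb0]
      rcases Nat.lt_or_ge P y with h1 | h1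
      · rcases Nat.lt_or_ge (P + 2 * w.length + 1) y with h2 | h2
        · rw [init_above _ β w c hc h2]
          have := h (.initAbove k) 0 0 y (Nat.zero_le _) (by omega) hy h2
          simp only [Lt.Holds, lits, PI.ev, PY.ev, iff_true, or_self] at this
          exact this
        · rw [init_in _ β w c hc h1 h2]
          have := h (.initIn ((pair w []).getD (P + 2 * w.length + 1 - y) false)) 0 0 y
            (Nat.zero_le _) (by omega) hy ⟨h1, h2, rfl⟩
          simp only [Lt.Holds, lits, PI.ev, PY.ev, iff_true, or_self] at this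
          exact this
      · rw [init_out _ β w c hc h1]
        exact hcell y h1
    · have h0 : (cfg M q₀ k₀ β w c 0).2 k = [] := by simp [cfg, SM.init, hk]
      have hb0 : bot M k₀ P (P + 2 * w.length + 1) c k = P + 2 * w.length + 1 := by
        simp [bot, hk]
      rw [h0, hb0]
      rcases Nat.lt_or_ge (P + 2 * w.length + 1) y with h2 | h2
      · rw [val_above _ _ (by simpa using h2)]
        have := h (.initAbove k) 0 0 y (Nat.zero_le _) (by omega) hy h2
        simp only [Lt.Holds, lits, PI.ev, PY.ev, iff_true, or_self] at this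
        exact this
      · rw [val_below _ _ h2]
        have := h (.initBelow k) 0 0 y (Nat.zero_le _) (by omega) hy ⟨hk, h2⟩
        simp only [Lt.Holds, lits, PI.ev, PY.ev, iff_true, or_self] at this
        exact this

theorem sat_next {c : List Bool} (hc : c.length ≤ P) {i : ℕ} (hi : i < T)
    (h1 : τ (.ctl (cfg M q₀ k₀ β w c i).1) i 0)
    (h2 : ∀ k, ∀ y < P + 2 * w.length + 1 + T + 2,
      τ (.cell k (val (bot M k₀ P (P + 2 * w.length + 1) c k) ((cfg M q₀ k₀ β w c i).2 k) y))
        i y) :
    τ (.ctl (cfg M q₀ k₀ β w c (i + 1)).1) (i + 1) 0 ∧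
    ∀ k, ∀ y < P + 2 * w.length + 1 + T + 2,
      τ (.cell k (val (bot M k₀ P (P + 2 * w.length + 1) c k)
        ((cfg M q₀ k₀ β w c (i + 1)).2 k) y)) (i + 1) y := by
  set q := (cfg M q₀ k₀ β w c i).1 with hq
  set k := M.on q with hk
  set l := (cfg M q₀ k₀ β w c i).2 k with hl
  set B := bot M k₀ P (P + 2 * w.length + 1) c k with hB
  set o := l.head? with ho
  have hx : B + l.length + 1 < P + 2 * w.length + 1 + T + 2 := by
    have := cfg_len M q₀ k₀ β w c hc i k
    rw [← hl, ← hB] at this
    omega
  -- the head
  have h3 : τ (.hd k o) i (B + l.length) := by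
    have e1 := h2 k (B + l.length) (by omega)
    rw [← hl, ← hB, val_head] at e1
    have e2 := h2 k (B + l.length + 1) hx
    rw [← hl, ← hB, val_above _ _ (by omega)] at e2
    have := h (.hdc k o) i (B + l.length) 0 hi.le (by omega) (by omega) hx
    simp only [Lt.Holds, lits, PI.ev, PY.ev, Bool.false_eq_true, iff_false, iff_true] at this
    rcases this with h | h | h
    · exact absurd e1 h
    · exact absurd e2 h
    · exact h
  have h4 : τ (.ph q o) i (B + l.length) := by
    have := h (.phc q o) i (B + l.length) 0 hi.le (by omega) (by omega) trivial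
    simp only [Lt.Holds, lits, PI.ev, PY.ev, Bool.false_eq_true, iff_false, iff_true] at this
    rcases this with h | h | h
    · exact absurd h1 h
    · exact absurd h3 h
    · exact h
  have hst : (cfg M q₀ k₀ β w c (i + 1)).1 = (M.δ q o).1 := cfg_state M q₀ k₀ β w c i
  have hstk : (cfg M q₀ k₀ β w c (i + 1)).2 k = SM.act (M.δ q o).2 l := cfg_on M q₀ k₀ β w c i
  refine ⟨?_, fun k' y hy => ?_⟩
  · rw [hst]
    have := h (.nxt q o) i (B + l.length) 0 hi.le (by omega) (by omega) hi
    simp only [Lt.Holds, lits, PI.ev, PY.ev, Bool.false_eq_true, iff_false, iff_true,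
      or_self] at this
    tauto
  · by_cases hk' : k' = k
    · subst hk'
      rw [hstk, val_act]
      have same : (((M.δ q o).2 = some none ∧ o ≠ none) → y ≠ B + l.length) →
          ((∃ c, (M.δ q o).2 = some (some c)) → y ≠ B + l.length + 1) →
          τ (.cell k (val B l y)) (i + 1) y := by
        intro g1 g2
        have := h (.same q o (val B l y)) i (B + l.length) y hi.le (by omega) hy ⟨hi, g1, g2⟩
        simp only [Lt.Holds, lits, PI.ev, PY.ev, Bool.false_eq_true, iff_false, iff_true] at this
        rcases this with h | h | h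
        · exact absurd h4 h
        · exact absurd (h2 k y hy) h
        · exact h
      split_ifs with g1 g2
      · have := h (.chg q o) i (B + l.length) 0 hi.le (by omega) (by omega)
          ⟨hi, Or.inl ⟨g1.1, g1.2.1⟩⟩
        simp only [Lt.Holds, lits, g1.1, PI.ev, PY.ev, Bool.false_eq_true, iff_false, iff_true,
          or_self] at this
        rw [g1.2.2]
        rcases this with h | h
        · exact absurd h4 h
        · exact h
      · match hact : (M.δ q o).2 with
        | none => exact same (by simp [hact]) (by simp [hact])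
        | some none =>
          exact same (fun e he => by omega) (by simp [hact])
        | some (some d) =>
          have := h (.chg q o) i (B + l.length) 0 hi.le (by omega) (by omega)
            ⟨hi, Or.inr ⟨d, hact⟩⟩
          simp only [Lt.Holds, lits, hact, PI.ev, PY.ev, Bool.false_eq_true, iff_false, iff_true,
            or_self] at this
          rw [g2]
          rcases this with h | h
          · exact absurd h4 h
          · exact h
      · exact same (fun e he => g1 ⟨e.1, e.2, he⟩) (fun _ => g2)
    · rw [cfg_stk M q₀ k₀ β w c i k' hk']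
      have := h (.oth q k' (val (bot M k₀ P (P + 2 * w.length + 1) c k')
        ((cfg M q₀ k₀ β w c i).2 k') y)) i 0 y hi.le (by omega) hy ⟨hk', hi⟩
      simp only [Lt.Holds, lits, PI.ev, PY.ev, Bool.false_eq_true, iff_false, iff_true] at this
      rcases this with h | h | h
      · exact absurd h1 h
      · exact absurd (h2 k' y hy) h
      · exact h

/-- A satisfying assignment gives an accepted certificate. -/
theorem exists_of_sat : ∃ c : List Bool, c.length ≤ P ∧ acc (cfg M q₀ k₀ β w c T).1 := by
  obtain ⟨c, hc, h1, h2⟩ := exists_init h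
  have key : ∀ i ≤ T, τ (.ctl (cfg M q₀ k₀ β w c i).1) i 0 ∧
      ∀ k, ∀ y < P + 2 * w.length + 1 + T + 2,
      τ (.cell k (val (bot M k₀ P (P + 2 * w.length + 1) c k)
        ((cfg M q₀ k₀ β w c i).2 k) y)) i y := by
    intro i
    induction i with
    | zero => exact fun _ => ⟨h1, h2⟩
    | succ i ih =>
      intro hi
      obtain ⟨h3, h4⟩ := ih (by omega)
      exact sat_next h hc (by omega) h3 h4
  refine ⟨c, hc, ?_⟩
  by_contra hacc
  have := h (.fin (cfg M q₀ k₀ β w c T).1) 0 0 0 (Nat.zero_le _) (by omega) (by omega) hacc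
  simp only [Lt.Holds, lits, PI.ev, PY.ev, Bool.false_eq_true, iff_false, or_self] at this
  exact this (key T le_rfl).1

end

/-- The clauses are satisfiable iff some certificate is accepted. -/
theorem sat_iff (w : List Bool) (P T : ℕ) :
    (∃ τ, Sat M q₀ k₀ β acc P (P + 2 * w.length + 1) T (bitP w (P + 2 * w.length + 1)) τ) ↔
      ∃ c : List Bool, c.length ≤ P ∧ acc (cfg M q₀ k₀ β w c T).1 := by
  constructor
  · rintro ⟨τ, h⟩
    exact exists_of_sat h
  · rintro ⟨c, hc, hacc⟩
    exact ⟨_, sat_fact M q₀ k₀ β acc w c hc hacc⟩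

end Pool.Agent.TSP94
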